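import Pool.Agent.Work.MP_02e829_s7.Interface
import Pool.Agent.Work.MP_02e829_sb.B_VAL

/-!
# Screw motions in Cartesian coordinates
-/

open Set Filter Manifold Matrix MeasureTheory Metric
open scoped Topology ContDiff Manifold

set_option autoImplicit false

namespace Pool.SXB

/-- the half angle -/
lemma SC9_tan {φ : ℝ} (h0 : 0 < φ) (h1 : φ < Real.pi) : ∃ k : ℝ, 0 < k ∧
    Real.sin φ = k * (1 + Real.cos φ) ∧ 1 - Real.cos φ = k * Real.sin φ := by
  have hs : 0 < Real.sin φ := Real.sin_pos_of_pos_of_lt_pi h0 h1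
  have hsc := Real.sin_sq_add_cos_sq φ
  have hc : 0 < 1 + Real.cos φ := by
    have h2 : -1 ≤ Real.cos φ := Real.neg_one_le_cos φ
    rcases h2.eq_or_lt with h3 | h3
    · rw [← h3] at hsc
      nlinarith
    · linarith
  refine ⟨Real.sin φ / (1 + Real.cos φ), div_pos hs hc, ?_, ?_⟩
  · field_simp
  · field_simp
    nlinarith

/-- a screw motion in Cartesian coordinates is a screw motion -/
theorem SC9 {ε φ d : ℝ} {B A : E3 ≃ᵃⁱ[ℝ] E3} (hA : Proper A) (h0 : 0 < φ) (h1 : φ < Real.pi)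
    (hd : 0 < ε * d) (h : ∀ z : E3, B (A z) = A (WithLp.toLp 2 ![Real.cos φ * z 0 - Real.sin φ * z 1,
      Real.sin φ * z 0 + Real.cos φ * z 1, z 2 + d])) : Screw ε B := by
  obtain ⟨k, hk, hk1, hk2⟩ := SC9_tan h0 h1
  -- the axis and the translation in the coordinates
  obtain ⟨u, hu⟩ : ∃ u : E3, L3 u = ![0, 0, k] := VAL_surj _
  obtain ⟨w, hw⟩ : ∃ w : E3, L3 w = ![0, 0, d / 2] := VAL_surj _
  refine ⟨(L3 (A.linearIsometryEquiv u), L3 (A.linearIsometryEquiv w) -
    L3 (A.linearIsometryEquiv u) ⨯₃ L3 (A 0)), ?_, ?_⟩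
  · intro x
    obtain ⟨z, rfl⟩ := A.surjective x
    obtain ⟨s, hs⟩ : ∃ s : E3, s = WithLp.toLp 2 ![Real.cos φ * z 0 - Real.sin φ * z 1,
      Real.sin φ * z 0 + Real.cos φ * z 1, z 2 + d] := ⟨_, rfl⟩
    have hx := h z
    rw [← hs] at hx
    rw [hx, VAL_affine A s, VAL_affine A z]
    -- the equation in the coordinates
    have hL : ∀ (y : E3) (i : Fin 3), L3 y i = y i := fun y i => rfl
    have hc : L3 s - L3 z = L3 u ⨯₃ (L3 s + L3 z) + (2 : ℝ) • L3 w := by
      rw [hu, hw]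
      have e0 : L3 s 0 = Real.cos φ * z 0 - Real.sin φ * z 1 := by rw [hs, hL]; simp
      have e1 : L3 s 1 = Real.sin φ * z 0 + Real.cos φ * z 1 := by rw [hs, hL]; simp
      have e2 : L3 s 2 = z 2 + d := by rw [hs, hL]; simp
      ext i
      simp only [cross_apply, Pi.add_apply, Pi.sub_apply, Pi.smul_apply, smul_eq_mul]
      fin_cases i
      · simp [e0, e1, e2, hL]
        linear_combination (-z 0) * hk2 - z 1 * hk1
      · simp [e0, e1, e2, hL]
        linear_combination z 0 * hk1 - z 1 * hk2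
      · simp [e0, e1, e2, hL]
        ring
    obtain ⟨v, hv⟩ : ∃ v : E3, L3 v = L3 u ⨯₃ (L3 s + L3 z) := VAL_surj _
    have h5 := VAL_cross A.linearIsometryEquiv hA u (s + z) v (by
      rw [hv, map_add L3])
    have h6 : s - z = v + (2 : ℝ) • w := LOC_inj (by
      rw [map_sub, map_add, map_smul, hv]
      exact hc)
    have h7 := congrArg (fun y => L3 (A.linearIsometryEquiv y)) h6
    simp only [map_sub, map_add, map_smul] at h7 h5
    simp only [map_add] at h5 h7 ⊢
    rw [h5] at h7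
    rw [smul_sub]
    have h8 : L3 (A.linearIsometryEquiv s) + L3 (A 0) - (L3 (A.linearIsometryEquiv z) + L3 (A 0)) =
        L3 (A.linearIsometryEquiv s) - L3 (A.linearIsometryEquiv z) := by abel
    rw [h8, h7]
    have h9 : (2 : ℝ) • (L3 (A.linearIsometryEquiv u) ⨯₃ L3 (A 0)) =
        L3 (A.linearIsometryEquiv u) ⨯₃ L3 (A 0) + L3 (A.linearIsometryEquiv u) ⨯₃ L3 (A 0) :=
      two_smul _ _
    rw [h9]
    abel
  · have e1 : L3 (A.linearIsometryEquiv u) ⬝ᵥ (L3 (A.linearIsometryEquiv u) ⨯₃ L3 (A 0)) = 0 :=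
      dot_self_cross _ _
    have e2 : L3 (A.linearIsometryEquiv u) ⬝ᵥ L3 (A.linearIsometryEquiv w) = L3 u ⬝ᵥ L3 w := by
      rw [← LOC_inner, ← LOC_inner, LinearIsometryEquiv.inner_map_map]
    rw [dotProduct_sub, e1, sub_zero, e2, hu, hw]
    simp only [vec3_dotProduct]
    simp
    have : ε * (k * (d / 2)) = (ε * d) * k / 2 := by ring
    rw [this]
    positivity

end Pool.SXB
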