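import Pool.Agent.Work.MP_02e829_s7.Final9
import Pool.Agent.Work.MP_02e829_s7.Screw9

/-!
# Motions as pairs of a matrix and a vector
-/

open Set Filter Manifold Matrix MeasureTheory Metric
open scoped Topology ContDiff Manifold

set_option autoImplicit false

universe w

namespace Pool.SXB

/-- the linear map of a matrix -/
noncomputable def turnE (R : Matrix (Fin 3) (Fin 3) ℝ) (v : E3) : E3 := WithLp.toLp 2 (R *ᵥ v)

lemma turnE_L3 (R : Matrix (Fin 3) (Fin 3) ℝ) (v : E3) : L3 (turnE R v) = R *ᵥ L3 v := rfl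

lemma turnE_add (R : Matrix (Fin 3) (Fin 3) ℝ) (v w : E3) :
    turnE R (v + w) = turnE R v + turnE R w := by
  refine LOC_inj ?_
  rw [map_add, turnE_L3, turnE_L3, turnE_L3, map_add, mulVec_add]

lemma turnE_smul (R : Matrix (Fin 3) (Fin 3) ℝ) (r : ℝ) (v : E3) :
    turnE R (r • v) = r • turnE R v := by
  refine LOC_inj ?_
  rw [map_smul, turnE_L3, turnE_L3, map_smul, mulVec_smul]

lemma turnE_norm {R : Matrix (Fin 3) (Fin 3) ℝ} (hR : Rᵀ * R = 1) (v : E3) :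
    ‖turnE R v‖ = ‖v‖ := by
  have h1 : ‖turnE R v‖ ^ 2 = ‖v‖ ^ 2 := by
    rw [← real_inner_self_eq_norm_sq, ← real_inner_self_eq_norm_sq, LOC_inner, LOC_inner,
      turnE_L3, dotProduct_mulVec, vecMul_mulVec, hR, vecMul_one]
  exact (sq_eq_sq₀ (norm_nonneg _) (norm_nonneg _)).1 h1

/-- the linear isometry of an orthogonal matrix -/
noncomputable def linE (R : Matrix (Fin 3) (Fin 3) ℝ) (hR : Rᵀ * R = 1) : E3 ≃ₗᵢ[ℝ] E3 :=
  LinearIsometry.toLinearIsometryEquiv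
    { toFun := turnE R
      map_add' := turnE_add R
      map_smul' := fun r v => turnE_smul R r v
      norm_map' := fun v => turnE_norm hR v } rfl

lemma linE_apply (R : Matrix (Fin 3) (Fin 3) ℝ) (hR : Rᵀ * R = 1) (v : E3) :
    linE R hR v = turnE R v := rfl

lemma linE_det (R : Matrix (Fin 3) (Fin 3) ℝ) (hR : Rᵀ * R = 1) :
    LinearMap.det ((linE R hR).toLinearEquiv : E3 →ₗ[ℝ] E3) = R.det := by
  have h1 : (VAL_e : E3 →ₗ[ℝ] V3) ∘ₗ ((linE R hR).toLinearEquiv : E3 →ₗ[ℝ] E3) ∘ₗ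
      (VAL_e.symm : V3 →ₗ[ℝ] E3) = Matrix.toLin' R := by
    ext1 i
    ext1
    rfl
  rw [← LinearMap.det_conj _ VAL_e, h1, LinearMap.det_toLin']

/-- the isometry of the space -/
noncomputable def isoE (R : Matrix (Fin 3) (Fin 3) ℝ) (hR : Rᵀ * R = 1) (b : E3) :
    E3 ≃ᵃⁱ[ℝ] E3 :=
  (linE R hR).toAffineIsometryEquiv.trans (AffineIsometryEquiv.constVAdd ℝ E3 b)

lemma isoE_apply (R : Matrix (Fin 3) (Fin 3) ℝ) (hR : Rᵀ * R = 1) (b x : E3) :
    isoE R hR b x = turnE R x + b := by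
  change b + turnE R x = _
  exact add_comm _ _

lemma isoE_lin (R : Matrix (Fin 3) (Fin 3) ℝ) (hR : Rᵀ * R = 1) (b : E3) :
    (isoE R hR b).linearIsometryEquiv = linE R hR := rfl

lemma isoE_proper {R : Matrix (Fin 3) (Fin 3) ℝ} (hR : Rᵀ * R = 1) (hd : R.det = 1) (b : E3) :
    Proper (isoE R hR b) := by
  rw [Proper, isoE_lin, linE_det, hd]
  exact one_pos

lemma isoE_exists (B : E3 ≃ᵃⁱ[ℝ] E3) (hB : Proper B) : ∃ (R : Matrix (Fin 3) (Fin 3) ℝ)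
    (hR : Rᵀ * R = 1) (b : E3), R.det = 1 ∧ B = isoE R hR b := by
  obtain ⟨φ, hφ⟩ : ∃ φ : V3 →ₗ[ℝ] V3, φ = (VAL_e : E3 →ₗ[ℝ] V3) ∘ₗ
    (B.linearIsometryEquiv.toLinearEquiv : E3 →ₗ[ℝ] E3) ∘ₗ (VAL_e.symm : V3 →ₗ[ℝ] E3) := ⟨_, rfl⟩
  obtain ⟨M, hM⟩ : ∃ M : Matrix (Fin 3) (Fin 3) ℝ, M = LinearMap.toMatrix' φ := ⟨_, rfl⟩
  have hdet : M.det = LinearMap.det (B.linearIsometryEquiv.toLinearEquiv : E3 →ₗ[ℝ] E3) := by
    rw [hM, LinearMap.det_toMatrix', hφ]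
    exact LinearMap.det_conj _ VAL_e
  have h1 : ∀ x : V3, M *ᵥ x = φ x := by
    intro x
    rw [hM, LinearMap.toMatrix'_mulVec]
  have h2 : ∀ z : E3, M *ᵥ L3 z = L3 (B.linearIsometryEquiv z) := by
    intro z
    rw [h1, hφ]
    change L3 (B.linearIsometryEquiv (VAL_e.symm (VAL_e z))) = _
    rw [LinearEquiv.symm_apply_apply]
  have h3 : ∀ x y : V3, (M *ᵥ x) ⬝ᵥ (M *ᵥ y) = x ⬝ᵥ y := by
    intro x y
    obtain ⟨u, rfl⟩ := VAL_surj x
    obtain ⟨v, rfl⟩ := VAL_surj y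
    rw [h2, h2, ← LOC_inner, ← LOC_inner, LinearIsometryEquiv.inner_map_map]
  have h4 : Mᵀ * M = 1 := by
    ext i j
    have h5 := h3 (Pi.single i 1) (Pi.single j 1)
    rw [Matrix.mulVec_single_one, Matrix.mulVec_single_one] at h5
    have h6 : (Mᵀ * M) i j = M.col i ⬝ᵥ M.col j := rfl
    rw [h6, h5, single_one_dotProduct, Matrix.one_apply, Pi.single_apply]
  have h7 : M.det = 1 := by
    have h8 := congrArg Matrix.det h4
    rw [det_mul, det_transpose, det_one] at h8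
    have h9 : 0 < M.det := hdet ▸ hB
    nlinarith
  refine ⟨M, h4, B 0, h7, ?_⟩
  ext1 x
  rw [isoE_apply, VAL_affine B x]
  congr 1
  refine LOC_inj ?_
  rw [turnE_L3, h2]

end Pool.SXB
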