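import Pool.Agent.Work.MP_02e829_s7.Interface

/-!
# Block LR7: locally rigid points (helper9)
-/

open Set Filter Manifold Matrix MeasureTheory Metric
open scoped Topology ContDiff Manifold

set_option autoImplicit false

universe w

namespace Pool.SXB

open Pool.FR (pd ee)

section LR7

variable {S : Type w} [TopologicalSpace S] [ChartedSpace E2 S]

theorem LR7_dvec {f g : S → E3} (hf : ContMDiff (𝓡 2) (𝓡 3) 2 f) (A : E3 ≃ᵃⁱ[ℝ] E3) (p : S)
    (h : ∀ᶠ p' in 𝓝 p, g p' = A (f p')) (v : E2) :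
    FRD.dvec g p v = A.linearIsometryEquiv (FRD.dvec f p v) := by
  have h1 : MDifferentiableAt (𝓡 2) (𝓡 3) f p := (hf p).mdifferentiableAt (by norm_num)
  have h2 : HasFDerivAt (⇑A) (A.linearIsometryEquiv.toContinuousLinearEquiv : E3 →L[ℝ] E3)
      (f p) := by
    have h3 : (⇑A) = fun z => A.linearIsometryEquiv z + A 0 := by
      funext z
      have h4 := A.map_vadd (0 : E3) z
      simp only [vadd_eq_add, add_zero] at h4
      rw [h4]
    rw [h3]
    exact (A.linearIsometryEquiv.toContinuousLinearEquiv.hasFDerivAt (x := f p)).add_const (A 0)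
  have h5 : HasMFDerivAt (𝓡 3) (𝓡 3) (⇑A) (f p)
      (A.linearIsometryEquiv.toContinuousLinearEquiv : E3 →L[ℝ] E3) := h2.hasMFDerivAt
  have h6 := h5.comp p h1.hasMFDerivAt
  have h0 : g =ᶠ[𝓝 p] (⇑A ∘ f) := h
  have h7 := (h6.congr_of_eventuallyEq h0).mfderiv
  change mfderiv (𝓡 2) (𝓡 3) g p v = _
  rw [h7]
  rfl

end LR7

theorem blk_LR7 (hVAL : Stmt_VAL.{w}) : Stmt_LR7.{w} := by
  intro S _ _ _ f g hM B hB q hq
  have h1 : ∀ᶠ p in 𝓝 q, ∀ᶠ p' in 𝓝 p, g p' = B (f p') := eventually_eventually_nhds.2 hq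
  unfold LC
  filter_upwards [h1] with p hp
  have h2 := hVAL S f g hM B hB p q hp.self_of_nhds (fun v => LR7_dvec hM.smf B p hp v)
    hq.self_of_nhds (fun v => LR7_dvec hM.smf B q hq v)
  unfold Mo
  rw [h2.1, h2.2]

end Pool.SXB
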