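import Pool.Agent.Work.MP_02e829_s7.Interface
import Pool.Agent.Work.MP_02e829_sb.B_BAD

/-!
# Block BD7 (MP_02e829_gt): local maxima where the field is normal
-/

open Set Filter Manifold Matrix MeasureTheory Metric
open scoped Topology ContDiff Manifold

set_option autoImplicit false

universe w

namespace Pool.SXB

open Pool.FR (pd ee pd_sub pd_cross diff_at pd_contDiffOn contDiffOn_dot contDiffOn_cross
  eq_const_of_pd)

section BD7

variable {U : Set E2} {F G : E2 → V3}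

/-- the set of the maximal points -/
lemma BD7_stage (hYC : Stmt_YC1) (hGD : Stmt_GD7) (hTOP : Stmt_TOP) (hDL : Stmt_DL7)
    (hP : Pair U F G) (a b : V3) (d : ℝ)
    {x0 x : E2} {r : ℝ} (hU : ball x0 r ⊆ U) (hpos : ∀ z ∈ ball x0 r, PosAt F G z)
    (hx : x ∈ ball x0 r) (M : ℝ) (hne : ∃ z ∈ ball x0 r, l7 F G a b d z = M)
    (hle : ∀ z ∈ ball x0 r, l7 F G a b d z ≤ M)
    (hinj : ∀ z ∈ ball x0 r, A7 F G a b d z ⨯₃ nn F G z = 0 → z = x) :
    ({z | z ∈ ball x0 r ∧ l7 F G a b d z = M} = {x} ∨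
      {z | z ∈ ball x0 r ∧ l7 F G a b d z = M} = ball x0 r) ∧
    ∀ z ∈ ball x0 r, l7 F G a b d z = M → z ≠ x → Rig F G z := by
  have hrig : ∀ z ∈ ball x0 r, l7 F G a b d z = M → z ≠ x → Rig F G z := by
    intro z hz hzM hzx
    refine hGD U F G hP a b d z (hU hz) (hpos z hz) (fun h => hzx (hinj z hz h)) ?_
    filter_upwards [isOpen_ball.mem_nhds hz] with y hy
    rw [hzM]
    exact hle y hy
  refine ⟨hTOP x0 x r _ hx (fun z hz => hz.1) ?_ ?_ ?_, hrig⟩
  · obtain ⟨z, hz1, hz2⟩ := hne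
    exact ⟨z, hz1, hz2⟩
  · intro z hz hcl
    refine ⟨hz, ?_⟩
    exact BAD_cl ((hDL U F G hP a b d).1.continuousOn.continuousAt (hP.op.mem_nhds (hU hz))) hcl
      (fun y hy => hy.2)
  · rintro z ⟨hz, hzM⟩ hzx
    filter_upwards [isOpen_ball.mem_nhds hz, BAD_rc hYC hP (hU hz) (hrig z hz hzM hzx)] with y hy h1
    refine ⟨hy, ?_⟩
    unfold l7 at hzM ⊢
    rw [h1.1, h1.2]
    exact hzM

end BD7

theorem blk_BD7 (hYC : Stmt_YC1) (hGD : Stmt_GD7) (hSD : Stmt_SD7) (hIN : Stmt_IN7)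
    (hTOP : Stmt_TOP) (hDL : Stmt_DL7) : Stmt_BD7 := by
  intro U F G hP a b d x0 hx0 hpos0 L hL hAL hmax
  have hll : ContinuousOn (l7 F G a b d) U := (hDL U F G hP a b d).1.continuousOn
  have hAn : ∀ (t : ℝ) (v : V3), (t • v) ⨯₃ v = 0 := by
    intro t v
    rw [map_smul, LinearMap.smul_apply, cross_self, smul_zero]
  obtain ⟨r1, ρ, hr1, hρ, hr1U, hinj⟩ := hIN U F G hP a b d x0 hx0 hpos0 L hL hAL
  obtain ⟨r2, hr2, hb2⟩ := Metric.eventually_nhds_iff_ball.1 (hmax.and (BAD_pos hP hx0 hpos0))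
  set r := min r1 r2 with hr
  have hr0 : 0 < r := lt_min hr1 hr2
  have hU : ball x0 r ⊆ U := (ball_subset_ball (min_le_left _ _)).trans hr1U
  have hb1 : ball x0 r ⊆ ball x0 r1 := ball_subset_ball (min_le_left _ _)
  have hb2' : ∀ z ∈ ball x0 r, l7 F G a b d z ≤ l7 F G a b d x0 ∧ PosAt F G z := fun z hz =>
    hb2 z (ball_subset_ball (min_le_right _ _) hz)
  have hx0r : x0 ∈ ball x0 r := mem_ball_self hr0
  have hA0 : A7 F G a b d x0 ⨯₃ nn F G x0 = 0 := by
    rw [hAL]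
    exact hAn _ _
  have hS0 := hSD U F G hP a b d x0 hx0 hpos0 L hL hAL hmax
  obtain ⟨hZ, hZr⟩ := BD7_stage hYC hGD hTOP hDL hP a b d hU (fun z hz => (hb2' z hz).2) hx0r
    (l7 F G a b d x0) ⟨x0, hx0r, rfl⟩ (fun z hz => (hb2' z hz).1)
    (fun z hz hz0 => hinj a (by simpa using hρ) z (hb1 hz) x0 (hb1 hx0r) hz0 hA0)
  rcases hZ with hZ | hZ
  swap
  · -- the functional is constant
    show ∀ᶠ z in 𝓝 x0, ∀ i, pd i (yy F G) z = 0
    filter_upwards [ball_mem_nhds x0 hr0] with z hz i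
    by_cases hzx : z = x0
    · rw [hzx]
      exact hS0 i
    · have h1 : z ∈ {z | z ∈ ball x0 r ∧ l7 F G a b d z = l7 F G a b d x0} := by
        rw [hZ]
        exact hz
      have h2 : ∀ᶠ y in 𝓝 z, ∀ i, pd i (yy F G) y = 0 := hZr z hz h1.2 hzx
      exact h2.self_of_nhds i
  -- strict maximum
  have hstrict : ∀ z ∈ ball x0 r, z ≠ x0 → l7 F G a b d z < l7 F G a b d x0 := by
    intro z hz hzx
    refine lt_of_le_of_ne (hb2' z hz).1 fun h => hzx ?_
    have h1 : z ∈ {z | z ∈ ball x0 r ∧ l7 F G a b d z = l7 F G a b d x0} := ⟨hz, h⟩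
    rw [hZ] at h1
    exact h1
  set r' := r / 2 with hr'
  have hr'0 : 0 < r' := by positivity
  have hcb : closedBall x0 r' ⊆ ball x0 r := closedBall_subset_ball (by linarith)
  have hb' : ball x0 r' ⊆ ball x0 r := ball_subset_closedBall.trans hcb
  have hsne : (sphere x0 r').Nonempty := NormedSpace.sphere_nonempty.2 hr'0.le
  have hsc : sphere x0 r' ⊆ closedBall x0 r' := sphere_subset_closedBall
  obtain ⟨s, hs, hsmax⟩ := (isCompact_sphere x0 r').exists_isMaxOn hsne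
    (hll.mono (hsc.trans (hcb.trans hU)))
  have hsx0 : s ≠ x0 := by
    rintro rfl
    rw [mem_sphere, dist_self] at hs
    linarith
  have hμ : l7 F G a b d s < l7 F G a b d x0 := hstrict s (hcb (hsc hs)) hsx0
  -- the Rodrigues vector is bounded
  obtain ⟨hy, -, -⟩ := hYC U F G hP
  obtain ⟨C, hC⟩ := (isCompact_closedBall x0 r').exists_bound_of_continuousOn
    (hy.continuousOn.mono (hcb.trans hU))
  have hC0 : 0 ≤ C := (norm_nonneg _).trans (hC x0 (mem_closedBall_self hr'0.le))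
  -- the correction
  have hnn : ContinuousOn (nn F G) U := (BAD_nn hP).continuousOn
  have hAc : ContinuousOn (A7 F G a b d) U := (hDL U F G hP a b d).2.1.continuousOn
  have hdc : ∀ {f g : E2 → V3}, ContinuousOn f U → ContinuousOn g U →
      ContinuousOn (fun x => f x ⬝ᵥ g x) U := by
    intro f g hf hg
    have h1 : (fun x => f x ⬝ᵥ g x) = fun x => ∑ i, f x i * g x i := rfl
    rw [h1]
    exact continuousOn_finset_sum _ fun i _ =>
      (continuousOn_pi.1 hf i).mul (continuousOn_pi.1 hg i)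
  have hnz : ∀ x ∈ U, nn F G x ⬝ᵥ nn F G x ≠ 0 := fun x hx h =>
    hP.imm x hx (dotProduct_self_eq_zero.1 h)
  set al : E2 → ℝ := fun x => (A7 F G a b d x ⬝ᵥ nn F G x) / (nn F G x ⬝ᵥ nn F G x) with hal
  have halc : ContinuousOn al U := (hdc hAc hnn).div (hdc hnn hnn) hnz
  set T : E2 → V3 := fun x => A7 F G a b d x - al x • nn F G x with hT
  have hTc : ContinuousOn T U := hAc.sub (halc.smul hnn)
  have hal0 : al x0 = L := by
    rw [hal]
    simp only
    rw [hAL, smul_dotProduct, smul_eq_mul, mul_div_assoc, div_self (hnz x0 hx0), mul_one]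
  have hT0 : T x0 = 0 := by
    rw [hT]
    simp only
    rw [hal0, hAL, sub_self]
  have hη : 0 < (l7 F G a b d x0 - l7 F G a b d s) / 4 := by linarith
  set η := (l7 F G a b d x0 - l7 F G a b d s) / 4 with hηdef
  have hδ : 0 < min ρ (η / (3 * (C + 1))) := lt_min hρ (by positivity)
  have hTev : ∀ᶠ x in 𝓝 x0, ‖T x‖ < min ρ (η / (3 * (C + 1))) := by
    have h1 : ContinuousAt T x0 := hTc.continuousAt (hP.op.mem_nhds hx0)
    have h2 : ContinuousAt (fun x => ‖T x‖) x0 := h1.norm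
    have h3 : ‖T x0‖ < min ρ (η / (3 * (C + 1))) := by
      rw [hT0, norm_zero]
      exact hδ
    exact h2.eventually (gt_mem_nhds h3)
  have halev : ∀ᶠ x in 𝓝 x0, al x ≠ 0 := by
    have h1 : ContinuousAt al x0 := halc.continuousAt (hP.op.mem_nhds hx0)
    exact h1.eventually_ne (by rw [hal0]; exact hL)
  show ∀ᶠ z in 𝓝 x0, ∀ i, pd i (yy F G) z = 0
  filter_upwards [hTev, halev, ball_mem_nhds x0 hr'0] with x hx1 hx2 hx3
  have hxr : x ∈ ball x0 r := hb' hx3
  have hTρ : ‖T x‖ < ρ := lt_of_lt_of_le hx1 (min_le_left _ _)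
  have hTη : ‖T x‖ < η / (3 * (C + 1)) := lt_of_lt_of_le hx1 (min_le_right _ _)
  have hAx : A7 F G (a - T x) b d x = al x • nn F G x := by
    have h1 : A7 F G (a - T x) b d x = A7 F G a b d x - T x := by
      unfold A7
      abel
    rw [h1, hT]
    simp
  have hAx0 : A7 F G (a - T x) b d x ⨯₃ nn F G x = 0 := by
    rw [hAx]
    exact hAn _ _
  have hllx : ∀ z, l7 F G (a - T x) b d z = l7 F G a b d z - T x ⬝ᵥ yy F G z := by
    intro z
    unfold l7
    rw [sub_dotProduct]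
    ring
  have hdiff : ∀ z ∈ closedBall x0 r', |T x ⬝ᵥ yy F G z| < η := by
    intro z hz
    have h1 := BAD_dot (T x) (yy F G z)
    have h2 : ‖T x‖ * ‖yy F G z‖ ≤ ‖T x‖ * C := mul_le_mul_of_nonneg_left (hC z hz) (norm_nonneg _)
    have h3 : ‖T x‖ * (3 * (C + 1)) < η := by
      rwa [lt_div_iff₀ (by positivity)] at hTη
    have h4 := norm_nonneg (T x)
    nlinarith
  have hll' : ContinuousOn (l7 F G (a - T x) b d) U := (hDL U F G hP (a - T x) b d).1.continuousOn
  obtain ⟨z1, hz1, hz1max⟩ := (isCompact_closedBall x0 r').exists_isMaxOn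
    ⟨x0, mem_closedBall_self hr'0.le⟩ (hll'.mono (hcb.trans hU))
  have hM1 : l7 F G a b d x0 - η < l7 F G (a - T x) b d z1 := by
    have h1 : l7 F G (a - T x) b d x0 ≤ l7 F G (a - T x) b d z1 :=
      hz1max (mem_closedBall_self hr'0.le)
    have h2 := abs_lt.1 (hdiff x0 (mem_closedBall_self hr'0.le))
    rw [hllx x0] at h1
    linarith [h2.2]
  have hsph : ∀ z ∈ sphere x0 r', l7 F G (a - T x) b d z < l7 F G (a - T x) b d z1 := by
    intro z hz
    have h1 : l7 F G a b d z ≤ l7 F G a b d s := hsmax hz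
    have h2 := abs_lt.1 (hdiff z (hsc hz))
    rw [hllx z]
    have h3 : l7 F G a b d x0 - l7 F G a b d s = 4 * η := by
      rw [hηdef]
      ring
    linarith [h2.1]
  have hz1b : z1 ∈ ball x0 r' := by
    rcases lt_or_eq_of_le (mem_closedBall.1 hz1) with h | h
    · exact h
    · exact absurd (hsph z1 h) (lt_irrefl _)
  obtain ⟨hZ', -⟩ := BD7_stage hYC hGD hTOP hDL hP (a - T x) b d (hb'.trans hU)
    (fun z hz => (hb2' z (hb' hz)).2) hx3 (l7 F G (a - T x) b d z1) ⟨z1, hz1b, rfl⟩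
    (fun z hz => hz1max (ball_subset_closedBall hz))
    (fun z hz hz0 => (hinj (a - T x) (by
      rw [sub_sub_cancel_left, norm_neg]
      exact hTρ) x (hb1 hxr) z (hb1 (hb' hz)) hAx0 hz0).symm)
  rcases hZ' with hZ' | hZ'
  · have h1 : x ∈ {z | z ∈ ball x0 r' ∧ l7 F G (a - T x) b d z = l7 F G (a - T x) b d z1} := by
      rw [hZ']
      rfl
    refine hSD U F G hP (a - T x) b d x (hU hxr) (hb2' x hxr).2 (al x) hx2 hAx ?_
    filter_upwards [isOpen_ball.mem_nhds hx3] with z hz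
    rw [h1.2]
    exact hz1max (ball_subset_closedBall hz)
  · exfalso
    have h2 : s ∈ closure (ball x0 r') := by
      rw [closure_ball x0 hr'0.ne']
      exact hsc hs
    have h3 := BAD_cl (f := l7 F G (a - T x) b d) (M := l7 F G (a - T x) b d z1)
      (hll'.continuousAt (hP.op.mem_nhds (hU (hcb (hsc hs))))) h2 (fun z hz => by
        rw [← hZ'] at hz
        exact hz.2)
    exact absurd h3 (hsph s hs).ne

end Pool.SXB
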