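import Pool.Agent.Work.MP_02e829_s7.Interface

/-!
# Block CV7 (helper79): a point of the hull of a finite set of pairs is in the set
-/

open Set Filter Manifold Matrix MeasureTheory Metric
open scoped Topology ContDiff Manifold

set_option autoImplicit false

namespace Pool.SXB

theorem CV7_dual (f : (V3 × V3 × ℝ) →L[ℝ] ℝ) :
    ∃ (a b : V3) (d : ℝ), ∀ (p q : V3) (r : ℝ), f (p, q, r) = a ⬝ᵥ p + b ⬝ᵥ q + d * r := by
  let g1 : V3 →ₗ[ℝ] ℝ := f.toLinearMap ∘ₗ LinearMap.inl ℝ V3 (V3 × ℝ)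
  let g2 : V3 →ₗ[ℝ] ℝ :=
    f.toLinearMap ∘ₗ LinearMap.inr ℝ V3 (V3 × ℝ) ∘ₗ LinearMap.inl ℝ V3 ℝ
  have h1 : ∀ p : V3, f (p, 0, 0) =
      (fun i : Fin 3 => g1 fun j => if i = j then 1 else 0) ⬝ᵥ p := by
    intro p
    have h := LinearMap.pi_apply_eq_sum_univ g1 p
    have h' : g1 p = f (p, 0, 0) := rfl
    rw [← h', h, dotProduct]
    exact Finset.sum_congr rfl fun i _ => by rw [smul_eq_mul, mul_comm]
  have h2 : ∀ q : V3, f (0, q, 0) =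
      (fun i : Fin 3 => g2 fun j => if i = j then 1 else 0) ⬝ᵥ q := by
    intro q
    have h := LinearMap.pi_apply_eq_sum_univ g2 q
    have h' : g2 q = f (0, q, 0) := rfl
    rw [← h', h, dotProduct]
    exact Finset.sum_congr rfl fun i _ => by rw [smul_eq_mul, mul_comm]
  refine ⟨fun i : Fin 3 => g1 fun j => if i = j then 1 else 0,
    fun i : Fin 3 => g2 fun j => if i = j then 1 else 0, f (0, 0, 1), fun p q r => ?_⟩
  rw [← h1 p, ← h2 q]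
  have h3 : ((p, q, r) : V3 × V3 × ℝ) = (p, 0, 0) + (0, q, 0) + r • (0, 0, 1) := by
    ext <;> simp
  rw [h3, map_add, map_add, map_smul, smul_eq_mul]
  ring

theorem CV7_id {E : Type} (F : Finset E) (w : E → ℝ) (A B : E → V3) (hw : ∑ z ∈ F, w z = 1) :
    ∑ z ∈ F, ∑ z' ∈ F, w z * w z' * ((A z - A z') ⬝ᵥ (B z - B z')) =
      2 * (∑ z ∈ F, w z * (A z ⬝ᵥ B z) - (∑ z ∈ F, w z • A z) ⬝ᵥ (∑ z ∈ F, w z • B z)) := by
  have e0 : ∀ z z', w z * w z' * ((A z - A z') ⬝ᵥ (B z - B z')) =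
      w z' * (w z * (A z ⬝ᵥ B z)) + w z * (w z' * (A z' ⬝ᵥ B z')) -
        w z * w z' * (A z ⬝ᵥ B z') - w z' * w z * (A z' ⬝ᵥ B z) := by
    intro z z'
    rw [sub_dotProduct, dotProduct_sub, dotProduct_sub]
    ring
  have e1 : ∑ z ∈ F, ∑ z' ∈ F, w z' * (w z * (A z ⬝ᵥ B z)) = ∑ z ∈ F, w z * (A z ⬝ᵥ B z) := by
    refine Finset.sum_congr rfl fun z _ => ?_
    rw [← Finset.sum_mul, hw, one_mul]
  have e2 : ∑ z ∈ F, ∑ z' ∈ F, w z * (w z' * (A z' ⬝ᵥ B z')) =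
      ∑ z ∈ F, w z * (A z ⬝ᵥ B z) := by
    rw [Finset.sum_comm]
    exact e1
  have e3 : ∑ z ∈ F, ∑ z' ∈ F, w z * w z' * (A z ⬝ᵥ B z') =
      (∑ z ∈ F, w z • A z) ⬝ᵥ (∑ z ∈ F, w z • B z) := by
    rw [sum_dotProduct]
    refine Finset.sum_congr rfl fun z _ => ?_
    rw [dotProduct_sum]
    refine Finset.sum_congr rfl fun z' _ => ?_
    rw [smul_dotProduct, dotProduct_smul, smul_eq_mul, smul_eq_mul]
    ring
  have e4 : ∑ z ∈ F, ∑ z' ∈ F, w z' * w z * (A z' ⬝ᵥ B z) =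
      (∑ z ∈ F, w z • A z) ⬝ᵥ (∑ z ∈ F, w z • B z) := by
    rw [Finset.sum_comm]
    exact e3
  simp only [e0, Finset.sum_sub_distrib, Finset.sum_add_distrib]
  rw [e1, e2, e3, e4]
  ring

theorem blk_CV7 : Stmt_CV7 := by
  intro Q ε hQ hpos X hX
  obtain ⟨Ψ, hΨ⟩ : ∃ Ψ : V3 × V3 → V3 × V3 × ℝ, Ψ = fun P => (P.1, P.2, P.1 ⬝ᵥ P.2) := ⟨_, rfl⟩
  have hfin : (Ψ '' Q).Finite := hQ.image Ψ
  have hmem : Ψ X ∈ convexHull ℝ (Ψ '' Q) := by
    by_contra hcon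
    obtain ⟨f, u, hf1, hf2⟩ := geometric_hahn_banach_closed_point (convex_convexHull ℝ (Ψ '' Q))
      (hfin.isClosed_convexHull ℝ) hcon
    obtain ⟨a, b, d, hd⟩ := CV7_dual f
    obtain ⟨P, hP, hle⟩ := hX a b d
    have h1 : f (Ψ P) < u := hf1 _ (subset_convexHull ℝ _ (mem_image_of_mem Ψ hP))
    have h2 : ∀ R : V3 × V3, f (Ψ R) = LP a b d R := by
      intro R
      rw [hΨ]
      exact hd R.1 R.2 (R.1 ⬝ᵥ R.2)
    rw [h2] at h1 hf2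
    linarith
  rw [hfin.convexHull_eq] at hmem
  obtain ⟨w, hw0, hw1, hwc⟩ := hmem
  rw [Finset.centerMass_eq_of_sum_1 _ _ hw1] at hwc
  obtain ⟨F, hF⟩ : ∃ F : Finset (V3 × V3 × ℝ), F = hfin.toFinset := ⟨_, rfl⟩
  rw [← hF] at hw1 hwc
  have hFm : ∀ z, z ∈ F ↔ z ∈ Ψ '' Q := fun z => by rw [hF]; exact hfin.mem_toFinset
  have hz3 : ∀ z ∈ F, z.2.2 = z.1 ⬝ᵥ z.2.1 := by
    intro z hz
    obtain ⟨P, -, rfl⟩ := (hFm z).1 hz
    rw [hΨ]
  have c1 : ∑ z ∈ F, w z • z.1 = X.1 := by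
    have h := congrArg Prod.fst hwc
    rw [Prod.fst_sum] at h
    rw [hΨ] at h
    exact h
  have c2 : ∑ z ∈ F, w z • z.2.1 = X.2 := by
    have h := congrArg (fun t => t.2.1) hwc
    simp only [Prod.snd_sum, Prod.fst_sum] at h
    rw [hΨ] at h
    exact h
  have c3 : ∑ z ∈ F, w z * (z.1 ⬝ᵥ z.2.1) = X.1 ⬝ᵥ X.2 := by
    have h := congrArg (fun t => t.2.2) hwc
    simp only [Prod.snd_sum] at h
    rw [hΨ] at h
    have h' : ∑ z ∈ F, w z * z.2.2 = X.1 ⬝ᵥ X.2 := h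
    rw [← h']
    exact Finset.sum_congr rfl fun z hz => by rw [hz3 z hz]
  have key := CV7_id F w (fun z => z.1) (fun z => z.2.1) hw1
  rw [c1, c2, c3, sub_self, mul_zero] at key
  -- all terms have the same sign
  have hterm : ∀ z ∈ F, ∀ z' ∈ F,
      0 ≤ ε * (w z * w z' * ((z.1 - z'.1) ⬝ᵥ (z.2.1 - z'.2.1))) := by
    intro z hz z' hz'
    by_cases hzz : z = z'
    · subst hzz
      simp
    · obtain ⟨P, hP, rfl⟩ := (hFm z).1 hz
      obtain ⟨P', hP', rfl⟩ := (hFm z').1 hz'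
      have hne : P ≠ P' := fun h => hzz (by rw [h])
      have h1 := hpos P hP P' hP' hne
      have h2 : 0 ≤ w (Ψ P) * w (Ψ P') :=
        mul_nonneg (hw0 _ ((hFm _).1 hz)) (hw0 _ ((hFm _).1 hz'))
      have h3 : ε * (w (Ψ P) * w (Ψ P') * (((Ψ P).1 - (Ψ P').1) ⬝ᵥ ((Ψ P).2.1 - (Ψ P').2.1))) =
          (w (Ψ P) * w (Ψ P')) * (ε * ((P.1 - P'.1) ⬝ᵥ (P.2 - P'.2))) := by
        have e1 : (Ψ P).1 = P.1 := by rw [hΨ]
        have e2 : (Ψ P').1 = P'.1 := by rw [hΨ]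
        have e3 : (Ψ P).2.1 = P.2 := by rw [hΨ]
        have e4 : (Ψ P').2.1 = P'.2 := by rw [hΨ]
        rw [e1, e2, e3, e4]
        ring
      rw [h3]
      exact mul_nonneg h2 h1.le
  have hsum : ∑ z ∈ F, ∑ z' ∈ F,
      ε * (w z * w z' * ((z.1 - z'.1) ⬝ᵥ (z.2.1 - z'.2.1))) = 0 := by
    have h := congrArg (fun t => ε * t) key
    simp only [mul_zero, Finset.mul_sum] at h
    exact h
  have hzero : ∀ z ∈ F, ∀ z' ∈ F,
      ε * (w z * w z' * ((z.1 - z'.1) ⬝ᵥ (z.2.1 - z'.2.1))) = 0 := by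
    intro z hz z' hz'
    have h1 := (Finset.sum_eq_zero_iff_of_nonneg fun z hz =>
      Finset.sum_nonneg fun z' hz' => hterm z hz z' hz').1 hsum z hz
    exact (Finset.sum_eq_zero_iff_of_nonneg fun z' hz' => hterm z hz z' hz').1 h1 z' hz'
  -- a point with nonzero weight
  obtain ⟨z0, hz0, hw0'⟩ : ∃ z0 ∈ F, w z0 ≠ 0 := by
    by_contra hcon
    push Not at hcon
    rw [Finset.sum_eq_zero hcon] at hw1
    exact zero_ne_one hw1
  have hother : ∀ z ∈ F, z ≠ z0 → w z = 0 := by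
    intro z hz hne
    obtain ⟨P, hP, rfl⟩ := (hFm z).1 hz
    obtain ⟨P', hP', rfl⟩ := (hFm z0).1 hz0
    have hPP : P ≠ P' := fun h => hne (by rw [h])
    have h1 := hpos P hP P' hP' hPP
    have h2 := hzero _ hz _ hz0
    have e1 : (Ψ P).1 = P.1 := by rw [hΨ]
    have e2 : (Ψ P').1 = P'.1 := by rw [hΨ]
    have e3 : (Ψ P).2.1 = P.2 := by rw [hΨ]
    have e4 : (Ψ P').2.1 = P'.2 := by rw [hΨ]
    rw [e1, e2, e3, e4] at h2
    by_contra hcon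
    have h3 : w (Ψ P) * w (Ψ P') * (ε * ((P.1 - P'.1) ⬝ᵥ (P.2 - P'.2))) = 0 := by
      rw [← h2]
      ring
    exact (mul_ne_zero (mul_ne_zero hcon hw0') h1.ne') h3
  have hone : w z0 = 1 := by
    rw [← hw1]
    exact (Finset.sum_eq_single_of_mem z0 hz0 fun z hz hne => hother z hz hne).symm
  have hX0 : Ψ X = z0 := by
    rw [← hwc]
    rw [Finset.sum_eq_single_of_mem z0 hz0 fun z hz hne => by rw [hother z hz hne, zero_smul]]
    rw [hone, one_smul]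
    rfl
  obtain ⟨P, hP, hPz⟩ := (hFm z0).1 hz0
  rw [← hPz, hΨ] at hX0
  have e0 : ((X.1, X.2, X.1 ⬝ᵥ X.2) : V3 × V3 × ℝ) = (P.1, P.2, P.1 ⬝ᵥ P.2) := hX0
  have e1 : X.1 = P.1 := congrArg (fun t : V3 × V3 × ℝ => t.1) e0
  have e2 : X.2 = P.2 := congrArg (fun t : V3 × V3 × ℝ => t.2.1) e0
  have : X = P := Prod.ext e1 e2
  rw [this]
  exact hP

end Pool.SXB
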