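import Pool.Agent.Work.MP_02e829_s7.Interface
import Pool.Agent.Work.MP_02e829_sb.B_VAL

/-! # Block CY7: Cayley data of a rigidly moving point -/

open Set Filter Manifold Matrix MeasureTheory Metric
open scoped Topology ContDiff Manifold

set_option autoImplicit false

universe w

namespace Pool.SXB

open Pool.FR (pd ee)

theorem blk_CY7 (hGLB : Stmt_GLB.{w}) : Stmt_CY7.{w} := by
  intro S _ _ _ f g h B hB q h0 hd z
  have h1 := VAL_all hGLB h hB hd z
  have h2 := VAL_W hGLB h hB h0 hd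
  show L3 (B z) - L3 z = Yg f g q ⨯₃ (L3 (B z) + L3 z) + (2 : ℝ) • Wg f g q
  rw [h2, VAL_affine B z]
  simp only [map_add] at h1 ⊢
  have h3 : L3 (B.linearIsometryEquiv z) = L3 z + (Yg f g q ⨯₃ L3 (B.linearIsometryEquiv z) +
      Yg f g q ⨯₃ L3 z) := by
    rw [← h1]
    abel
  have h4 : L3 (B.linearIsometryEquiv z) + L3 (B 0) - L3 z -
      (Yg f g q ⨯₃ L3 (B.linearIsometryEquiv z) + Yg f g q ⨯₃ L3 (B 0) + Yg f g q ⨯₃ L3 z +
        (L3 (B 0) - Yg f g q ⨯₃ L3 (B 0))) =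
      L3 (B.linearIsometryEquiv z) - (L3 z + (Yg f g q ⨯₃ L3 (B.linearIsometryEquiv z) +
      Yg f g q ⨯₃ L3 z)) := by abel
  refine sub_eq_zero.1 ?_
  rw [h4]
  exact sub_eq_zero.2 h3

end Pool.SXB
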