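import Pool.Agent.Work.MP_02e829_s7.Interface

/-!
# Block DL7 (MP_02e829_gt): the derivatives of the functional and of its field
-/

open Set Filter Manifold Matrix MeasureTheory Metric
open scoped Topology ContDiff Manifold

set_option autoImplicit false

namespace Pool.SXB

open Pool.FR (pd ee)

theorem DL7_alg1 (a b m y v z : V3) (c : ℝ) :
    a ⬝ᵥ y + b ⬝ᵥ (m ⨯₃ y) + c * (y ⬝ᵥ (v - z ⨯₃ m) + z ⬝ᵥ (m ⨯₃ y)) =
      (a + b ⨯₃ m + c • v) ⬝ᵥ y := by
  simp only [cross_apply, dotProduct, Fin.sum_univ_three, Pi.add_apply, Pi.sub_apply,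
    Pi.smul_apply, smul_eq_mul, Matrix.cons_val_zero, Matrix.cons_val_one, Matrix.cons_val]
  ring

theorem DL7_alg2 (a b m y v : V3) (d : ℝ) :
    (a + b ⨯₃ m + d • v) ⬝ᵥ (b + d • y) =
      a ⬝ᵥ b + d * (a ⬝ᵥ y + b ⬝ᵥ (v - y ⨯₃ m) + d * (y ⬝ᵥ (v - y ⨯₃ m))) := by
  simp only [cross_apply, dotProduct, Fin.sum_univ_three, Pi.add_apply, Pi.sub_apply,
    Pi.smul_apply, smul_eq_mul, Matrix.cons_val_zero, Matrix.cons_val_one, Matrix.cons_val]
  ring

theorem DL7_alg3 (b y p : V3) (d : ℝ) :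
    b ⨯₃ p + d • (y ⨯₃ p) = (b + d • y) ⨯₃ p := by
  ext i
  simp only [cross_apply, Pi.add_apply, Pi.smul_apply, smul_eq_mul]
  fin_cases i <;> simp <;> ring

theorem DL7_pd_dot_const (i : Fin 2) (c : V3) {f : E2 → V3} {x : E2}
    (hf : DifferentiableAt ℝ f x) : pd i (fun z => c ⬝ᵥ f z) x = c ⬝ᵥ pd i f x := by
  rw [Pool.FR.pd_dot i (differentiableAt_const c) hf, Pool.FR.pd_const, zero_dotProduct, zero_add]

theorem blk_DL7 (hYC1 : Stmt_YC1) (hDIF : Stmt_DIF) : Stmt_DL7 := by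
  intro U F G hP a b d
  obtain ⟨hy1, hw1, hv1⟩ := hYC1 U F G hP
  have hU := hP.op
  have hmm : ContDiffOn ℝ 2 (mm F G) U := (hP.smF.add hP.smG).const_smul (1 / 2 : ℝ)
  have hvv : ContDiffOn ℝ 2 (vv F G) U := (hP.smG.sub hP.smF).const_smul (1 / 2 : ℝ)
  have hay : ContDiffOn ℝ 1 (fun z => a ⬝ᵥ yy F G z) U :=
    Pool.FR.contDiffOn_dot contDiffOn_const hy1
  have hbw : ContDiffOn ℝ 1 (fun z => b ⬝ᵥ ww F G z) U :=
    Pool.FR.contDiffOn_dot contDiffOn_const hw1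
  have hyw : ContDiffOn ℝ 1 (fun z => yy F G z ⬝ᵥ ww F G z) U := Pool.FR.contDiffOn_dot hy1 hw1
  have hdyw : ContDiffOn ℝ 1 (fun z => d * (yy F G z ⬝ᵥ ww F G z)) U := contDiffOn_const.mul hyw
  have hbm : ContDiffOn ℝ 2 (fun z => b ⨯₃ mm F G z) U :=
    Pool.FR.contDiffOn_cross contDiffOn_const hmm
  refine ⟨(hay.add hbw).add hdyw, (contDiffOn_const.add hbm).add (hvv.const_smul d), ?_⟩
  intro x hx
  have dy : DifferentiableAt ℝ (yy F G) x := Pool.FR.diff_at hU hy1 le_rfl hx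
  have dw : DifferentiableAt ℝ (ww F G) x := Pool.FR.diff_at hU hw1 le_rfl hx
  have dm : DifferentiableAt ℝ (mm F G) x := Pool.FR.diff_at hU hmm (by norm_num) hx
  have dv : DifferentiableAt ℝ (vv F G) x := Pool.FR.diff_at hU hvv (by norm_num) hx
  obtain ⟨-, -, -, hpw⟩ := hDIF U F G hP x hx
  refine ⟨fun i => ?_, fun i => ?_, ?_⟩
  · have h1 : pd i (l7 F G a b d) x = pd i (fun z => a ⬝ᵥ yy F G z) x +
        pd i (fun z => b ⬝ᵥ ww F G z) x + pd i (fun z => d * (yy F G z ⬝ᵥ ww F G z)) x := by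
      rw [← Pool.FR.pd_add i (Pool.FR.diff_at hU hay le_rfl hx)
        (Pool.FR.diff_at hU hbw le_rfl hx)]
      exact Pool.FR.pd_add i (Pool.FR.diff_at hU (hay.add hbw) le_rfl hx)
        (Pool.FR.diff_at hU hdyw le_rfl hx)
    have h2 : pd i (fun z => d * (yy F G z ⬝ᵥ ww F G z)) x =
        d * pd i (fun z => yy F G z ⬝ᵥ ww F G z) x := by
      rw [Pool.FR.pd_mul i (differentiableAt_const d) (Pool.FR.diff_at hU hyw le_rfl hx),
        Pool.FR.pd_const]
      ring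
    rw [h1, h2, DL7_pd_dot_const i a dy, DL7_pd_dot_const i b dw, Pool.FR.pd_dot i dy dw, hpw i]
    exact DL7_alg1 a b (mm F G x) (pd i (yy F G) x) (vv F G x) (yy F G x) d
  · have h1 : pd i (A7 F G a b d) x = pd i (fun z => a + b ⨯₃ mm F G z) x +
        pd i (fun z => d • vv F G z) x :=
      Pool.FR.pd_add i (Pool.FR.diff_at hU (contDiffOn_const.add hbm) (by norm_num) hx)
        (dv.const_smul d)
    have h2 : pd i (fun z => a + b ⨯₃ mm F G z) x = b ⨯₃ pd i (mm F G) x := by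
      rw [Pool.FR.pd_add i (differentiableAt_const a) (Pool.FR.diff_at hU hbm (by norm_num) hx),
        Pool.FR.pd_const, zero_add, Pool.FR.pd_cross i (differentiableAt_const b) dm,
        Pool.FR.pd_const]
      simp
    have h3 : pd i (fun z => d • vv F G z) x = d • pd i (vv F G) x := by
      rw [Pool.FR.pd_smul i (differentiableAt_const d) dv, Pool.FR.pd_const]
      simp
    rw [h1, h2, h3, hv1 x hx i]
    exact DL7_alg3 b (yy F G x) (pd i (mm F G) x) d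
  · exact DL7_alg2 a b (mm F G x) (yy F G x) (vv F G x) d

end Pool.SXB
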