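import Pool.Agent.Work.MP_02e829_s7.Interface
import Pool.Agent.Work.MP_02e829_sb.B_GOD7

/-!
# Block GD7 (MP_02e829_gt): a local maximum of a functional with the Klein form

The functionals `lc` of `B_GOD7.lean` (helper75) are the functionals `l7`.
-/

set_option autoImplicit false

universe w

namespace Pool.SXB

theorem blk_GD7 (hYC1 : Stmt_YC1) (hDIF : Stmt_DIF) (hMIX : Stmt_MIX) (hBND : Stmt_BND)
    (hSMP : Stmt_SMP) (_hDL7 : Stmt_DL7) : Stmt_GD7 :=
  blk_GOD7 hYC1 hDIF hMIX hBND hSMP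

end Pool.SXB
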