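import Pool.Agent.Work.MP_02e829_s7.Interface

/-! # Seven rigid pieces, block HY7: seven points of a space of dimension seven are in a hyperplane -/

open Set Filter Manifold Matrix MeasureTheory Metric
open scoped Topology ContDiff Manifold

set_option autoImplicit false

universe w

namespace Pool.SXB

/-- the linear map -/
noncomputable def HY7_map (Φ : Fin 7 → V3 × V3) : (V3 × V3 × ℝ × ℝ) →ₗ[ℝ] (Fin 7 → ℝ) where
  toFun z := fun i => z.1 ⬝ᵥ (Φ i).1 + z.2.1 ⬝ᵥ (Φ i).2 + z.2.2.1 * ((Φ i).1 ⬝ᵥ (Φ i).2) - z.2.2.2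
  map_add' z z' := by
    funext i
    simp only [Prod.fst_add, Prod.snd_add, add_dotProduct, Pi.add_apply]
    ring
  map_smul' c z := by
    funext i
    simp only [Prod.smul_fst, Prod.smul_snd, smul_dotProduct, Pi.smul_apply, smul_eq_mul,
      RingHom.id_apply]
    ring

theorem blk_HY7 : Stmt_HY7 := by
  intro Φ
  have h1 : LinearMap.ker (HY7_map Φ) ≠ ⊥ := by
    apply LinearMap.ker_ne_bot_of_finrank_lt
    simp
  obtain ⟨z, hz, hz0⟩ := Submodule.exists_mem_ne_zero_of_ne_bot h1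
  have h2 : ∀ i, z.1 ⬝ᵥ (Φ i).1 + z.2.1 ⬝ᵥ (Φ i).2 + z.2.2.1 * ((Φ i).1 ⬝ᵥ (Φ i).2) = z.2.2.2 := by
    intro i
    have h3 := congrFun (LinearMap.mem_ker.1 hz) i
    have h4 : z.1 ⬝ᵥ (Φ i).1 + z.2.1 ⬝ᵥ (Φ i).2 + z.2.2.1 * ((Φ i).1 ⬝ᵥ (Φ i).2) - z.2.2.2 = 0 := h3
    linarith
  refine ⟨z.1, z.2.1, z.2.2.1, z.2.2.2, ?_, h2⟩
  rintro ⟨ha, hb, hd⟩
  apply hz0
  have h5 := h2 0
  rw [ha, hb, hd, zero_dotProduct, zero_dotProduct, add_zero, zero_mul, add_zero] at h5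
  exact Prod.ext ha (Prod.ext hb (Prod.ext hd h5.symm))

end Pool.SXB
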