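import Pool.Agent.Work.MP_02e829_s7.Interface
import Pool.Agent.Work.MP_02e829_sb.B_INJ

/-! # Block IN7: the points where the field is normal are isolated
(adapted from the block INJ of helper94) -/

open Set Filter Manifold Matrix MeasureTheory Metric
open scoped Topology ContDiff Manifold

set_option autoImplicit false

universe w

namespace Pool.SXB

open Pool.FR (pd ee)

theorem IN7_split (F G : E2 → V3) (a b : V3) (d : ℝ) (x : E2) :
    A7 F G a b d x = a + A7 F G 0 b d x := by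
  unfold A7
  rw [zero_add, add_assoc]

theorem blk_IN7 (_hYC1 : Stmt_YC1) (_hDIF : Stmt_DIF) (hDL7 : Stmt_DL7) : Stmt_IN7 := by
  intro U F G hP a b d x0 hx0 hpos L hL hA
  set m := mm F G with hm
  have cm : ContDiffOn ℝ 2 m U := (hP.smF.add hP.smG).const_smul (1 / 2 : ℝ)
  have cmi : ∀ i, ContDiffOn ℝ 1 (pd i m) U := fun i =>
    Pool.FR.pd_contDiffOn hP.op cm (by norm_num) i
  have dm : ∀ x ∈ U, DifferentiableAt ℝ m x := fun x hx =>
    Pool.FR.diff_at hP.op cm (by norm_num) hx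
  have dmi : ∀ i, ∀ x ∈ U, DifferentiableAt ℝ (pd i m) x := fun i x hx =>
    Pool.FR.diff_at hP.op (cmi i) le_rfl hx
  have hUn : U ∈ 𝓝 x0 := hP.op.mem_nhds hx0
  -- the functions
  set Ψ : Fin 2 → V3 × E2 → ℝ := fun i p => A7 F G p.1 b d p.2 ⬝ᵥ pd i m p.2 with hΨ
  have cΨ : ∀ i, ContDiffAt ℝ 1 (Ψ i) (a, x0) := by
    intro i
    have c1 : ContDiffAt ℝ 1 (fun p : V3 × E2 => pd i m p.2) (a, x0) :=
      ((cmi i x0 hx0).contDiffAt hUn).comp (a, x0) contDiffAt_snd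
    have cb : ContDiffOn ℝ 1 (fun x => A7 F G 0 b d x ⬝ᵥ pd i m x) U :=
      Pool.FR.contDiffOn_dot ((hDL7 U F G hP 0 b d).2.1.of_le (by norm_num)) (cmi i)
    have c2 : ContDiffAt ℝ 1 (fun p : V3 × E2 => A7 F G 0 b d p.2 ⬝ᵥ pd i m p.2) (a, x0) :=
      ContDiffAt.comp (g := fun x => A7 F G 0 b d x ⬝ᵥ pd i m x) (a, x0)
        ((cb x0 hx0).contDiffAt hUn) contDiffAt_snd
    have c3 : ContDiffAt ℝ 1 (fun p : V3 × E2 => p.1 ⬝ᵥ pd i m p.2) (a, x0) := by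
      have e : (fun p : V3 × E2 => p.1 ⬝ᵥ pd i m p.2) =
          fun p => ∑ k, p.1 k * pd i m p.2 k := rfl
      rw [e]
      apply ContDiffAt.sum
      intro k _
      apply ContDiffAt.mul
      · exact (contDiffAt_pi.1 contDiffAt_fst) k
      · exact (contDiffAt_pi.1 c1) k
    have e : Ψ i = fun p => p.1 ⬝ᵥ pd i m p.2 + A7 F G 0 b d p.2 ⬝ᵥ pd i m p.2 := by
      funext p
      simp only [hΨ]
      rw [IN7_split, add_dotProduct]
    rw [e]
    exact c3.add c2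
  have sΨ : ∀ i, HasStrictFDerivAt (Ψ i) (fderiv ℝ (Ψ i) (a, x0)) (a, x0) := fun i =>
    (cΨ i).hasStrictFDerivAt one_ne_zero
  set Θ : V3 × E2 → V3 × (ℝ × ℝ) := fun p => (p.1, (Ψ 0 p, Ψ 1 p)) with hΘ
  have sΘ : HasStrictFDerivAt Θ ((ContinuousLinearMap.fst ℝ V3 E2).prod
      ((fderiv ℝ (Ψ 0) (a, x0)).prod (fderiv ℝ (Ψ 1) (a, x0)))) (a, x0) :=
    hasStrictFDerivAt_fst.prodMk ((sΨ 0).prodMk (sΨ 1))
  -- the partial derivatives of `Ψ i (a, .)`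
  set g : Fin 2 → E2 → ℝ := fun i x => A7 F G a b d x ⬝ᵥ pd i m x with hg
  have hgd : ∀ i w, fderiv ℝ (Ψ i) (a, x0) (0, w) = fderiv ℝ (g i) x0 w := by
    intro i w
    have h1 : HasFDerivAt (g i) ((fderiv ℝ (Ψ i) (a, x0)).comp (ContinuousLinearMap.inr ℝ V3 E2))
        x0 := by
      have h2 := (sΨ i).hasFDerivAt
      exact h2.comp x0 (hasFDerivAt_prodMk_right a x0)
    rw [h1.fderiv]
    rfl
  have dA : DifferentiableAt ℝ (fun x => A7 F G a b d x) x0 :=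
    Pool.FR.diff_at hP.op (hDL7 U F G hP a b d).2.1 (by norm_num) hx0
  obtain ⟨β, hβ⟩ : ∃ β : V3, β = b + d • yy F G x0 := ⟨_, rfl⟩
  have pA : ∀ j, pd j (fun x => A7 F G a b d x) x0 = β ⨯₃ pd j m x0 := by
    intro j
    rw [hβ]
    exact ((hDL7 U F G hP a b d).2.2 x0 hx0).2.1 j
  have pg : ∀ i j, pd j (g i) x0 = (β ⨯₃ pd j m x0) ⬝ᵥ pd i m x0 + L * ss F G j i x0 := by
    intro i j
    rw [hg]
    simp only
    rw [Pool.FR.pd_dot j dA (dmi i x0 hx0), pA, hA, smul_dotProduct, smul_eq_mul,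
      dotProduct_comm (nn F G x0)]
    rfl
  have hsym : ss F G 1 0 x0 = ss F G 0 1 x0 := by
    unfold ss
    rw [Pool.FR.pd_comm hP.op cm le_rfl 1 0 hx0]
  have z0 : (β ⨯₃ pd 0 m x0) ⬝ᵥ pd 0 m x0 = 0 := by
    rw [dotProduct_comm]
    exact dot_cross_self _ _
  have z1 : (β ⨯₃ pd 1 m x0) ⬝ᵥ pd 1 m x0 = 0 := by
    rw [dotProduct_comm]
    exact dot_cross_self _ _
  have z2 : (β ⨯₃ pd 1 m x0) ⬝ᵥ pd 0 m x0 = - ((β ⨯₃ pd 0 m x0) ⬝ᵥ pd 1 m x0) := by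
    rw [cross_apply, cross_apply, vec3_dotProduct, vec3_dotProduct]
    simp
    ring
  have hinj : ∀ v, ((ContinuousLinearMap.fst ℝ V3 E2).prod
      ((fderiv ℝ (Ψ 0) (a, x0)).prod (fderiv ℝ (Ψ 1) (a, x0)))) v = 0 → v = 0 := by
    rintro ⟨v, w⟩ hv
    have hv0 : v = 0 := congrArg Prod.fst hv
    subst hv0
    have h0 : fderiv ℝ (Ψ 0) (a, x0) (0, w) = 0 := congrArg (fun t => t.2.1) hv
    have h1 : fderiv ℝ (Ψ 1) (a, x0) (0, w) = 0 := congrArg (fun t => t.2.2) hv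
    rw [hgd, INJ_expand, pg, pg] at h0 h1
    rw [z0, z2, hsym] at h0
    rw [z1] at h1
    unfold PosAt at hpos
    have hdet : (0 + L * ss F G 0 0 x0) * (0 + L * ss F G 1 1 x0) -
        (-((β ⨯₃ pd 0 m x0) ⬝ᵥ pd 1 m x0) + L * ss F G 0 1 x0) *
          ((β ⨯₃ pd 0 m x0) ⬝ᵥ pd 1 m x0 + L * ss F G 0 1 x0) ≠ 0 := by
      apply ne_of_gt
      have hL2 : 0 < L ^ 2 := by positivity
      have := mul_pos hL2 hpos
      nlinarith [sq_nonneg ((β ⨯₃ pd 0 m x0) ⬝ᵥ pd 1 m x0)]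
    obtain ⟨e0, e1⟩ := INJ_lin hdet h0 h1
    have hw : w = 0 := by
      ext k
      fin_cases k
      · exact e0
      · exact e1
    rw [hw]
    rfl
  obtain ⟨s, hs, hinjs⟩ := INJ_injOn sΘ hinj
  obtain ⟨ε, hε, hεs⟩ := Metric.mem_nhds_iff.1 hs
  obtain ⟨δ, hδ, hδU⟩ := Metric.mem_nhds_iff.1 hUn
  refine ⟨min ε δ, ε, lt_min hε hδ, hε, (ball_subset_ball (min_le_right _ _)).trans hδU, ?_⟩
  intro a' ha' x hx x' hx' hn hn'
  have hxU : x ∈ U := hδU (ball_subset_ball (min_le_right _ _) hx)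
  have hxU' : x' ∈ U := hδU (ball_subset_ball (min_le_right _ _) hx')
  have key : ∀ z ∈ U, A7 F G a' b d z ⨯₃ nn F G z = 0 → ∀ i, Ψ i (a', z) = 0 := by
    intro z hz hzn i
    simp only [hΨ]
    refine INJ_dot hzn ?_ (hP.imm z hz)
    unfold nn
    fin_cases i
    · exact dot_self_cross _ _
    · exact dot_cross_self _ _
  have hmem : ∀ z ∈ ball x0 (min ε δ), (a', z) ∈ s := by
    intro z hz
    apply hεs
    rw [← ball_prod_same]
    refine ⟨?_, ball_subset_ball (min_le_left _ _) hz⟩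
    rw [mem_ball, dist_eq_norm]
    exact ha'
  have e : Θ (a', x) = Θ (a', x') := by
    simp only [hΘ]
    rw [key x hxU hn, key x hxU hn, key x' hxU' hn', key x' hxU' hn']
  have := hinjs (hmem x hx) (hmem x' hx') e
  exact congrArg Prod.snd this

end Pool.SXB
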