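import Pool.Agent.Work.MP_02e829_s7.Interface
import Pool.Agent.Work.MP_02e829_sb.B_KIL

set_option autoImplicit false

/-! # Seven bodies: block KL7 (constant functionals) -/

open Set Filter Manifold Matrix MeasureTheory Metric
open scoped Topology ContDiff Manifold

namespace Pool.SXB

open Pool.FR (pd ee)

theorem KL7_pt (hYC1 : Stmt_YC1) (hDIF : Stmt_DIF) (hMIX : Stmt_MIX) (hDL : Stmt_DL7)
    {U : Set E2} {F G : E2 → V3} (h : Pair U F G) {a b : V3} {d c : ℝ}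
    (hab : ¬ (a = 0 ∧ b = 0 ∧ d = 0)) {z : E2} (hz : z ∈ U)
    (hP : PosAt F G z) (hl : ∀ᶠ x in 𝓝 z, l7 F G a b d x = c) : ∀ i, pd i (yy F G) z = 0 := by
  have hDz := hDIF U F G h z hz
  obtain ⟨-, hA2, hDL'⟩ := hDL U F G h a b d
  by_contra hne
  -- the determinant of `k` is not zero at `z`
  have hD : kk F G 0 1 z ^ 2 - kk F G 0 0 z * kk F G 1 1 z ≠ 0 := by
    intro h0
    obtain ⟨k0, k1, k2⟩ := KIL_alg4 _ _ _ _ _ _ hP
      (by
        have h1 := (hMIX U F G h z hz).2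
        exact h1) h0
    apply hne
    intro i
    fin_cases i
    · change pd 0 (yy F G) z = 0
      rw [hDz.1, k0, k1, zero_smul, zero_smul, sub_zero]
    · change pd 1 (yy F G) z = 0
      rw [hDz.2.1, k1, k2, zero_smul, zero_smul, sub_zero]
  have hUz : U ∈ 𝓝 z := h.op.mem_nhds hz
  have hDc : ContinuousAt (fun x => kk F G 0 1 x ^ 2 - kk F G 0 0 x * kk F G 1 1 x) z := by
    have c01 := (KIL_kk hYC1 h 0 1).continuousAt hUz
    have c00 := (KIL_kk hYC1 h 0 0).continuousAt hUz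
    have c11 := (KIL_kk hYC1 h 1 1).continuousAt hUz
    exact (c01.pow 2).sub (c00.mul c11)
  have hDe : ∀ᶠ x in 𝓝 z, kk F G 0 1 x ^ 2 - kk F G 0 0 x * kk F G 1 1 x ≠ 0 :=
    hDc.eventually_ne hD
  have hPc : ContinuousAt (fun x => ss F G 0 0 x * ss F G 1 1 x - ss F G 0 1 x ^ 2) z := by
    have c01 := (KIL_ss h 0 1).continuousAt hUz
    have c00 := (KIL_ss h 0 0).continuousAt hUz
    have c11 := (KIL_ss h 1 1).continuousAt hUz
    exact (c00.mul c11).sub (c01.pow 2)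
  have hPe : ∀ᶠ x in 𝓝 z, 0 < ss F G 0 0 x * ss F G 1 1 x - ss F G 0 1 x ^ 2 :=
    hPc.eventually (lt_mem_nhds hP)
  have hUe : ∀ᶠ x in 𝓝 z, x ∈ U := hUz
  -- the field is normal near `z`
  have hα : ∀ᶠ x in 𝓝 z, A7 F G a b d x ⬝ᵥ pd 0 (mm F G) x = 0 ∧
      A7 F G a b d x ⬝ᵥ pd 1 (mm F G) x = 0 := by
    filter_upwards [hDe, hUe, eventually_eventually_nhds.2 hl] with x hDx hxU hlx
    have hp : ∀ i, A7 F G a b d x ⬝ᵥ pd i (yy F G) x = 0 := by
      intro i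
      rw [← (hDL' x hxU).1 i]
      have h1 : l7 F G a b d =ᶠ[𝓝 x] fun _ => c := hlx
      rw [pd, h1.fderiv_eq]
      exact Pool.FR.pd_const i c x
    have hDx' := hDIF U F G h x hxU
    have p0 := hp 0
    have p1 := hp 1
    rw [hDx'.1, dotProduct_sub, dotProduct_smul, dotProduct_smul, smul_eq_mul, smul_eq_mul] at p0
    rw [hDx'.2.1, dotProduct_sub, dotProduct_smul, dotProduct_smul, smul_eq_mul,
      smul_eq_mul] at p1
    constructor
    · refine (mul_eq_zero.1 ?_).resolve_left hDx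
      linear_combination kk F G 0 1 x * p0 - kk F G 0 0 x * p1
    · refine (mul_eq_zero.1 ?_).resolve_left hDx
      linear_combination kk F G 1 1 x * p0 - kk F G 0 1 x * p1
  -- it is zero near `z`
  have hA : ∀ᶠ x in 𝓝 z, A7 F G a b d x = 0 := by
    filter_upwards [hPe, hUe, eventually_eventually_nhds.2 hα] with x hPx hxU hαx
    have hα0 := hαx.self_of_nhds
    have h1 : (fun y => A7 F G a b d y ⬝ᵥ pd 0 (mm F G) y) =ᶠ[𝓝 x] fun _ => 0 :=
      hαx.mono fun y hy => hy.1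
    have h2 : pd 0 (fun y => A7 F G a b d y ⬝ᵥ pd 0 (mm F G) y) x = 0 := by
      rw [pd, h1.fderiv_eq]
      exact Pool.FR.pd_const 0 0 x
    rw [Pool.FR.pd_dot 0 (Pool.FR.diff_at h.op hA2 (by norm_num) hxU)
      (Pool.FR.diff_at h.op (KIL_pm h 0) le_rfl hxU), (hDL' x hxU).2.1] at h2
    have h3 : ((b + d • yy F G x) ⨯₃ pd 0 (mm F G) x) ⬝ᵥ pd 0 (mm F G) x = 0 := by
      rw [dotProduct_comm]
      exact dot_cross_self _ _
    rw [h3, zero_add] at h2
    have hs0 : pd 0 (pd 0 (mm F G)) x ⬝ᵥ (pd 0 (mm F G) x ⨯₃ pd 1 (mm F G) x) ≠ 0 := by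
      intro h4
      have h5 : ss F G 0 0 x = 0 := h4
      rw [h5] at hPx
      nlinarith [sq_nonneg (ss F G 0 1 x)]
    exact KIL_alg3 _ _ _ _ hα0.1 hα0.2 (h.imm x hxU) h2 hs0
  -- so `b + d y = 0` near `z`
  have hB : ∀ᶠ x in 𝓝 z, b + d • yy F G x = 0 := by
    filter_upwards [hUe, eventually_eventually_nhds.2 hA] with x hxU hAx
    have hb : ∀ i, (b + d • yy F G x) ⨯₃ pd i (mm F G) x = 0 := by
      intro i
      rw [← (hDL' x hxU).2.1 i]
      have h1 : A7 F G a b d =ᶠ[𝓝 x] fun _ => 0 := hAx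
      rw [pd, h1.fderiv_eq]
      exact Pool.FR.pd_const i 0 x
    exact KIL_alg2 _ _ _ (hb 0) (hb 1) (h.imm x hxU)
  by_cases hd : d = 0
  · -- `d = 0`: `b = 0` and `a = 0`
    subst hd
    have hb0 : b = 0 := by
      have h1 := hB.self_of_nhds
      rwa [zero_smul, add_zero] at h1
    apply hab
    refine ⟨?_, hb0, rfl⟩
    have h6 : a + b ⨯₃ mm F G z + (0 : ℝ) • vv F G z = 0 := hA.self_of_nhds
    rw [hb0, LinearMap.map_zero₂, add_zero, zero_smul, add_zero] at h6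
    exact h6
  · -- `d ≠ 0`: the Rodrigues vector is constant near `z`
    apply hne
    intro i
    have h1 : yy F G =ᶠ[𝓝 z] fun _ => d⁻¹ • (-b) := by
      filter_upwards [hB] with x hx
      have h2 : d • yy F G x = -b := by
        rw [add_comm] at hx
        exact eq_neg_of_add_eq_zero_left hx
      rw [← h2, smul_smul, inv_mul_cancel₀ hd, one_smul]
    rw [pd, h1.fderiv_eq]
    exact Pool.FR.pd_const i (d⁻¹ • (-b)) z

theorem blk_KL7 (h1 : Stmt_YC1) (h2 : Stmt_DIF) (h3 : Stmt_MIX) (h4 : Stmt_DL7) : Stmt_KL7 := by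
  intro U F G h a b d c hab x0 hx0 hP hl
  have hUz : U ∈ 𝓝 x0 := h.op.mem_nhds hx0
  have hPc : ContinuousAt (fun x => ss F G 0 0 x * ss F G 1 1 x - ss F G 0 1 x ^ 2) x0 := by
    have c01 := (KIL_ss h 0 1).continuousAt hUz
    have c00 := (KIL_ss h 0 0).continuousAt hUz
    have c11 := (KIL_ss h 1 1).continuousAt hUz
    exact (c00.mul c11).sub (c01.pow 2)
  have hPe : ∀ᶠ x in 𝓝 x0, 0 < ss F G 0 0 x * ss F G 1 1 x - ss F G 0 1 x ^ 2 :=
    hPc.eventually (lt_mem_nhds hP)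
  have hUe : ∀ᶠ x in 𝓝 x0, x ∈ U := hUz
  change ∀ᶠ z in 𝓝 x0, ∀ i, pd i (yy F G) z = 0
  filter_upwards [hPe, hUe, eventually_eventually_nhds.2 hl] with z hPz hzU hlz
  exact KL7_pt h1 h2 h3 h4 h hab hzU hPz hlz

end Pool.SXB
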