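import Pool.Agent.Work.MP_02e829_s7.Interface

/-!
# Block MX7 (helper87): maximum principle
-/

open Set Filter Manifold Matrix MeasureTheory Metric
open scoped Topology ContDiff Manifold

set_option autoImplicit false

universe w

namespace Pool.SXB

open Pool.FR (pd ee)

section MX7

variable {S : Type w} [TopologicalSpace S] [ChartedSpace E2 S] [IsManifold (𝓡 2) 2 S]

lemma MX7_pos (hSIG : Stmt_SIG) (hLOC : Stmt_LOC.{w}) {f g : S → E3} (h : MPair f g) {q : S}
    (hq : Ell f g q) : PosAt (loc f q) (loc g q) (extChartAt (𝓡 2) q q) :=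
  (hSIG _ _ _ (hLOC S f g h q) _ (mem_extChartAt_target q)).2 hq.1 hq.2

lemma MX7_l7 (hGLB : Stmt_GLB.{w}) {f g : S → E3} (h : MPair f g) (a b : V3) (d : ℝ) (q : S) {x : E2}
    (hx : x ∈ (extChartAt (𝓡 2) q).target) :
    l7 (loc f q) (loc g q) a b d x = LP a b d (Mo f g ((extChartAt (𝓡 2) q).symm x)) := by
  have h1 := (hGLB S f g h).1 q x hx
  rw [l7, LP, Mo, h1.1, h1.2]

omit [IsManifold (𝓡 2) 2 S] in
lemma MX7_tend (q : S) : Tendsto (extChartAt (𝓡 2) q).symm (𝓝 (extChartAt (𝓡 2) q q)) (𝓝 q) := by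
  have h1 : ContinuousAt (extChartAt (𝓡 2) q).symm (extChartAt (𝓡 2) q q) :=
    continuousAt_extChartAt_symm q
  have h2 : (extChartAt (𝓡 2) q).symm (extChartAt (𝓡 2) q q) = q := extChartAt_to_inv q
  rw [ContinuousAt, h2] at h1
  exact h1

lemma MX7_open (hSIG : Stmt_SIG) (hLP7 : Stmt_LP7) (hLOC : Stmt_LOC.{w}) (hGLB : Stmt_GLB.{w})
    (hLCN : Stmt_LCN.{w}) {f g : S → E3} (h : MPair f g) {q : S} (hq : Ell f g q) {a b : V3}
    {d : ℝ} (hab : a ⬝ᵥ b + d * LP a b d (Mo f g q) ≠ 0)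
    (hm : ∀ᶠ q' in 𝓝 q, LP a b d (Mo f g q') ≤ LP a b d (Mo f g q)) : LC f g q := by
  have h1 := mem_extChartAt_target (I := 𝓡 2) q
  have h2 : l7 (loc f q) (loc g q) a b d (extChartAt (𝓡 2) q q) = LP a b d (Mo f g q) := by
    rw [MX7_l7 hGLB h a b d q h1, extChartAt_to_inv]
  have h3 := hLCN S f g h q (hLP7 _ _ _ (hLOC S f g h q) a b d _ h1 (by rw [h2]; exact hab)
    (MX7_pos hSIG hLOC h hq) ?_)
  · filter_upwards [h3] with q' hq'
    exact Prod.ext hq'.1 hq'.2
  · filter_upwards [(isOpen_extChartAt_target q).mem_nhds h1, (MX7_tend q).eventually hm]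
      with x hx hx'
    rw [h2, MX7_l7 hGLB h a b d q hx]
    exact hx'

end MX7

theorem blk_MX7 (hSIG : Stmt_SIG) (hLP7 : Stmt_LP7) (hPT7 : Stmt_PT7.{w}) (hLOC : Stmt_LOC.{w})
    (hGLB : Stmt_GLB.{w}) (hCTY : Stmt_CTY.{w}) (hLCN : Stmt_LCN.{w}) : Stmt_MX7.{w} := by
  intro S _ _ _ _ f g h C hCo hCp hE a b d q0 hq0 hlt
  have hY := (hCTY S f g h).1
  have hW := (hCTY S f g h).2
  -- continuity
  have hcont : Continuous fun z : (V3 × V3) × S => LP z.1.1 z.1.2 d (Mo f g z.2) := by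
    have h1 : (fun z : (V3 × V3) × S => LP z.1.1 z.1.2 d (Mo f g z.2)) = fun z =>
        (∑ i, z.1.1 i * Yg f g z.2 i) + (∑ i, z.1.2 i * Wg f g z.2 i) +
          d * ∑ i, Yg f g z.2 i * Wg f g z.2 i := rfl
    rw [h1]
    fun_prop
  have hc : ∀ a' b' : V3, Continuous fun q : S => LP a' b' d (Mo f g q) := by
    intro a' b'
    exact hcont.comp ((continuous_const (y := ((a', b') : V3 × V3))).prodMk continuous_id)
  have hc0 : Continuous fun z : (V3 × V3) × S => LP z.1.1 z.1.2 d (Mo f g q0) :=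
    hcont.comp (continuous_fst.prodMk (continuous_const (y := q0)))
  have hev : ∀ᶠ x : V3 × V3 in 𝓝 (a, b), ∀ p ∈ frontier C,
      LP x.1 x.2 d (Mo f g p) < LP x.1 x.2 d (Mo f g q0) := by
    refine (isClosed_frontier.isCompact).eventually_forall_of_forall_eventually
      (P := fun (x : V3 × V3) (p : S) => LP x.1 x.2 d (Mo f g p) < LP x.1 x.2 d (Mo f g q0)) ?_
    intro p hp
    exact (hcont.tendsto ((a, b), p)).eventually_lt (hc0.tendsto ((a, b), p)) (hlt p hp)
  obtain ⟨ε, hε, hball⟩ := Metric.eventually_nhds_iff.1 hev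
  obtain ⟨a', b', ha', hb', hne⟩ := hPT7 S (closure C) (Mo f g) a b d ε hε
  have hlt' : ∀ p ∈ frontier C, LP a' b' d (Mo f g p) < LP a' b' d (Mo f g q0) := by
    refine hball (y := (a', b')) ?_
    rw [Prod.dist_eq, max_lt_iff, dist_eq_norm, dist_eq_norm]
    exact ⟨ha', hb'⟩
  obtain ⟨q1, hq1, hmax⟩ := (isClosed_closure.isCompact : IsCompact (closure C)).exists_isMaxOn
    ⟨q0, subset_closure hq0⟩ (hc a' b').continuousOn
  have hmax' : ∀ q ∈ closure C, LP a' b' d (Mo f g q) ≤ LP a' b' d (Mo f g q1) := fun q hq => hmax hq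
  have hin : ∀ q ∈ closure C, LP a' b' d (Mo f g q) = LP a' b' d (Mo f g q1) → q ∈ C := by
    intro q hq he
    by_contra hqC
    have hfr : q ∈ frontier C := by
      rw [hCo.frontier_eq]
      exact ⟨hq, hqC⟩
    have h1 := hlt' q hfr
    have h2 := hmax' q0 (subset_closure hq0)
    rw [he] at h1
    exact absurd (h1.trans_le h2) (lt_irrefl _)
  have hLC : ∀ q ∈ C, LP a' b' d (Mo f g q) = LP a' b' d (Mo f g q1) → LC f g q := by
    intro q hq he
    refine MX7_open hSIG hLP7 hLOC hGLB hLCN h (hE q hq) (a := a') (b := b') (d := d) ?_ ?_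
    · refine hne q (subset_closure hq) ?_
      intro q' hq'
      rw [he]
      exact hmax' q' hq'
    · filter_upwards [hCo.mem_nhds hq] with q' hq'
      rw [he]
      exact hmax' q' (subset_closure hq')
  have hsub : C ⊆ {q | q ∈ C ∧ LP a' b' d (Mo f g q) = LP a' b' d (Mo f g q1)} := by
    refine hCp.subset_of_closure_inter_subset ?_ ?_ ?_
    · rw [isOpen_iff_mem_nhds]
      rintro q ⟨hq, he⟩
      filter_upwards [hCo.mem_nhds hq, hLC q hq he] with q' hq' he'
      refine ⟨hq', ?_⟩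
      rw [he']
      exact he
    · exact ⟨q1, hin q1 hq1 rfl, hin q1 hq1 rfl, rfl⟩
    · rintro q ⟨hq, hqC⟩
      refine ⟨hqC, ?_⟩
      have hcl : IsClosed {q : S | LP a' b' d (Mo f g q) = LP a' b' d (Mo f g q1)} :=
        isClosed_eq (hc a' b') continuous_const
      exact hcl.closure_subset_iff.2 (fun x hx => hx.2) hq
  intro q hq
  exact hLC q hq (hsub hq).2

end Pool.SXB
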