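import Pool.Agent.Work.MP_02e829_s7.Interface

open Set Filter Manifold Matrix MeasureTheory Metric
open scoped Topology ContDiff Manifold

set_option autoImplicit false

universe w

namespace Pool.SXB

theorem NS7_norm3 (z : E3) : ‖z‖ ^ 2 = (L3 z) 0 ^ 2 + (L3 z) 1 ^ 2 + (L3 z) 2 ^ 2 := by
  rw [EuclideanSpace.norm_sq_eq, Fin.sum_univ_three]
  simp only [Real.norm_eq_abs, sq_abs]
  rfl

theorem NS7_alg (y0 y1 y2 a0 a1 a2 b0 b1 b2 : ℝ)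
    (h0 : a0 - b0 = y1 * (a2 + b2) - y2 * (a1 + b1))
    (h1 : a1 - b1 = y2 * (a0 + b0) - y0 * (a2 + b2))
    (h2 : a2 - b2 = y0 * (a1 + b1) - y1 * (a0 + b0))
    (hu : y0 * (a0 + b0) + y1 * (a1 + b1) + y2 * (a2 + b2) = 0)
    (hc : 4 * ((a0 - b0) ^ 2 + (a1 - b1) ^ 2 + (a2 - b2) ^ 2) ≤ b0 ^ 2 + b1 ^ 2 + b2 ^ 2)
    (hb : 0 < b0 ^ 2 + b1 ^ 2 + b2 ^ 2) : y0 * y0 + y1 * y1 + y2 * y2 < 1 := by
  by_contra hcon
  rw [not_lt] at hcon
  have e : (a0 - b0) ^ 2 + (a1 - b1) ^ 2 + (a2 - b2) ^ 2 =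
      (y0 * y0 + y1 * y1 + y2 * y2) * ((a0 + b0) ^ 2 + (a1 + b1) ^ 2 + (a2 + b2) ^ 2) := by
    rw [h0, h1, h2]
    linear_combination (-(y0 * (a0 + b0) + y1 * (a1 + b1) + y2 * (a2 + b2))) * hu
  have hN : 0 ≤ (a0 + b0) ^ 2 + (a1 + b1) ^ 2 + (a2 + b2) ^ 2 := by positivity
  have e2 : (a0 + b0) ^ 2 + (a1 + b1) ^ 2 + (a2 + b2) ^ 2 ≤
      (a0 - b0) ^ 2 + (a1 - b1) ^ 2 + (a2 - b2) ^ 2 := by
    rw [e]
    exact le_mul_of_one_le_left hN hcon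
  nlinarith [sq_nonneg a0, sq_nonneg a1, sq_nonneg a2]

theorem blk_NS7 (hGLB : Stmt_GLB.{w}) : Stmt_NS7.{w} := by
  intro S _ _ _ f g hP q
  obtain ⟨-, hG, -⟩ := hGLB S f g hP
  obtain ⟨y, hy⟩ : ∃ y : V3, y = Yg f g q := ⟨_, rfl⟩
  rw [← hy]
  have hGq := hG q
  rw [← hy] at hGq
  -- a vector
  obtain ⟨v, hv0, hv⟩ : ∃ v : FRD.Plane, v ≠ 0 ∧
      y ⬝ᵥ (L3 (FRD.dvec g q v) + L3 (FRD.dvec f q v)) = 0 := by
    obtain ⟨φ, hφ⟩ : ∃ φ : FRD.Plane →ₗ[ℝ] ℝ, ∀ v, φ v =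
        y ⬝ᵥ (L3 (FRD.dvec g q v) + L3 (FRD.dvec f q v)) := by
      refine ⟨{ toFun := fun v => y ⬝ᵥ (L3 (FRD.dvec g q v) + L3 (FRD.dvec f q v)),
                map_add' := ?_, map_smul' := ?_ }, fun v => rfl⟩
      · intro v v'
        unfold FRD.dvec
        rw [map_add, map_add, map_add, map_add, ← dotProduct_add]
        congr 1
        abel
      · intro c v
        unfold FRD.dvec
        rw [map_smul, map_smul, map_smul, map_smul, ← smul_add, dotProduct_smul]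
        rfl
    obtain ⟨e0, e1, hne⟩ : ∃ e0 e1 : FRD.Plane, e0 ≠ 0 ∧
        ∀ s t : ℝ, s • e0 + t • e1 = 0 → s = 0 ∧ t = 0 := by
      refine ⟨EuclideanSpace.single 0 1, EuclideanSpace.single 1 1, ?_, ?_⟩
      · intro h
        have := congrArg (fun z : FRD.Plane => z 0) h
        simp at this
      · intro s t h
        have h0 := congrArg (fun z : FRD.Plane => z 0) h
        have h1 := congrArg (fun z : FRD.Plane => z 1) h
        simp at h0 h1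
        exact ⟨h0, h1⟩
    by_cases h : φ e0 = 0
    · exact ⟨e0, hne.1, by rw [← hφ]; exact h⟩
    · refine ⟨φ e1 • e0 + (-φ e0) • e1, ?_, ?_⟩
      · intro h'
        exact h (neg_eq_zero.1 (hne.2 _ _ h').2)
      · rw [← hφ, map_add, map_smul, map_smul, smul_eq_mul, smul_eq_mul]
        ring
  have h1 := hGq v
  have hc := hP.close q v
  have hne : FRD.dvec f q v ≠ 0 := by
    intro h
    apply hv0
    apply hP.imm q
    rw [h]
    unfold FRD.dvec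
    rw [map_zero]
  obtain ⟨a, ha⟩ : ∃ a : V3, a = L3 (FRD.dvec g q v) := ⟨_, rfl⟩
  obtain ⟨b, hb⟩ : ∃ b : V3, b = L3 (FRD.dvec f q v) := ⟨_, rfl⟩
  have hc2 : 4 * ((a 0 - b 0) ^ 2 + (a 1 - b 1) ^ 2 + (a 2 - b 2) ^ 2) ≤
      b 0 ^ 2 + b 1 ^ 2 + b 2 ^ 2 := by
    have e1 := NS7_norm3 (FRD.dvec g q v - FRD.dvec f q v)
    have e2 := NS7_norm3 (FRD.dvec f q v)
    rw [map_sub, ← ha, ← hb] at e1
    rw [← hb] at e2
    simp only [Pi.sub_apply] at e1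
    rw [← e1, ← e2]
    have h3 := norm_nonneg (FRD.dvec g q v - FRD.dvec f q v)
    nlinarith
  have hb0 : 0 < b 0 ^ 2 + b 1 ^ 2 + b 2 ^ 2 := by
    have e2 := NS7_norm3 (FRD.dvec f q v)
    rw [← hb] at e2
    rw [← e2]
    have := norm_pos_iff.2 hne
    positivity
  rw [← ha, ← hb] at h1 hv
  have k0 := congrFun h1 0
  have k1 := congrFun h1 1
  have k2 := congrFun h1 2
  rw [cross_apply] at k0 k1 k2
  simp at k0 k1 k2
  rw [dotProduct, Fin.sum_univ_three] at hv ⊢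
  simp only [Pi.add_apply] at hv
  exact NS7_alg (y 0) (y 1) (y 2) (a 0) (a 1) (a 2) (b 0) (b 1) (b 2) k0 k1 k2 hv hc2 hb0

end Pool.SXB
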