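import Pool.Agent.Work.MP_02e829_s7.Interface

/-!
# Block PT7 (helper87): perturbation of the functional
-/

open Set Filter Manifold Matrix MeasureTheory Metric
open scoped Topology ContDiff Manifold

set_option autoImplicit false

universe w

namespace Pool.SXB

open Pool.FR (pd ee)

theorem blk_PT7 : Stmt_PT7.{w} := by
  intro X K P a b d ε hε
  by_contra hno
  push Not at hno
  obtain ⟨s, hs1, hs2⟩ : ∃ s : ℝ, s * s = 1 ∧ 0 ≤ s * d := by
    rcases le_total 0 d with h | h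
    · exact ⟨1, by norm_num, by linarith⟩
    · exact ⟨-1, by norm_num, by linarith⟩
  obtain ⟨u, hu⟩ : ∃ u : V3, u = Pi.single 0 (ε / 2) := ⟨_, rfl⟩
  have hun : ‖u‖ < ε := by
    rw [hu, Pi.norm_single, Real.norm_eq_abs, abs_of_pos (by linarith)]
    linarith
  have huu : 0 < u ⬝ᵥ u := by
    rw [hu, single_dotProduct, Pi.single_eq_same]
    positivity
  have hsabs : |s| = 1 := by
    have h1 : |s| * |s| = 1 := by rw [abs_mul_abs_self]; exact hs1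
    nlinarith [abs_nonneg s]
  have hsn : ‖s • u‖ < ε := by
    rw [norm_smul, Real.norm_eq_abs, hsabs, one_mul]; exact hun
  obtain ⟨q0, hq0, m0, e0⟩ := hno a b (by simpa using hε) (by simpa using hε)
  obtain ⟨q1, hq1, m1, e1⟩ := hno (a + s • u) (b + u) (by simpa using hsn) (by simpa using hun)
  obtain ⟨q2, hq2, m2, e2⟩ := hno (a - s • u) (b - u) (by simpa using hsn) (by simpa using hun)
  have k1 := m1 q0 hq0
  have k2 := m2 q0 hq0
  have l1 : LP (a + s • u) (b + u) d (P q0) =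
      LP a b d (P q0) + (s * (u ⬝ᵥ (P q0).1) + u ⬝ᵥ (P q0).2) := by
    simp only [LP, add_dotProduct, smul_dotProduct, smul_eq_mul]
    ring
  have l2 : LP (a - s • u) (b - u) d (P q0) =
      LP a b d (P q0) - (s * (u ⬝ᵥ (P q0).1) + u ⬝ᵥ (P q0).2) := by
    simp only [LP, sub_dotProduct, smul_dotProduct, smul_eq_mul]
    ring
  rw [l1] at k1
  rw [l2] at k2
  obtain ⟨M0, hM0⟩ : ∃ M, M = LP a b d (P q0) := ⟨_, rfl⟩
  obtain ⟨M1, hM1⟩ : ∃ M, M = LP (a + s • u) (b + u) d (P q1) := ⟨_, rfl⟩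
  obtain ⟨M2, hM2⟩ : ∃ M, M = LP (a - s • u) (b - u) d (P q2) := ⟨_, rfl⟩
  rw [← hM0] at e0 k1 k2
  rw [← hM1] at e1 k1
  rw [← hM2] at e2 k2
  have d1 : (a + s • u) ⬝ᵥ (b + u) = a ⬝ᵥ b + a ⬝ᵥ u + s * (u ⬝ᵥ b) + s * (u ⬝ᵥ u) := by
    simp only [add_dotProduct, dotProduct_add, smul_dotProduct, smul_eq_mul]
    ring
  have d2 : (a - s • u) ⬝ᵥ (b - u) = a ⬝ᵥ b - a ⬝ᵥ u - s * (u ⬝ᵥ b) + s * (u ⬝ᵥ u) := by
    simp only [sub_dotProduct, dotProduct_sub, smul_dotProduct, smul_eq_mul]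
    ring
  rw [d1] at e1
  rw [d2] at e2
  have hM : 0 ≤ M1 + M2 - 2 * M0 := by linarith
  have h1 : 2 * (s * (u ⬝ᵥ u)) + d * (M1 + M2 - 2 * M0) = 0 := by linarith
  have h2 : 2 * (u ⬝ᵥ u) + (s * d) * (M1 + M2 - 2 * M0) = 0 := by
    linear_combination s * h1 - 2 * (u ⬝ᵥ u) * hs1
  have h3 : 0 ≤ (s * d) * (M1 + M2 - 2 * M0) := mul_nonneg hs2 hM
  linarith

end Pool.SXB
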