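import Pool.Agent.Work.MP_02e829_s7.Interface

open Set Filter Manifold Matrix MeasureTheory Metric
open scoped Topology ContDiff Manifold

set_option autoImplicit false

universe w

namespace Pool.SXB

theorem blk_RB7 (hHY7 : Stmt_HY7) (hUQ7 : Stmt_UQ7) : Stmt_RB7 := by
  intro H hH
  have h1 : H.encard ≤ ((7 : ℕ) : ℕ∞) := hH
  obtain ⟨hfin, hcard⟩ := Set.encard_le_coe_iff_finite_ncard_le.1 h1
  have hfin' : Finite H := hfin
  have hft : Fintype H := Fintype.ofFinite H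
  have hc : Fintype.card H ≤ Fintype.card (Fin 7) := by
    rw [Fintype.card_fin, ← Nat.card_eq_fintype_card]
    exact hcard
  obtain ⟨e⟩ := Function.Embedding.nonempty_of_card_le hc
  classical
  obtain ⟨Φ, hΦ⟩ : ∃ Φ : Fin 7 → V3 × V3, ∀ i, ∀ P : V3 × V3, ∀ B : H, e B = i → Cay B.1 P →
      Φ i = P := by
    refine ⟨fun i => if h : ∃ P : V3 × V3, ∃ B : H, e B = i ∧ Cay B.1 P then h.choose else (0, 0),
      ?_⟩
    intro i P B hB hP
    have h : ∃ P : V3 × V3, ∃ B : H, e B = i ∧ Cay B.1 P := ⟨P, B, hB, hP⟩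
    simp only
    rw [dif_pos h]
    obtain ⟨B', hB', hP'⟩ := h.choose_spec
    have hBB : B' = B := e.injective (hB'.trans hB.symm)
    rw [hBB] at hP'
    exact hUQ7 B.1 _ _ hP' hP
  obtain ⟨a, b, d, c, hne, hc⟩ := hHY7 Φ
  refine ⟨a, b, d, c, hne, fun B hB P hP => ?_⟩
  rw [← hΦ (e ⟨B, hB⟩) P ⟨B, hB⟩ rfl hP]
  exact hc _

end Pool.SXB
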