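import Pool.Agent.Work.MP_02e829_s7.Interface

/-! # Block SH7 (helper23) -/

open Set Filter Manifold Matrix MeasureTheory Metric
open scoped Topology ContDiff Manifold

set_option autoImplicit false

universe w

namespace Pool.SXB

theorem blk_SH7 (hMX : Stmt_MX7.{w}) (hCV : Stmt_CV7) (hCT : Stmt_CTY.{w}) : Stmt_SH7.{w} := by
  intro S _ _ _ _ f g hP C hO hC hE Q ε hQ hsep hfr q hq
  by_contra hcon
  have h1 : ∀ q' ∈ C, Mo f g q' ∈ Q := by
    intro q' hq'
    refine hCV Q ε hQ hsep _ fun a b d => ?_
    by_contra hno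
    push Not at hno
    refine hcon (hMX S f g hP C hO hC hE a b d q' hq' (fun p hp => ?_) q hq)
    exact hno _ (hfr p hp)
  have hcont : Continuous (Mo f g) := by
    obtain ⟨h2, h3⟩ := hCT S f g hP
    exact h2.prodMk h3
  have himg : IsPreconnected (Mo f g '' C) := hC.image _ hcont.continuousOn
  have hfin : (Mo f g '' C).Finite := hQ.subset (by
    rintro _ ⟨q', hq', rfl⟩
    exact h1 q' hq')
  have hsub : (Mo f g '' C).Subsingleton := by
    by_contra hnt
    rw [Set.not_subsingleton_iff] at hnt
    exact himg.infinite_of_nontrivial hnt hfin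
  refine hcon ?_
  filter_upwards [hO.mem_nhds hq] with q' hq'
  exact hsub (Set.mem_image_of_mem _ hq') (Set.mem_image_of_mem _ hq)

end Pool.SXB
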