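import Pool.Agent.Work.MP_02e829_s7.Interface
import Pool.Agent.Work.MP_02e829_sb.B_STA

/-! # Block ST7: the static theorem on an open connected set -/

open Set Filter Manifold Matrix MeasureTheory Metric
open scoped Topology ContDiff Manifold

set_option autoImplicit false

universe w

namespace Pool.SXB

open Pool.FR (pd ee)

lemma ST7_neg (a b : V3) (d : ℝ) (P : V3 × V3) : LP (-a) (-b) (-d) P = -LP a b d P := by
  unfold LP
  rw [neg_dotProduct, neg_dotProduct]
  ring

theorem blk_ST7 (hMX7 : Stmt_MX7.{w}) (hSIG : Stmt_SIG) (hKL7 : Stmt_KL7) (hLOC : Stmt_LOC.{w})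
    (hGLB : Stmt_GLB.{w}) (hLCN : Stmt_LCN.{w}) : Stmt_ST7.{w} := by
  intro S _ _ _ _ f g h C hCo hCc hE a b d c habd hfr q hq
  by_cases hall : ∀ p ∈ C, LP a b d (Mo f g p) = c
  · have h1 : Rig (loc f q) (loc g q) (extChartAt (𝓡 2) q q) := by
      refine hKL7 _ _ _ (hLOC S f g h q) a b d c habd _ (mem_extChartAt_target q)
        (STA_pos hSIG hLOC h (hE q hq)) ?_
      have h2 : ∀ᶠ x in 𝓝 (extChartAt (𝓡 2) q q), (extChartAt (𝓡 2) q).symm x ∈ C :=
        (STA_tend q).eventually (hCo.mem_nhds hq)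
      filter_upwards [h2,
        (isOpen_extChartAt_target q).mem_nhds (mem_extChartAt_target (I := 𝓡 2) q)] with x hx hx'
      have h3 := (hGLB S f g h).1 q x hx'
      have h4 := hall _ hx
      rw [← h4]
      unfold l7 LP Mo
      rw [h3.1, h3.2]
    filter_upwards [hLCN S f g h q h1] with q' hq'
    unfold Mo
    rw [hq'.1, hq'.2]
  · push Not at hall
    obtain ⟨q0, hq0, hne⟩ := hall
    rcases lt_or_gt_of_ne hne with hlt | hgt
    · refine hMX7 S f g h C hCo hCc hE (-a) (-b) (-d) q0 hq0 ?_ q hq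
      intro p hp
      rw [ST7_neg, ST7_neg, hfr p hp]
      exact neg_lt_neg hlt
    · refine hMX7 S f g h C hCo hCc hE a b d q0 hq0 ?_ q hq
      intro p hp
      rw [hfr p hp]
      exact hgt

end Pool.SXB
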