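import Pool.Agent.Work.MP_02e829_s7.Lin8

/-!
# Uniqueness of the Cayley data, and the case of a common vector
-/

open Set Filter Manifold Matrix MeasureTheory Metric
open scoped Topology ContDiff Manifold

set_option autoImplicit false

universe w

namespace Pool.SXB

open Pool.FR (pd ee)

theorem UQ8 : Stmt_UQ7 := by
  intro B P P' h h'
  have h1 : P.1 = P'.1 := UL8 h h' rfl
  have h2 := h 0
  have h3 := h' 0
  rw [h2, h1] at h3
  have h4 : (2 : ℝ) • P.2 = (2 : ℝ) • P'.2 := add_left_cancel h3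
  exact Prod.ext h1 (smul_right_injective V3 (two_ne_zero (α := ℝ)) h4)

/-- a vector which is not parallel to a given one -/
lemma RP8_exists {u : V3} (hu : u ≠ 0) : ∃ δ : V3, u ⨯₃ δ ≠ 0 := by
  by_contra hno
  push Not at hno
  apply hu
  apply UL8_cross
  exact hno

lemma RP8_alg (y u v δ : V3) (h : v - u = y ⨯₃ (v + u)) :
    ((v + u) ⨯₃ δ) ⬝ᵥ y = δ ⬝ᵥ (v - u) := by
  rw [h]
  rw [AL7_d, AL7_d]
  simp only [AL7_c0, AL7_c1, AL7_c2, Pi.add_apply]
  ring

theorem RP8 : Stmt_RP7 := by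
  intro H e he hH
  by_cases hne : ∃ B ∈ H, ∃ P, Cay B P
  · obtain ⟨B0, hB0, P0, hP0⟩ := hne
    have h0 := UL8_lin hP0 e
    obtain ⟨u, hu⟩ : ∃ u, u = L3 (B0.linearIsometryEquiv e) + L3 e := ⟨_, rfl⟩
    have hu0 : u ≠ 0 := by
      intro hz
      rw [← hu, hz, map_zero, sub_eq_zero] at h0
      rw [h0] at hu
      have h1 : L3 e = 0 := by
        have h2 : (2 : ℝ) • L3 e = 0 := by
          rw [two_smul, ← hu, hz]
        exact (smul_eq_zero.1 h2).resolve_left two_ne_zero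
      apply he
      have h3 : (EuclideanSpace.equiv (Fin 3) ℝ) e = 0 := h1
      exact (ContinuousLinearEquiv.map_eq_zero_iff _).1 h3
    obtain ⟨δ, hδ⟩ := RP8_exists hu0
    refine ⟨u ⨯₃ δ, 0, 0, δ ⬝ᵥ (L3 (B0.linearIsometryEquiv e) - L3 e), fun h => hδ h.1, ?_⟩
    intro B hB P hP
    have h1 := UL8_lin hP e
    rw [hH B hB B0 hB0] at h1
    rw [LP, zero_dotProduct, zero_mul, add_zero, add_zero, hu]
    exact RP8_alg _ _ _ _ h1
  · push Not at hne
    refine ⟨0, 0, 1, 0, fun h => one_ne_zero h.2.2, fun B hB P hP => absurd hP (hne B hB P)⟩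

end Pool.SXB
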