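import Pool.Agent.Work.MP_02e829_s7.Final8
import Pool.Agent.Work.MP_02e829_s7.B_BD7
import Pool.Agent.Work.MP_02e829_s7.B_CV7
import Pool.Agent.Work.MP_02e829_s7.B_CY7
import Pool.Agent.Work.MP_02e829_s7.B_DL7
import Pool.Agent.Work.MP_02e829_s7.B_DN7
import Pool.Agent.Work.MP_02e829_s7.B_GD7
import Pool.Agent.Work.MP_02e829_s7.B_HY7
import Pool.Agent.Work.MP_02e829_s7.B_IN7
import Pool.Agent.Work.MP_02e829_s7.B_KL7
import Pool.Agent.Work.MP_02e829_s7.B_LP7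
import Pool.Agent.Work.MP_02e829_s7.B_LR7
import Pool.Agent.Work.MP_02e829_s7.B_MX7
import Pool.Agent.Work.MP_02e829_s7.B_NS7
import Pool.Agent.Work.MP_02e829_s7.B_PT7
import Pool.Agent.Work.MP_02e829_s7.B_RB7
import Pool.Agent.Work.MP_02e829_s7.B_SD7
import Pool.Agent.Work.MP_02e829_s7.B_SH7
import Pool.Agent.Work.MP_02e829_s7.B_ST7
import Pool.Agent.Work.MP_02e829_s7.Uq8
import Pool.Agent.Work.MP_02e829_sb.B_BND
import Pool.Agent.Work.MP_02e829_sb.B_CIR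
import Pool.Agent.Work.MP_02e829_sb.B_CLO
import Pool.Agent.Work.MP_02e829_sb.B_CTY
import Pool.Agent.Work.MP_02e829_sb.B_DIF
import Pool.Agent.Work.MP_02e829_sb.B_EGR
import Pool.Agent.Work.MP_02e829_sb.B_ELP
import Pool.Agent.Work.MP_02e829_sb.B_ENE
import Pool.Agent.Work.MP_02e829_sb.B_GLB
import Pool.Agent.Work.MP_02e829_sb.B_LCN
import Pool.Agent.Work.MP_02e829_sb.B_LOC
import Pool.Agent.Work.MP_02e829_sb.B_MIX
import Pool.Agent.Work.MP_02e829_sb.B_ROT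
import Pool.Agent.Work.MP_02e829_sb.B_SGN
import Pool.Agent.Work.MP_02e829_sb.B_SIG
import Pool.Agent.Work.MP_02e829_sb.B_SMP
import Pool.Agent.Work.MP_02e829_sb.B_SOL
import Pool.Agent.Work.MP_02e829_sb.B_TOP
import Pool.Agent.Work.MP_02e829_sb.B_VAL
import Pool.Agent.Work.MP_02e829_sb.B_W0
import Pool.Agent.Work.MP_02e829_sb.B_WMP
import Pool.Agent.Work.MP_02e829_sb.B_YC1

/-!
# Assembly
-/

open Set Filter Manifold Matrix MeasureTheory Metric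
open scoped Topology ContDiff Manifold

set_option autoImplicit false

universe w

namespace Pool.SXB

theorem all_YC1 : Stmt_YC1 := blk_YC1 blk_SOL

theorem all_DIF : Stmt_DIF := blk_DIF all_YC1

theorem all_MIX : Stmt_MIX := blk_MIX blk_W0 all_YC1 all_DIF

theorem all_SIG : Stmt_SIG := blk_SIG (blk_EGR all_YC1 all_DIF) all_MIX

theorem all_SMP : Stmt_SMP := blk_SMP (blk_WMP blk_W0) (blk_ENE blk_W0) blk_CIR

theorem all_DL7 : Stmt_DL7 := blk_DL7 all_YC1 all_DIF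

theorem all_GD7 : Stmt_GD7 := blk_GD7 all_YC1 all_DIF all_MIX blk_BND all_SMP all_DL7

theorem all_SD7 : Stmt_SD7 := blk_SD7 all_YC1 all_DIF all_MIX all_DL7

theorem all_IN7 : Stmt_IN7 := blk_IN7 all_YC1 all_DIF all_DL7

theorem all_BD7 : Stmt_BD7 := blk_BD7 all_YC1 all_GD7 all_SD7 all_IN7 blk_TOP all_DL7

theorem all_LP7 : Stmt_LP7 := blk_LP7 all_GD7 all_BD7 all_DL7

theorem all_KL7 : Stmt_KL7 := blk_KL7 all_YC1 all_DIF all_MIX all_DL7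

theorem all_GLB : Stmt_GLB.{w} := blk_GLB blk_SOL all_YC1 blk_LOC

theorem all_CTY : Stmt_CTY.{w} := blk_CTY all_YC1 blk_LOC all_GLB

theorem all_LCN : Stmt_LCN.{w} := blk_LCN all_YC1 all_DIF blk_LOC all_GLB

theorem all_VAL : Stmt_VAL.{w} := blk_VAL all_GLB blk_SOL

theorem all_SGN : Stmt_SGN.{w} := blk_SGN blk_LOC all_SIG blk_CLO

theorem all_MX7 : Stmt_MX7.{w} :=
  blk_MX7 all_SIG all_LP7 blk_PT7 blk_LOC all_GLB all_CTY all_LCN

theorem all_ST7 : Stmt_ST7.{w} := blk_ST7 all_MX7 all_SIG all_KL7 blk_LOC all_GLB all_LCN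

theorem all_SH7 : Stmt_SH7.{w} := blk_SH7 all_MX7 blk_CV7 all_CTY

/-- the theorem -/
theorem all_FI8 (S : Type w) [TopologicalSpace S] [ChartedSpace E2 S] [IsManifold (𝓡 2) 2 S]
    [CompactSpace S] [ConnectedSpace S] (f : ℝ → S → E3) (hf : Fam2 f)
    (hb : ∀ t ∈ Icc (0 : ℝ) 1, Hyp8 (f 0) (f t)) :
    ∀ t ∈ Icc (0 : ℝ) 1, ∃ A : E3 ≃ᵃⁱ[ℝ] E3, Proper A ∧ ∀ p, f t p = A (f 0 p) :=
  blk_FI8 (blk_CY7 all_GLB) UQ8 (blk_RB7 blk_HY7 UQ8) RP8 (blk_NS7 all_GLB) blk_AL7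
    all_ST7 all_SH7 (blk_LR7 all_VAL) (blk_DN7 all_YC1 blk_LOC all_GLB all_LCN) blk_ROT all_GLB
    blk_CLO blk_ELP all_SGN S f hf hb

end Pool.SXB
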