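import Pool.Agent.Work.MP_02e829_s7.Interface

/-! # Block LP7: local maxima of generic functionals -/

open Set Filter Manifold Matrix MeasureTheory Metric
open scoped Topology ContDiff Manifold

set_option autoImplicit false

universe w

namespace Pool.SXB

theorem LP7_par (A n : V3) (h : A ⨯₃ n = 0) : (n ⬝ᵥ n) • A = (A ⬝ᵥ n) • n := by
  have h0 : A 1 * n 2 - A 2 * n 1 = 0 := by simpa [cross_apply] using congrFun h 0
  have h1 : A 2 * n 0 - A 0 * n 2 = 0 := by simpa [cross_apply] using congrFun h 1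
  have h2 : A 0 * n 1 - A 1 * n 0 = 0 := by simpa [cross_apply] using congrFun h 2
  ext i
  simp only [Pi.smul_apply, smul_eq_mul, Matrix.vec3_dotProduct]
  fin_cases i
  · simp only [Fin.zero_eta, Fin.isValue]
    linear_combination n 1 * h2 - n 2 * h1
  · simp only [Fin.mk_one, Fin.isValue]
    linear_combination n 2 * h0 - n 0 * h2
  · simp only [Fin.reduceFinMk, Fin.isValue]
    linear_combination n 0 * h1 - n 1 * h0

theorem blk_LP7 (hGD7 : Stmt_GD7) (hBD7 : Stmt_BD7) (hDL7 : Stmt_DL7) : Stmt_LP7 := by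
  intro U F G hP a b d x0 hx0 hab hpos hmax
  by_cases h : A7 F G a b d x0 ⨯₃ nn F G x0 = 0
  · have hn : nn F G x0 ⬝ᵥ nn F G x0 ≠ 0 := by
      intro h0
      exact hP.imm x0 hx0 (dotProduct_self_eq_zero.1 h0)
    have hpar := LP7_par _ _ h
    have hA : A7 F G a b d x0 =
        ((nn F G x0 ⬝ᵥ nn F G x0)⁻¹ * (A7 F G a b d x0 ⬝ᵥ nn F G x0)) • nn F G x0 := by
      rw [mul_smul, ← hpar, smul_smul, inv_mul_cancel₀ hn, one_smul]
    refine hBD7 U F G hP a b d x0 hx0 hpos _ ?_ hA hmax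
    intro hL
    rw [hL, zero_smul] at hA
    apply hab
    have h1 := ((hDL7 U F G hP a b d).2.2 x0 hx0).2.2
    rw [← h1, hA, zero_dotProduct]
  · exact hGD7 U F G hP a b d x0 hx0 hpos h hmax

end Pool.SXB
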