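import Pool.Agent.Work.MP_02e829_s7.Interface

open Set Filter Manifold Matrix MeasureTheory Metric
open scoped Topology ContDiff Manifold

set_option autoImplicit false

namespace Pool.SXB

theorem RP7_lin (B : E3 ≃ᵃⁱ[ℝ] E3) (P : V3 × V3) (h : Cay B P) (e : E3) :
    L3 (B.linearIsometryEquiv e) - L3 e = P.1 ⨯₃ (L3 (B.linearIsometryEquiv e) + L3 e) := by
  have h1 := h e
  have h0 := h 0
  have hB : B e = B.linearIsometryEquiv e + B 0 := by
    have := B.map_vadd 0 e
    simpa [vadd_eq_add] using this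
  rw [hB, map_add] at h1
  rw [map_zero L3] at h0
  have e1 : L3 (B.linearIsometryEquiv e) + L3 (B 0) + L3 e
      = (L3 (B.linearIsometryEquiv e) + L3 e) + (L3 (B 0) + 0) := by abel
  have e2 : L3 (B.linearIsometryEquiv e) - L3 e
      = (L3 (B.linearIsometryEquiv e) + L3 (B 0) - L3 e) - (L3 (B 0) - 0) := by abel
  rw [e2, h1, h0, e1, map_add]
  abel

theorem RP7_inj (B : E3 ≃ᵃⁱ[ℝ] E3) (P : V3 × V3) (h : Cay B P) (e : E3)
    (he : L3 (B.linearIsometryEquiv e) + L3 e = 0) : e = 0 := by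
  have h1 := RP7_lin B P h e
  rw [he, map_zero] at h1
  have h3 : L3 (B.linearIsometryEquiv e) = L3 e := sub_eq_zero.1 h1
  rw [h3] at he
  have h5 : L3 e = 0 := by
    have : (2 : ℝ) • L3 e = 0 := by rw [two_smul]; exact he
    rcases smul_eq_zero.1 this with h | h
    · norm_num at h
    · exact h
  have hinj : Function.Injective (EuclideanSpace.equiv (Fin 3) ℝ) :=
    (EuclideanSpace.equiv (Fin 3) ℝ).injective
  apply hinj
  rw [map_zero]
  exact h5

/-- a vector with nonzero cross product -/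
theorem RP7_dir (s : V3) (hs : s ≠ 0) : ∃ δ : V3, s ⨯₃ δ ≠ 0 := by
  by_contra hcon
  push Not at hcon
  apply hs
  have h0 := hcon ![1, 0, 0]
  have h1 := hcon ![0, 1, 0]
  have a0 := congrFun h0 1
  have a1 := congrFun h0 2
  have b := congrFun h1 2
  simp [cross_apply] at a0 a1 b
  funext i
  fin_cases i
  · simpa using b
  · simpa using a1
  · simpa using a0

theorem RP7_triple (s δ y : V3) : (s ⨯₃ δ) ⬝ᵥ y = δ ⬝ᵥ (y ⨯₃ s) := by
  simp [cross_apply, dotProduct, Fin.sum_univ_three]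
  ring

theorem blk_RP7 : Stmt_RP7 := by
  intro H e he hH
  have hone : (![1, 0, 0] : V3) ≠ 0 := by
    intro h
    have := congrFun h 0
    simp at this
  by_cases hex : ∃ B ∈ H, ∃ P, Cay B P
  · obtain ⟨B0, hB0, P0, hP0⟩ := hex
    have hs : L3 (B0.linearIsometryEquiv e) + L3 e ≠ 0 := by
      intro h
      exact he (RP7_inj B0 P0 hP0 e h)
    obtain ⟨δ, hδ⟩ := RP7_dir _ hs
    refine ⟨(L3 (B0.linearIsometryEquiv e) + L3 e) ⨯₃ δ, 0, 0,
      δ ⬝ᵥ (L3 (B0.linearIsometryEquiv e) - L3 e), fun h => hδ h.1, ?_⟩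
    intro B hB P hP
    have h1 := RP7_lin B P hP e
    rw [hH B hB B0 hB0] at h1
    unfold LP
    rw [RP7_triple, ← h1]
    simp
  · refine ⟨![1, 0, 0], 0, 0, 0, fun h => hone h.1, ?_⟩
    intro B hB P hP
    exact absurd ⟨B, hB, P, hP⟩ hex

end Pool.SXB
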