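import Pool.Agent.Work.MP_02e829_s7.Interface

open Set Filter Manifold Matrix MeasureTheory Metric
open scoped Topology ContDiff Manifold

set_option autoImplicit false

namespace Pool.SXB

theorem UQ7_lin (B : E3 ≃ᵃⁱ[ℝ] E3) (P : V3 × V3) (h : Cay B P) (e : E3) :
    L3 (B.linearIsometryEquiv e) - L3 e = P.1 ⨯₃ (L3 (B.linearIsometryEquiv e) + L3 e) := by
  have h1 := h e
  have h0 := h 0
  have hB : B e = B.linearIsometryEquiv e + B 0 := by
    have := B.map_vadd 0 e
    simpa [vadd_eq_add] using this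
  rw [hB, map_add] at h1
  rw [map_zero L3] at h0
  have e1 : L3 (B.linearIsometryEquiv e) + L3 (B 0) + L3 e
      = (L3 (B.linearIsometryEquiv e) + L3 e) + (L3 (B 0) + 0) := by abel
  have e2 : L3 (B.linearIsometryEquiv e) - L3 e
      = (L3 (B.linearIsometryEquiv e) + L3 (B 0) - L3 e) - (L3 (B 0) - 0) := by abel
  rw [e2, h1, h0, e1, map_add]
  abel

theorem UQ7_inj (B : E3 ≃ᵃⁱ[ℝ] E3) (P : V3 × V3) (h : Cay B P) (e : E3)
    (he : B.linearIsometryEquiv e + e = 0) : e = 0 := by
  have h1 := UQ7_lin B P h e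
  have h2 : L3 (B.linearIsometryEquiv e) + L3 e = 0 := by rw [← map_add, he, map_zero]
  rw [h2, map_zero] at h1
  have h3 : L3 (B.linearIsometryEquiv e) = L3 e := sub_eq_zero.1 h1
  have h4 : L3 e + L3 e = 0 := by rw [← h3] at h2 ⊢; rw [h3] at h2 ⊢; exact h2
  have h5 : L3 e = 0 := by
    have : (2 : ℝ) • L3 e = 0 := by rw [two_smul]; exact h4
    rcases smul_eq_zero.1 this with h | h
    · norm_num at h
    · exact h
  have hinj : Function.Injective (EuclideanSpace.equiv (Fin 3) ℝ) :=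
    (EuclideanSpace.equiv (Fin 3) ℝ).injective
  apply hinj
  rw [map_zero]
  exact h5

theorem UQ7_surj (B : E3 ≃ᵃⁱ[ℝ] E3) (P : V3 × V3) (h : Cay B P) (u : V3) :
    ∃ e : E3, L3 (B.linearIsometryEquiv e) + L3 e = u := by
  let T : E3 →ₗ[ℝ] E3 :=
    (B.linearIsometryEquiv.toLinearEquiv : E3 →ₗ[ℝ] E3) + LinearMap.id
  have hT : ∀ e, T e = B.linearIsometryEquiv e + e := fun e => rfl
  have hinj : Function.Injective T := by
    rw [← LinearMap.ker_eq_bot, LinearMap.ker_eq_bot']
    intro e he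
    exact UQ7_inj B P h e (by rw [← hT]; exact he)
  have hsurj : Function.Surjective T := LinearMap.injective_iff_surjective.1 hinj
  obtain ⟨e, he⟩ := hsurj ((EuclideanSpace.equiv (Fin 3) ℝ).symm u)
  refine ⟨e, ?_⟩
  rw [← map_add, ← hT, he]
  exact (EuclideanSpace.equiv (Fin 3) ℝ).apply_symm_apply u

theorem UQ7_cross (y y' : V3) (h : ∀ u : V3, y ⨯₃ u = y' ⨯₃ u) : y = y' := by
  have h0 := h ![1, 0, 0]
  have h1 := h ![0, 1, 0]
  have a0 := congrFun h0 1
  have a1 := congrFun h0 2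
  have a2 := congrFun h1 0
  simp [cross_apply] at a0 a1 a2
  funext i
  fin_cases i
  · have b := congrFun h1 2
    simp [cross_apply] at b
    simpa using b
  · simpa using a1
  · simpa using a0

theorem blk_UQ7 : Stmt_UQ7 := by
  intro B P P' h h'
  have hy : P.1 = P'.1 := by
    apply UQ7_cross
    intro u
    obtain ⟨e, he⟩ := UQ7_surj B P h u
    have h1 := UQ7_lin B P h e
    have h2 := UQ7_lin B P' h' e
    rw [he] at h1 h2
    rw [← h1, ← h2]
  have hw : P.2 = P'.2 := by
    have h1 := h 0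
    have h2 := h' 0
    rw [h1, hy] at h2
    have h3 := add_left_cancel h2
    exact smul_right_injective V3 (two_ne_zero : (2 : ℝ) ≠ 0) h3
  exact Prod.ext hy hw

end Pool.SXB
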