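import Pool.Agent.Work.MP_02e829_s7.Final9
import Pool.Agent.Work.MP_02e829_s7.B_BD7
import Pool.Agent.Work.MP_02e829_s7.B_CY7
import Pool.Agent.Work.MP_02e829_s7.B_DL7
import Pool.Agent.Work.MP_02e829_s7.B_DN7
import Pool.Agent.Work.MP_02e829_s7.B_GD7
import Pool.Agent.Work.MP_02e829_s7.B_HY7
import Pool.Agent.Work.MP_02e829_s7.B_IN7
import Pool.Agent.Work.MP_02e829_s7.B_KL7
import Pool.Agent.Work.MP_02e829_s7.B_LP7
import Pool.Agent.Work.MP_02e829_s7.B_LR7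
import Pool.Agent.Work.MP_02e829_s7.B_MX7
import Pool.Agent.Work.MP_02e829_s7.B_NS7
import Pool.Agent.Work.MP_02e829_s7.B_PT7
import Pool.Agent.Work.MP_02e829_s7.B_RB7
import Pool.Agent.Work.MP_02e829_s7.B_RP7
import Pool.Agent.Work.MP_02e829_s7.B_SD7
import Pool.Agent.Work.MP_02e829_s7.B_ST7
import Pool.Agent.Work.MP_02e829_s7.B_UQ7
import Pool.Agent.Work.MP_02e829_sb.B_BND
import Pool.Agent.Work.MP_02e829_sb.B_CIR
import Pool.Agent.Work.MP_02e829_sb.B_CLO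
import Pool.Agent.Work.MP_02e829_sb.B_CTY
import Pool.Agent.Work.MP_02e829_sb.B_DIF
import Pool.Agent.Work.MP_02e829_sb.B_EGR
import Pool.Agent.Work.MP_02e829_sb.B_ELP
import Pool.Agent.Work.MP_02e829_sb.B_ENE
import Pool.Agent.Work.MP_02e829_sb.B_GLB
import Pool.Agent.Work.MP_02e829_sb.B_LCN
import Pool.Agent.Work.MP_02e829_sb.B_LOC
import Pool.Agent.Work.MP_02e829_sb.B_MIX
import Pool.Agent.Work.MP_02e829_sb.B_ROT
import Pool.Agent.Work.MP_02e829_sb.B_SGN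
import Pool.Agent.Work.MP_02e829_sb.B_SIG
import Pool.Agent.Work.MP_02e829_sb.B_SMP
import Pool.Agent.Work.MP_02e829_sb.B_SOL
import Pool.Agent.Work.MP_02e829_sb.B_TOP
import Pool.Agent.Work.MP_02e829_sb.B_VAL
import Pool.Agent.Work.MP_02e829_sb.B_W0
import Pool.Agent.Work.MP_02e829_sb.B_WMP
import Pool.Agent.Work.MP_02e829_sb.B_YC1

/-!
# All blocks together
-/

open Set Filter Manifold Matrix MeasureTheory Metric
open scoped Topology ContDiff Manifold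

set_option autoImplicit false

universe w

namespace Pool.SXB

/-- **The theorem**, without hypotheses on blocks. -/
theorem all9 (S : Type w) [TopologicalSpace S] [ChartedSpace E2 S] [IsManifold (𝓡 2) 2 S]
    [CompactSpace S] [ConnectedSpace S] (f : ℝ → S → E3) (hf : Fam2 f)
    (hb : ∀ t ∈ Icc (0 : ℝ) 1, Hyp9 (f 0) (f t)) :
    ∀ t ∈ Icc (0 : ℝ) 1, ∃ A : E3 ≃ᵃⁱ[ℝ] E3, Proper A ∧ ∀ p, f t p = A (f 0 p) := by
  have hYC1 := blk_YC1 blk_SOL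
  have hDIF := blk_DIF hYC1
  have hMIX := blk_MIX blk_W0 hYC1 hDIF
  have hSMP := blk_SMP (blk_WMP blk_W0) (blk_ENE blk_W0) blk_CIR
  have hSIG := blk_SIG (blk_EGR hYC1 hDIF) hMIX
  have hDL7 := blk_DL7 hYC1 hDIF
  have hGD7 := blk_GD7 hYC1 hDIF hMIX blk_BND hSMP hDL7
  have hBD7 := blk_BD7 hYC1 hGD7 (blk_SD7 hYC1 hDIF hMIX hDL7) (blk_IN7 hYC1 hDIF hDL7) blk_TOP
    hDL7
  have hLP7 := blk_LP7 hGD7 hBD7 hDL7
  have hKL7 := blk_KL7 hYC1 hDIF hMIX hDL7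
  have hGLB : Stmt_GLB.{w} := blk_GLB blk_SOL hYC1 blk_LOC
  have hCTY : Stmt_CTY.{w} := blk_CTY hYC1 blk_LOC hGLB
  have hLCN : Stmt_LCN.{w} := blk_LCN hYC1 hDIF blk_LOC hGLB
  have hMX7 : Stmt_MX7.{w} := blk_MX7 hSIG hLP7 blk_PT7 blk_LOC hGLB hCTY hLCN
  have hST7 : Stmt_ST7.{w} := blk_ST7 hMX7 hSIG hKL7 blk_LOC hGLB hLCN
  exact blk_FI9 (blk_CY7 hGLB) blk_UQ7 (blk_RB7 blk_HY7 blk_UQ7) blk_RP7 (blk_NS7 hGLB) blk_AL7
    hST7 (blk_SH9 hMX7 hST7 hCTY) (blk_LR7 (blk_VAL hGLB blk_SOL))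
    (blk_DN7 hYC1 blk_LOC hGLB hLCN) blk_ROT hGLB blk_CLO blk_ELP
    (blk_SGN blk_LOC hSIG blk_CLO) S f hf hb

end Pool.SXB
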