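import Pool.Agent.Work.MP_02e829_s7.Interface

/-!
# Block AL7: the product of two motions in Cayley coordinates
-/

open Set Filter Manifold Matrix MeasureTheory Metric
open scoped Topology ContDiff Manifold

set_option autoImplicit false

universe w

namespace Pool.SXB

open Pool.FR (pd ee)

lemma AL7_c0 (a b : V3) : (a ⨯₃ b) 0 = a 1 * b 2 - a 2 * b 1 := by simp [cross_apply]

lemma AL7_c1 (a b : V3) : (a ⨯₃ b) 1 = a 2 * b 0 - a 0 * b 2 := by simp [cross_apply]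

lemma AL7_c2 (a b : V3) : (a ⨯₃ b) 2 = a 0 * b 1 - a 1 * b 0 := by simp [cross_apply]

lemma AL7_d (a b : V3) : a ⬝ᵥ b = a 0 * b 0 + a 1 * b 1 + a 2 * b 2 := by
  rw [dotProduct, Fin.sum_univ_three]

/-- the rotation with the given Cayley vector -/
lemma AL7_rot (y b e : V3) (h : b - e = y ⨯₃ (b + e)) (i : Fin 3) :
    (1 + y ⬝ᵥ y) * b i = ((1 - y ⬝ᵥ y) • e + (2 * (y ⬝ᵥ e)) • y + (2 : ℝ) • (y ⨯₃ e)) i := by
  have h0 := congrFun h 0
  have h1 := congrFun h 1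
  have h2 := congrFun h 2
  rw [AL7_c0] at h0
  rw [AL7_c1] at h1
  rw [AL7_c2] at h2
  simp only [Pi.sub_apply, Pi.add_apply] at h0 h1 h2
  rw [AL7_d, AL7_d]
  fin_cases i
  · simp only [Fin.zero_eta, Pi.add_apply, Pi.smul_apply, smul_eq_mul, AL7_c0]
    linear_combination h0 + (y 1 * h2 - y 2 * h1) + y 0 * (y 0 * h0 + y 1 * h1 + y 2 * h2)
  · simp only [Fin.mk_one, Pi.add_apply, Pi.smul_apply, smul_eq_mul, AL7_c1]
    linear_combination h1 + (y 2 * h0 - y 0 * h2) + y 1 * (y 0 * h0 + y 1 * h1 + y 2 * h2)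
  · simp only [Fin.reduceFinMk, Pi.add_apply, Pi.smul_apply, smul_eq_mul, AL7_c2]
    linear_combination h2 + (y 0 * h1 - y 1 * h0) + y 2 * (y 0 * h0 + y 1 * h1 + y 2 * h2)

/-- the quotient of two rotations -/
lemma AL7_quo (y y' b b' e : V3) (h : b - e = y ⨯₃ (b + e)) (h' : b' - e = y' ⨯₃ (b' + e)) :
    (1 + y ⬝ᵥ y') • (b - b') = (y - y' - y ⨯₃ y') ⨯₃ (b + b') := by
  have H0 := AL7_rot y b e h 0
  have H1 := AL7_rot y b e h 1
  have H2 := AL7_rot y b e h 2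
  have K0 := AL7_rot y' b' e h' 0
  have K1 := AL7_rot y' b' e h' 1
  have K2 := AL7_rot y' b' e h' 2
  simp only [AL7_d, Pi.add_apply, Pi.smul_apply, smul_eq_mul, AL7_c0, AL7_c1, AL7_c2] at H0 H1 H2
  simp only [AL7_d, Pi.add_apply, Pi.smul_apply, smul_eq_mul, AL7_c0, AL7_c1, AL7_c2] at K0 K1 K2
  have hN : (1 + (y 0 * y 0 + y 1 * y 1 + y 2 * y 2)) *
      (1 + (y' 0 * y' 0 + y' 1 * y' 1 + y' 2 * y' 2)) ≠ 0 := by
    have e1 : 0 < 1 + (y 0 * y 0 + y 1 * y 1 + y 2 * y 2) := by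
      nlinarith [mul_self_nonneg (y 0), mul_self_nonneg (y 1), mul_self_nonneg (y 2)]
    have e2 : 0 < 1 + (y' 0 * y' 0 + y' 1 * y' 1 + y' 2 * y' 2) := by
      nlinarith [mul_self_nonneg (y' 0), mul_self_nonneg (y' 1), mul_self_nonneg (y' 2)]
    exact (mul_pos e1 e2).ne'
  set n : ℝ := 1 + (y 0 * y 0 + y 1 * y 1 + y 2 * y 2) with hn
  set n' : ℝ := 1 + (y' 0 * y' 0 + y' 1 * y' 1 + y' 2 * y' 2) with hn'
  ext i
  apply mul_left_cancel₀ hN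
  fin_cases i
  · simp only [Fin.zero_eta, Pi.add_apply, Pi.sub_apply, Pi.smul_apply, smul_eq_mul, AL7_c0,
      AL7_c1, AL7_c2, AL7_d]
    linear_combination (1 + (y 0 * y' 0 + y 1 * y' 1 + y 2 * y' 2)) * (n' * H0 - n * K0) -
      ((y 1 - y' 1 - (y 2 * y' 0 - y 0 * y' 2)) * (n' * H2 + n * K2) -
       (y 2 - y' 2 - (y 0 * y' 1 - y 1 * y' 0)) * (n' * H1 + n * K1))
  · simp only [Fin.mk_one, Pi.add_apply, Pi.sub_apply, Pi.smul_apply, smul_eq_mul, AL7_c0,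
      AL7_c1, AL7_c2, AL7_d]
    linear_combination (1 + (y 0 * y' 0 + y 1 * y' 1 + y 2 * y' 2)) * (n' * H1 - n * K1) -
      ((y 2 - y' 2 - (y 0 * y' 1 - y 1 * y' 0)) * (n' * H0 + n * K0) -
       (y 0 - y' 0 - (y 1 * y' 2 - y 2 * y' 1)) * (n' * H2 + n * K2))
  · simp only [Fin.reduceFinMk, Pi.add_apply, Pi.sub_apply, Pi.smul_apply, smul_eq_mul, AL7_c0,
      AL7_c1, AL7_c2, AL7_d]
    linear_combination (1 + (y 0 * y' 0 + y 1 * y' 1 + y 2 * y' 2)) * (n' * H2 - n * K2) -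
      ((y 0 - y' 0 - (y 1 * y' 2 - y 2 * y' 1)) * (n' * H1 + n * K1) -
       (y 1 - y' 1 - (y 2 * y' 0 - y 0 * y' 2)) * (n' * H0 + n * K0))

/-- the Cayley map is onto -/
lemma AL7_onto (y f g u : V3) (hf : (2 : ℝ) • f = u - y ⨯₃ u) (hg : g - f = y ⨯₃ (g + f)) :
    g + f = u := by
  have f0 := congrFun hf 0
  have f1 := congrFun hf 1
  have f2 := congrFun hf 2
  have g0 := congrFun hg 0
  have g1 := congrFun hg 1
  have g2 := congrFun hg 2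
  rw [AL7_c0] at g0
  rw [AL7_c1] at g1
  rw [AL7_c2] at g2
  simp only [Pi.sub_apply, Pi.add_apply, Pi.smul_apply, smul_eq_mul] at f0 f1 f2 g0 g1 g2
  rw [AL7_c0] at f0
  rw [AL7_c1] at f1
  rw [AL7_c2] at f2
  have k0 : (g 0 + f 0 - u 0) = y 1 * (g 2 + f 2 - u 2) - y 2 * (g 1 + f 1 - u 1) := by
    linear_combination g0 + f0
  have k1 : (g 1 + f 1 - u 1) = y 2 * (g 0 + f 0 - u 0) - y 0 * (g 2 + f 2 - u 2) := by
    linear_combination g1 + f1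
  have k2 : (g 2 + f 2 - u 2) = y 0 * (g 1 + f 1 - u 1) - y 1 * (g 0 + f 0 - u 0) := by
    linear_combination g2 + f2
  have hs : (g 0 + f 0 - u 0) ^ 2 + (g 1 + f 1 - u 1) ^ 2 + (g 2 + f 2 - u 2) ^ 2 = 0 := by
    linear_combination (g 0 + f 0 - u 0) * k0 + (g 1 + f 1 - u 1) * k1 +
      (g 2 + f 2 - u 2) * k2
  have q0 := sq_nonneg (g 0 + f 0 - u 0)
  have q1 := sq_nonneg (g 1 + f 1 - u 1)
  have q2 := sq_nonneg (g 2 + f 2 - u 2)
  have z0 : g 0 + f 0 - u 0 = 0 := pow_eq_zero_iff (two_ne_zero) |>.1 (by linarith)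
  have z1 : g 1 + f 1 - u 1 = 0 := pow_eq_zero_iff (two_ne_zero) |>.1 (by linarith)
  have z2 : g 2 + f 2 - u 2 = 0 := pow_eq_zero_iff (two_ne_zero) |>.1 (by linarith)
  ext i
  fin_cases i
  · simp only [Fin.zero_eta, Pi.add_apply]
    linarith
  · simp only [Fin.mk_one, Pi.add_apply]
    linarith
  · simp only [Fin.reduceFinMk, Pi.add_apply]
    linarith

lemma AL7_sub {X Y : E3 → V3} {y w : V3}
    (h : ∀ z : E3, X z - Y z = y ⨯₃ (X z + Y z) + (2 : ℝ) • w) (e : E3) :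
    (X e - X 0) - (Y e - Y 0) = y ⨯₃ ((X e - X 0) + (Y e - Y 0)) := by
  have h1 := h e
  have h0 := h 0
  have e2 : y ⨯₃ ((X e - X 0) + (Y e - Y 0)) = y ⨯₃ (X e + Y e) - y ⨯₃ (X 0 + Y 0) := by
    rw [← map_sub]
    congr 1
    abel
  rw [e2]
  calc (X e - X 0) - (Y e - Y 0) = (X e - Y e) - (X 0 - Y 0) := by abel
    _ = (y ⨯₃ (X e + Y e) + (2 : ℝ) • w) - (y ⨯₃ (X 0 + Y 0) + (2 : ℝ) • w) := by rw [h1, h0]
    _ = _ := by abel

/-- the scalar identity -/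
lemma AL7_fin (y y' w w' q r X X' : V3) (t : ℝ) (hX : X = y ⨯₃ X + (2 : ℝ) • w)
    (hX' : X' = y' ⨯₃ X' + (2 : ℝ) • w') (hG : X - X' = q ⨯₃ (X + X') + (2 : ℝ) • r)
    (hD : y - y' - y ⨯₃ y' = t • q) : (y - y') ⬝ᵥ (w - w') = t * (q ⬝ᵥ r) := by
  have a0 := congrFun hX 0
  have a1 := congrFun hX 1
  have a2 := congrFun hX 2
  have b0 := congrFun hX' 0
  have b1 := congrFun hX' 1
  have b2 := congrFun hX' 2
  have g0 := congrFun hG 0
  have g1 := congrFun hG 1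
  have g2 := congrFun hG 2
  have d0 := congrFun hD 0
  have d1 := congrFun hD 1
  have d2 := congrFun hD 2
  simp only [Pi.add_apply, Pi.sub_apply, Pi.smul_apply, smul_eq_mul, AL7_c0, AL7_c1, AL7_c2] at *
  rw [AL7_d, AL7_d]
  simp only [Pi.sub_apply]
  linear_combination (1 / 2 : ℝ) * ((X 0 - X' 0) * d0 + (X 1 - X' 1) * d1 + (X 2 - X' 2) * d2 -
    ((y 0 - y' 0) * (a0 - b0) + (y 1 - y' 1) * (a1 - b1) + (y 2 - y' 2) * (a2 - b2)) +
    t * (q 0 * g0 + q 1 * g1 + q 2 * g2))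

theorem blk_AL7 : Stmt_AL7 := by
  intro B B' P P' hB hB' hpos ε hS
  obtain ⟨Q, hQ, hQpos⟩ := hS
  have hG : ∀ z : E3, L3 (B z) - L3 (B' z) = Q.1 ⨯₃ (L3 (B z) + L3 (B' z)) + (2 : ℝ) • Q.2 := by
    intro z
    have h := hQ (B' z)
    have e : (B'.symm.trans B) (B' z) = B z := by simp
    rw [e] at h
    exact h
  have hlin : ∀ u : V3, (1 + P.1 ⬝ᵥ P'.1) • (Q.1 ⨯₃ u) = (P.1 - P'.1 - P.1 ⨯₃ P'.1) ⨯₃ u := by
    intro u
    let f : V3 := (1 / 2 : ℝ) • (u - Q.1 ⨯₃ u)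
    let e : E3 := B'.symm ((EuclideanSpace.equiv (Fin 3) ℝ).symm (f + L3 (B' 0)))
    have he : L3 (B' e) = f + L3 (B' 0) := by
      change L3 (B' (B'.symm _)) = _
      rw [AffineIsometryEquiv.apply_symm_apply]
      exact (EuclideanSpace.equiv (Fin 3) ℝ).apply_symm_apply _
    have hb' : L3 (B' e) - L3 (B' 0) = f := by
      rw [he]
      abel
    have hgf := AL7_sub (X := fun z => L3 (B z)) (Y := fun z => L3 (B' z)) hG e
    have h1 := AL7_sub (X := fun z => L3 (B z)) (Y := fun z => L3 z) hB e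
    have h2 := AL7_sub (X := fun z => L3 (B' z)) (Y := fun z => L3 z) hB' e
    have h3 := AL7_quo P.1 P'.1 (L3 (B e) - L3 (B 0)) (L3 (B' e) - L3 (B' 0)) (L3 e - L3 0) h1 h2
    rw [hb'] at hgf h3
    have hu : (L3 (B e) - L3 (B 0)) + f = u := by
      apply AL7_onto Q.1 f _ u _ hgf
      change (2 : ℝ) • ((1 / 2 : ℝ) • (u - Q.1 ⨯₃ u)) = _
      rw [smul_smul]
      norm_num
    rw [hgf, hu] at h3
    exact h3
  have hD : P.1 - P'.1 - P.1 ⨯₃ P'.1 = (1 + P.1 ⬝ᵥ P'.1) • Q.1 := by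
    have u0 := hlin ![1, 0, 0]
    have u1 := hlin ![0, 1, 0]
    have c1 := congrFun u0 1
    have c2 := congrFun u0 2
    have c3 := congrFun u1 2
    rw [Pi.smul_apply, AL7_c1, AL7_c1] at c1
    rw [Pi.smul_apply, AL7_c2, AL7_c2] at c2 c3
    simp at c1 c2 c3
    ext i
    fin_cases i
    · simp
      linarith
    · simp
      linarith
    · simp
      linarith
  have hX := hB 0
  have hX' := hB' 0
  have hL0 : L3 0 = 0 := map_zero _
  rw [hL0, sub_zero, add_zero] at hX hX'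
  have h := AL7_fin P.1 P'.1 P.2 P'.2 Q.1 Q.2 (L3 (B 0)) (L3 (B' 0)) _ hX hX' (hG 0) hD
  rw [h]
  have e : ε * ((1 + P.1 ⬝ᵥ P'.1) * (Q.1 ⬝ᵥ Q.2)) = (1 + P.1 ⬝ᵥ P'.1) * (ε * (Q.1 ⬝ᵥ Q.2)) := by
    ring
  rw [e]
  exact mul_pos hpos hQpos

end Pool.SXB
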