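import Pool.Agent.Work.MP_02e829_s7.Interface

/-!
# Block CM7: one open connected set
-/

open Set Filter Manifold Matrix MeasureTheory Metric
open scoped Topology ContDiff Manifold

set_option autoImplicit false

universe w

namespace Pool.SXB

open Pool.FR (pd ee)

/-- two short vectors are not opposite -/
lemma CM7_dot (y y' : V3) (h : y ⬝ᵥ y < 1) (h' : y' ⬝ᵥ y' < 1) : 0 < 1 + y ⬝ᵥ y' := by
  have h1 : 0 ≤ (y + y') ⬝ᵥ (y + y') := by
    simp only [dotProduct]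
    exact Finset.sum_nonneg fun i _ => mul_self_nonneg _
  rw [add_dotProduct, dotProduct_add, dotProduct_add, dotProduct_comm y' y] at h1
  linarith

theorem blk_CM7 (hCY7 : Stmt_CY7.{w}) (hUQ7 : Stmt_UQ7) (hRB7 : Stmt_RB7) (hRP7 : Stmt_RP7)
    (hRQ7 : Stmt_RQ7) (hNS7 : Stmt_NS7.{w}) (hAL7 : Stmt_AL7) (hST7 : Stmt_ST7.{w})
    (hSH7 : Stmt_SH7.{w}) : Stmt_CM7.{w} := by
  intro S _ _ _ _ f g hfg C hC hCc hE H hH hCar
  obtain ⟨hpr, hH⟩ := hH
  -- the motion at the points of the frontier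
  have hcay : ∀ p ∈ frontier C, ∃ B ∈ H, Cay B (Mo f g p) := by
    intro p hp
    obtain ⟨B, hB, h1, h2⟩ := hCar p hp
    exact ⟨B, hB, hCY7 S f g hfg B (hpr B hB) p h1 h2⟩
  -- a functional which is constant on the motions
  have key : (∃ (a b : V3) (d c : ℝ), ¬ (a = 0 ∧ b = 0 ∧ d = 0) ∧
      ∀ B ∈ H, ∀ P, Cay B P → LP a b d P = c) → ∀ q ∈ C, LC f g q := by
    rintro ⟨a, b, d, c, hne, hL⟩
    refine hST7 S f g hfg C hC hCc hE a b d c hne ?_
    intro p hp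
    obtain ⟨B, hB, h1⟩ := hcay p hp
    exact hL B hB _ h1
  rcases hH with h7 | ⟨e, he, hpar⟩ | ⟨x, hx⟩ | ⟨ε, hfin, hscr⟩
  · exact key (hRB7 H h7)
  · exact key (hRP7 H e he hpar)
  · exact key (hRQ7 H x hx)
  · have hQ : (Mo f g '' frontier C).Finite := by
      refine (hfin.biUnion (t := fun B => {P | Cay B P}) ?_).subset ?_
      · intro B _
        refine Set.Subsingleton.finite ?_
        intro P hP P' hP'
        exact hUQ7 B P P' hP hP'
      · rintro _ ⟨p, hp, rfl⟩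
        obtain ⟨B, hB, h1⟩ := hcay p hp
        exact mem_biUnion hB h1
    refine hSH7 S f g hfg C hC hCc hE (Mo f g '' frontier C) ε hQ ?_
      fun p hp => mem_image_of_mem _ hp
    rintro _ ⟨p, hp, rfl⟩ _ ⟨p', hp', rfl⟩ hne
    obtain ⟨B, hB, h1⟩ := hcay p hp
    obtain ⟨B', hB', h1'⟩ := hcay p' hp'
    have hBB : B ≠ B' := by
      rintro rfl
      exact hne (hUQ7 B _ _ h1 h1')
    refine hAL7 B B' _ _ h1 h1' ?_ ε (hscr B hB B' hB' hBB)
    exact CM7_dot _ _ (hNS7 S f g hfg p) (hNS7 S f g hfg p')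

end Pool.SXB
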