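import Pool.Agent.Work.MP_02e829_s7.Interface
import Pool.Agent.Work.MP_02e829_sb.B_FIN
import Pool.Agent.Work.MP_02e829_sb.B_STA

/-!
# Block FI7: the theorem
-/

open Set Filter Manifold Matrix MeasureTheory Metric
open scoped Topology ContDiff Manifold

set_option autoImplicit false

universe w

namespace Pool.SXB

open Pool.FR (pd ee)

lemma FI7_dense {X : Type w} [TopologicalSpace X] (P : Set X) : Dense (P ∪ interior Pᶜ) := by
  intro x
  rw [closure_union]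
  by_cases hx : x ∈ closure P
  · exact Or.inl hx
  · right
    apply subset_closure
    rw [interior_compl]
    exact hx

section FI7

variable {S : Type w} [TopologicalSpace S] [ChartedSpace E2 S] [IsManifold (𝓡 2) 2 S]

lemma FI7_step (hCM7 : Stmt_CM7.{w}) (hLR7 : Stmt_LR7.{w}) (hDN7 : Stmt_DN7.{w})
    (hSP7 : Stmt_SP7) (hROT : Stmt_ROT) (hGLB : Stmt_GLB.{w}) (hELP : Stmt_ELP.{w})
    (hSGN : Stmt_SGN.{w}) [CompactSpace S] [ConnectedSpace S] {f : ℝ → S → E3} (hf : Fam2 f)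
    (hb : ∀ t ∈ Icc (0 : ℝ) 1, Hyp7 (f 0) (f t))
    {s t : ℝ} (hs : s ∈ Icc (0 : ℝ) 1) (ht : t ∈ Icc (0 : ℝ) 1) (hM : MPair (f s) (f t))
    (hT : FIN_T f s) : FIN_T f t := by
  obtain ⟨A, hA, hAf⟩ := hT
  have h0 : (0 : ℝ) ∈ Icc (0 : ℝ) 1 := ⟨le_rfl, zero_le_one⟩
  obtain ⟨hb1, hb2⟩ := hb t ht
  -- locally constant at the points of positive curvature
  have h1 : ∀ q, PosCurv (f 0) q → LC (f s) (f t) q := by
    intro q hq
    obtain ⟨C, hC, hCc, hqC, hCP, H, hH, hCar⟩ := hb1 q hq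
    refine hCM7 S (f s) (f t) hM C hC hCc ?_ _ (hSP7 H A hA hH) ?_ q hqC
    · intro p hp
      exact hSGN S f hf p (hELP S (f 0) (hf.smooth 0 h0) (hf.imm 0 h0) p (hCP p hp)) s hs t ht
    · intro p hp
      obtain ⟨B, hB, h2, h3⟩ := hCar p hp
      refine ⟨A.symm.trans B, mem_image_of_mem _ hB, ?_, fun v => ?_⟩
      · rw [h2, hAf p]
        change _ = B (A.symm (A (f 0 p)))
        rw [AffineIsometryEquiv.symm_apply_apply]
      · rw [h3 v, FIN_dvec (hf.smooth 0 h0) A hAf p v]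
        change _ = B.linearIsometryEquiv
          (A.linearIsometryEquiv.symm (A.linearIsometryEquiv (FRD.dvec (f 0) p v)))
        rw [LinearIsometryEquiv.symm_apply_apply]
  -- locally constant at the interior points of the complement
  have h2 : ∀ q ∈ interior {p | ¬ PosCurv (f 0) p}, LC (f s) (f t) q := by
    intro q hq
    obtain ⟨B, hB, hev⟩ := hb2 q hq
    refine hLR7 S (f s) (f t) hM (A.symm.trans B) (FIN_trans (FIN_symm hA) hB) q ?_
    filter_upwards [hev] with p hp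
    rw [hp, hAf p]
    change _ = B (A.symm (A (f 0 p)))
    rw [AffineIsometryEquiv.symm_apply_apply]
  have h3 : ∀ q, LC (f s) (f t) q := by
    refine hDN7 S (f s) (f t) hM _ (FI7_dense {p | PosCurv (f 0) p}) ?_
    rintro q (hq | hq)
    · exact h1 q hq
    · exact h2 q hq
  obtain ⟨c, hc⟩ := STA_const (P := Mo (f s) (f t)) h3
  obtain ⟨A', hA', hA'z⟩ := hROT c.1 c.2
  refine ⟨A.trans A', FIN_trans hA hA', fun p => ?_⟩
  have h4 := (hGLB S (f s) (f t) hM).2.2 p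
  have h5 : Yg (f s) (f t) p = c.1 := congrArg Prod.fst (hc p)
  have h6 : Wg (f s) (f t) p = c.2 := congrArg Prod.snd (hc p)
  rw [h5, h6] at h4
  have h7 := hA'z (f s p) (f t p) h4
  rw [h7, hAf p]
  rfl

end FI7

theorem blk_FI7 (hCM7 : Stmt_CM7.{w}) (hLR7 : Stmt_LR7.{w}) (hDN7 : Stmt_DN7.{w})
    (hSP7 : Stmt_SP7) (hROT : Stmt_ROT) (hGLB : Stmt_GLB.{w}) (hCLO : Stmt_CLO.{w})
    (hELP : Stmt_ELP.{w}) (hSGN : Stmt_SGN.{w}) : Stmt_FI7.{w} := by
  intro S _ _ _ _ _ f hf hb t ht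
  set T : Set (Icc (0 : ℝ) 1) := {s | FIN_T f s} with hT
  have hev : ∀ s : Icc (0 : ℝ) 1, ∀ᶠ r : Icc (0 : ℝ) 1 in 𝓝 s, (FIN_T f r ↔ FIN_T f s) := by
    intro s
    have h1 : Tendsto (Subtype.val : Icc (0 : ℝ) 1 → ℝ) (𝓝 s) (𝓝[Icc (0 : ℝ) 1] (s : ℝ)) :=
      tendsto_nhdsWithin_iff.2 ⟨continuous_subtype_val.tendsto s,
        Eventually.of_forall fun x => x.2⟩
    filter_upwards [h1.eventually (hCLO S f hf s s.2)] with r hr
    exact ⟨fun h => FI7_step hCM7 hLR7 hDN7 hSP7 hROT hGLB hELP hSGN hf hb r.2 s.2 hr.2 h,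
      fun h => FI7_step hCM7 hLR7 hDN7 hSP7 hROT hGLB hELP hSGN hf hb s.2 r.2 hr.1 h⟩
  have hcl : IsClopen T := by
    constructor
    · rw [← isOpen_compl_iff, isOpen_iff_mem_nhds]
      intro s hs
      filter_upwards [hev s] with r hr h
      exact hs (hr.1 h)
    · rw [isOpen_iff_mem_nhds]
      intro s hs
      filter_upwards [hev s] with r hr
      exact hr.2 hs
  have : ConnectedSpace (Icc (0 : ℝ) 1) :=
    Subtype.connectedSpace (isConnected_Icc (zero_le_one' ℝ))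
  have hu := hcl.eq_univ ⟨⟨0, ⟨le_rfl, zero_le_one⟩⟩, AffineIsometryEquiv.refl ℝ E3, FIN_refl,
    fun p => rfl⟩
  have h5 : (⟨t, ht⟩ : Icc (0 : ℝ) 1) ∈ T := hu ▸ mem_univ _
  exact h5

end Pool.SXB
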