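import Pool.Agent.Work.MP_02e829_s7.Interface

open Set Filter Manifold Matrix MeasureTheory Metric
open scoped Topology ContDiff Manifold

set_option autoImplicit false

namespace Pool.SXB

theorem RQ7_triple (s δ y w x : V3) (h : x = y ⨯₃ s + (2 : ℝ) • w) :
    (s ⨯₃ δ) ⬝ᵥ y + ((2 : ℝ) • δ) ⬝ᵥ w = δ ⬝ᵥ x := by
  rw [h]
  simp [cross_apply, dotProduct, Fin.sum_univ_three]
  ring

theorem blk_RQ7 : Stmt_RQ7 := by
  intro H x hH
  have hone : (2 : ℝ) • (![1, 0, 0] : V3) ≠ 0 := by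
    intro h
    have := congrFun h 0
    simp at this
  by_cases hex : ∃ B, B ∈ H
  · obtain ⟨B0, hB0⟩ := hex
    refine ⟨(L3 (B0 x) + L3 x) ⨯₃ ![1, 0, 0], (2 : ℝ) • ![1, 0, 0], 0,
      ![1, 0, 0] ⬝ᵥ (L3 (B0 x) - L3 x), fun h => hone h.2.1, ?_⟩
    intro B hB P hP
    have h1 := hP x
    rw [hH B hB B0 hB0] at h1
    unfold LP
    rw [RQ7_triple _ _ _ _ _ h1]
    ring
  · refine ⟨0, (2 : ℝ) • ![1, 0, 0], 0, 0, fun h => hone h.2.1, ?_⟩
    intro B hB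
    exact absurd ⟨B, hB⟩ hex

end Pool.SXB
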