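import Pool.Agent.Work.MP_02e829_s7.Hull9

/-!
# Block SH9: finitely many motions, any two of which differ by a screw of the same hand (weakly)
-/

open Set Filter Manifold Matrix MeasureTheory Metric
open scoped Topology ContDiff Manifold

set_option autoImplicit false

universe w

namespace Pool.SXB

open Hull9

/-- SH9: as SH7, with weak inequalities; the motion is locally constant on a dense subset. -/
def Stmt_SH9 : Prop :=
  ∀ (S : Type w) [TopologicalSpace S] [ChartedSpace E2 S] [IsManifold (𝓡 2) 2 S]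
    [CompactSpace S] (f g : S → E3), MPair f g → ∀ C : Set S, IsOpen C → IsPreconnected C →
    (∀ q ∈ C, Ell f g q) → ∀ (Q : Set (V3 × V3)) (ε : ℝ), ε ≠ 0 → Q.Finite →
    (∀ P ∈ Q, ∀ P' ∈ Q, 0 ≤ ε * ((P.1 - P'.1) ⬝ᵥ (P.2 - P'.2))) →
    (∀ p ∈ frontier C, Mo f g p ∈ Q) → ∀ q ∈ C, q ∈ closure {q' | LC f g q'}

theorem blk_SH9 (hMX : Stmt_MX7.{w}) (hST : Stmt_ST7.{w}) (hCT : Stmt_CTY.{w}) :
    Stmt_SH9.{w} := by
  classical
  intro S _ _ _ _ f g hP C hO hC hE Q ε hε hQ hsg hfr q hq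
  by_contra hcon
  have hcont : Continuous (Mo f g) := by
    obtain ⟨h2, h3⟩ := hCT S f g hP
    exact h2.prodMk h3
  have hLPc : ∀ (a b : V3) (d : ℝ), Continuous fun q' => LP a b d (Mo f g q') := by
    intro a b d
    have h1 : Continuous fun q' => (Mo f g q').1 := continuous_fst.comp hcont
    have h2 : Continuous fun q' => (Mo f g q').2 := continuous_snd.comp hcont
    have h3 : (fun q' => LP a b d (Mo f g q')) = fun q' => (∑ i, a i * (Mo f g q').1 i) +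
      (∑ i, b i * (Mo f g q').2 i) + d * ∑ i, (Mo f g q').1 i * (Mo f g q').2 i := rfl
    rw [h3]
    fun_prop
  -- the hull property
  have h1 : ∀ q' ∈ C, ∀ (a b : V3) (d : ℝ), ∃ P ∈ Q, LP a b d (Mo f g q') ≤ LP a b d P := by
    intro q' hq' a b d
    by_contra hno
    push Not at hno
    refine hcon (subset_closure ?_)
    exact hMX S f g hP C hO hC hE a b d q' hq' (fun p hp => hno _ (hfr p hp)) q hq
  obtain ⟨N, Φ, -, hΦ⟩ := hQ.fin_param
  have hΦQ : ∀ i, Φ i ∈ Q := fun i => hΦ ▸ mem_range_self i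
  have hhull : ∀ q' ∈ C, ∃ μ : Fin N → ℝ, (∀ i, 0 ≤ μ i) ∧ ∑ i, μ i = 1 ∧
      ∑ i, μ i • (Φ i).1 = (Mo f g q').1 ∧ ∑ i, μ i • (Φ i).2 = (Mo f g q').2 ∧
      ∑ i, μ i * ((Φ i).1 ⬝ᵥ (Φ i).2) = (Mo f g q').1 ⬝ᵥ (Mo f g q').2 := by
    intro q' hq'
    by_contra hno
    obtain ⟨a, b, c, hlt⟩ := STH_sep Φ _ _ hno
    obtain ⟨P, hPQ, hle⟩ := h1 q' hq' a b c
    rw [← hΦ] at hPQ
    obtain ⟨i, rfl⟩ := hPQ
    exact absurd (hlt i) (not_lt.2 hle)
  -- the admissible sets and their functionals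
  obtain ⟨AdmC, hAdmC⟩ : ∃ AdmC : Finset (Fin N) → Prop, AdmC = fun K => ∃ (a b : V3) (c d : ℝ),
      ¬ (a = 0 ∧ b = 0 ∧ c = 0) ∧
      ∀ i ∈ K, a ⬝ᵥ (Φ i).1 + b ⬝ᵥ (Φ i).2 + c * ((Φ i).1 ⬝ᵥ (Φ i).2) = d := ⟨_, rfl⟩
  have hfun : ∀ K : Finset (Fin N), ∃ (a b : V3) (c d : ℝ), AdmC K →
      ¬ (a = 0 ∧ b = 0 ∧ c = 0) ∧
      ∀ i ∈ K, a ⬝ᵥ (Φ i).1 + b ⬝ᵥ (Φ i).2 + c * ((Φ i).1 ⬝ᵥ (Φ i).2) = d := by
    intro K
    by_cases hK : AdmC K
    · have hK' := hK
      rw [hAdmC] at hK'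
      obtain ⟨a, b, c, d, h1⟩ := hK'
      exact ⟨a, b, c, d, fun _ => h1⟩
    · exact ⟨0, 0, 0, 0, fun h1 => absurd h1 hK⟩
  choose fa fb fc fd hfd using hfun
  obtain ⟨E, hEdef⟩ : ∃ E : Finset (Fin N) → Set S, E = fun K =>
      if AdmC K then {q' | LP (fa K) (fb K) (fc K) (Mo f g q') = fd K} else ∅ := ⟨_, rfl⟩
  have hEcl : ∀ K ∈ (Finset.univ : Finset (Finset (Fin N))), IsClosed (E K) := by
    intro K _
    rw [hEdef]
    beta_reduce
    split_ifs
    · exact isClosed_eq (hLPc _ _ _) continuous_const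
    · exact isClosed_empty
  have hcov : ∀ q' ∈ C, ∃ K ∈ (Finset.univ : Finset (Finset (Fin N))), q' ∈ E K := by
    intro q' hq'
    obtain ⟨μ, h1, h2, h3, h4, h5⟩ := hhull q' hq'
    have hs := STH_zero Φ _ _ μ h2 h3 h4 h5
    have hs' : ∑ i, ∑ j, μ i * μ j * (ε * QQ (Φ i) (Φ j)) = 0 := by
      have e1 : ∀ i j, μ i * μ j * (ε * QQ (Φ i) (Φ j)) = ε * (μ i * μ j * QQ (Φ i) (Φ j)) :=
        fun i j => by ring
      simp only [e1, ← Finset.mul_sum]
      rw [hs, mul_zero]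
    have hnn : ∀ i j, 0 ≤ μ i * μ j * (ε * QQ (Φ i) (Φ j)) := fun i j =>
      mul_nonneg (mul_nonneg (h1 i) (h1 j)) (hsg _ (hΦQ i) _ (hΦQ j))
    obtain ⟨a, b, c, d, h7, h8⟩ := TWI_clique Φ μ fun i j hi hj => by
      have k2 := (Finset.sum_eq_zero_iff_of_nonneg (fun i _ =>
        Finset.sum_nonneg fun j _ => hnn i j)).1 hs' i (Finset.mem_univ i)
      have k3 := (Finset.sum_eq_zero_iff_of_nonneg (fun j _ => hnn i j)).1 k2 j
        (Finset.mem_univ j)
      exact (mul_eq_zero.1 ((mul_eq_zero.1 k3).resolve_left (mul_pos hi hj).ne')).resolve_left hε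
    have hK : AdmC (Finset.univ.filter fun i => 0 < μ i) := by
      rw [hAdmC]
      exact ⟨a, b, c, d, h7, fun i hi => h8 i (Finset.mem_filter.1 hi).2⟩
    refine ⟨Finset.univ.filter fun i => 0 < μ i, Finset.mem_univ _, ?_⟩
    rw [hEdef]
    beta_reduce
    rw [if_pos hK]
    refine STH_value Φ _ _ μ h1 h2 h3 h4 h5 _ _ _ _ fun i hi => ?_
    exact (hfd _ hK).2 i (Finset.mem_filter.2 ⟨Finset.mem_univ i, hi⟩)
  -- an open set without locally constant points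
  rw [_root_.mem_closure_iff] at hcon
  push Not at hcon
  obtain ⟨V, hV, hqV, hVe⟩ := hcon
  obtain ⟨K, -, V', hV'V, hV'o, ⟨z, hz⟩, hV'E⟩ := STG_cover Finset.univ E hEcl (V ∩ C)
    (hV.inter hO) ⟨q, hqV, hq⟩ fun z hz => hcov z hz.2
  have hK : AdmC K := by
    by_contra hK
    have h2 := hV'E hz
    rw [hEdef] at h2
    beta_reduce at h2
    rw [if_neg hK] at h2
    exact h2
  have hval : V' ⊆ {q' | LP (fa K) (fb K) (fc K) (Mo f g q') = fd K} := by
    intro q' hq'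
    have h2 := hV'E hq'
    rw [hEdef] at h2
    beta_reduce at h2
    rw [if_pos hK] at h2
    exact h2
  have hvalc : closure V' ⊆ {q' | LP (fa K) (fb K) (fc K) (Mo f g q') = fd K} :=
    closure_minimal hval (isClosed_eq (hLPc _ _ _) continuous_const)
  have : LocallyConnectedSpace S := ChartedSpace.locallyConnectedSpace E2 S
  have hLC : LC f g z := by
    refine hST S f g hP (connectedComponentIn V' z) hV'o.connectedComponentIn
      isPreconnected_connectedComponentIn ?_ (fa K) (fb K) (fc K) (fd K) (hfd K hK).1 ?_ z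
      (mem_connectedComponentIn hz)
    · intro q' hq'
      exact hE q' (hV'V (connectedComponentIn_subset _ _ hq')).2
    · intro p hp
      exact hvalc (closure_mono (connectedComponentIn_subset _ _) (frontier_subset_closure hp))
  have h3 : z ∈ V ∩ {q' | LC f g q'} := ⟨(hV'V hz).1, hLC⟩
  rw [hVe] at h3
  exact h3

end Pool.SXB
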