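import Pool.Agent.Work.MP_02e829_s7.Interface

/-! Block SP7 of MP_02e829_gt (rigid bodies adjacent to the elliptic part), helper56. -/

open Set Filter Manifold Matrix MeasureTheory Metric
open scoped Topology ContDiff Manifold

set_option autoImplicit false

namespace Pool.SXB

open Pool.FR (pd ee)

lemma SP7_trans {A B : E3 ≃ᵃⁱ[ℝ] E3} (hA : Proper A) (hB : Proper B) : Proper (A.trans B) := by
  have h1 : ((A.trans B).linearIsometryEquiv.toLinearEquiv : E3 →ₗ[ℝ] E3) =
      (B.linearIsometryEquiv.toLinearEquiv : E3 →ₗ[ℝ] E3) ∘ₗ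
        (A.linearIsometryEquiv.toLinearEquiv : E3 →ₗ[ℝ] E3) := rfl
  rw [Proper, h1, LinearMap.det_comp]
  exact mul_pos hB hA

lemma SP7_symm {A : E3 ≃ᵃⁱ[ℝ] E3} (hA : Proper A) : Proper A.symm := by
  have h2 : ((A.symm).linearIsometryEquiv.toLinearEquiv : E3 →ₗ[ℝ] E3) ∘ₗ
      (A.linearIsometryEquiv.toLinearEquiv : E3 →ₗ[ℝ] E3) = LinearMap.id := by
    ext v
    change A.linearIsometryEquiv.symm (A.linearIsometryEquiv v) _ = _
    rw [LinearIsometryEquiv.symm_apply_apply]
    rfl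
  have h3 := congrArg LinearMap.det h2
  rw [LinearMap.det_comp, LinearMap.det_id] at h3
  have h4 : 0 < LinearMap.det (A.linearIsometryEquiv.toLinearEquiv : E3 →ₗ[ℝ] E3) := hA
  rw [Proper]
  by_contra hn
  push Not at hn
  have := mul_nonpos_of_nonpos_of_nonneg hn h4.le
  linarith

theorem SP7_lin (A B : E3 ≃ᵃⁱ[ℝ] E3) (e : E3) :
    (A.symm.trans B).linearIsometryEquiv (A.linearIsometryEquiv e) = B.linearIsometryEquiv e := by
  show B.linearIsometryEquiv (A.linearIsometryEquiv.symm (A.linearIsometryEquiv e)) = _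
  rw [LinearIsometryEquiv.symm_apply_apply]

theorem SP7_pt (A B : E3 ≃ᵃⁱ[ℝ] E3) (x : E3) : (A.symm.trans B) (A x) = B x := by
  show B (A.symm (A x)) = _
  rw [AffineIsometryEquiv.symm_apply_apply]

theorem SP7_rel (A B B' : E3 ≃ᵃⁱ[ℝ] E3) :
    (A.symm.trans B').symm.trans (A.symm.trans B) = B'.symm.trans B := by
  ext1 z
  show B (A.symm (A (B'.symm z))) = B (B'.symm z)
  rw [AffineIsometryEquiv.symm_apply_apply]

theorem blk_SP7 : Stmt_SP7 := by
  intro H A hA hH
  obtain ⟨hP, hH⟩ := hH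
  refine ⟨?_, ?_⟩
  · rintro _ ⟨B, hB, rfl⟩
    exact SP7_trans (SP7_symm hA) (hP B hB)
  · rcases hH with h | ⟨e, he, h⟩ | ⟨x, h⟩ | ⟨ε, hf, h⟩
    · left
      exact (encard_image_le _ _).trans h
    · right
      left
      refine ⟨A.linearIsometryEquiv e, ?_, ?_⟩
      · intro h0
        exact he ((LinearIsometryEquiv.map_eq_zero_iff _).mp h0)
      · rintro _ ⟨B, hB, rfl⟩ _ ⟨B', hB', rfl⟩
        show (A.symm.trans B).linearIsometryEquiv (A.linearIsometryEquiv e) =
          (A.symm.trans B').linearIsometryEquiv (A.linearIsometryEquiv e)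
        rw [SP7_lin, SP7_lin]
        exact h B hB B' hB'
    · right
      right
      left
      refine ⟨A x, ?_⟩
      rintro _ ⟨B, hB, rfl⟩ _ ⟨B', hB', rfl⟩
      show (A.symm.trans B) (A x) = (A.symm.trans B') (A x)
      rw [SP7_pt, SP7_pt]
      exact h B hB B' hB'
    · right
      right
      right
      refine ⟨ε, hf.image _, ?_⟩
      rintro _ ⟨B, hB, rfl⟩ _ ⟨B', hB', rfl⟩ hne
      show Screw ε ((A.symm.trans B').symm.trans (A.symm.trans B))
      rw [SP7_rel]
      exact h B hB B' hB' (fun h0 => hne (by rw [h0]))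

end Pool.SXB
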