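import Pool.Agent.Work.MP_02e829_s7.Lin8
import Pool.Agent.Work.MP_02e829_s7.B_CM7
import Pool.Agent.Work.MP_02e829_s7.B_FI7
import Pool.Agent.Work.MP_02e829_s7.B_SP7

/-!
# The theorem on the first order motions of the boundary of the elliptic part
-/

open Set Filter Manifold Matrix MeasureTheory Metric
open scoped Topology ContDiff Manifold

set_option autoImplicit false

universe w

namespace Pool.SXB

open Pool.FR (pd ee)

section defs

variable {S : Type w} [TopologicalSpace S] [ChartedSpace E2 S]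

/-- the proper motions which carry a point of `P`, with its tangent plane, from `f` to `g` -/
def Mset (f g : S → E3) (P : Set S) : Set (E3 ≃ᵃⁱ[ℝ] E3) :=
  {B | Proper B ∧ ∃ p ∈ P, g p = B (f p) ∧
    ∀ v, FRD.dvec g p v = B.linearIsometryEquiv (FRD.dvec f p v)}

end defs

/-- special sets of motions -/
def Special8 (H : Set (E3 ≃ᵃⁱ[ℝ] E3)) : Prop :=
  H.encard ≤ 7 ∨
  ((fun B : E3 ≃ᵃⁱ[ℝ] E3 => B.linearIsometryEquiv) '' H).encard ≤ 3 ∨
  (∃ e : E3, e ≠ 0 ∧ ∀ B ∈ H, ∀ B' ∈ H, B.linearIsometryEquiv e = B'.linearIsometryEquiv e) ∨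
  (∃ B' ∈ H, ∀ B ∈ H, (∃ x, B x = B' x) ∨ B.linearIsometryEquiv = B'.linearIsometryEquiv) ∨
  (∃ ε : ℝ, H.Finite ∧ ∀ B ∈ H, ∀ B' ∈ H, B ≠ B' → Screw ε (B'.symm.trans B))

section FI8

variable {S : Type w} [TopologicalSpace S] [ChartedSpace E2 S] [IsManifold (𝓡 2) 2 S]

/-- every point is carried by a proper motion -/
lemma EX8 (hROT : Stmt_ROT) (hGLB : Stmt_GLB.{w}) {f g : S → E3} (h : MPair f g) (P : Set S) :
    Carry f g (Mset f g P) P := by
  intro p hp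
  obtain ⟨-, h2, h3⟩ := hGLB S f g h
  obtain ⟨A, hA, hAz⟩ := hROT (Yg f g p) (Wg f g p)
  have h4 : g p = A (f p) := hAz _ _ (h3 p)
  have h5 : ∀ v, FRD.dvec g p v = A.linearIsometryEquiv (FRD.dvec f p v) := by
    intro v
    have h6 : g p + FRD.dvec g p v = A (f p + FRD.dvec f p v) := by
      refine hAz _ _ ?_
      have e1 := h3 p
      have e2 := h2 p v
      simp only [map_add]
      have e3 : L3 (g p) + L3 (FRD.dvec g p v) - (L3 (f p) + L3 (FRD.dvec f p v)) =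
          (L3 (g p) - L3 (f p)) + (L3 (FRD.dvec g p v) - L3 (FRD.dvec f p v)) := by abel
      rw [e3, e1, e2]
      simp only [map_add]
      abel
    have h7 := A.map_vadd (f p) (FRD.dvec f p v)
    simp only [vadd_eq_add] at h7
    rw [add_comm (f p), h7, ← h4, add_comm (g p)] at h6
    exact add_right_cancel h6
  exact ⟨A, ⟨hA, p, hp, h4, h5⟩, h4, h5⟩

omit [IsManifold (𝓡 2) 2 S] in
/-- change of the first surface -/
lemma MS8 {f f' g : S → E3} (hf : ContMDiff (𝓡 2) (𝓡 3) 2 f) {A : E3 ≃ᵃⁱ[ℝ] E3} (hA : Proper A)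
    (hAf : ∀ p, f' p = A (f p)) (P : Set S) :
    Mset f' g P = (fun B => A.symm.trans B) '' Mset f g P := by
  have hd := FIN_dvec hf A hAf
  ext B
  constructor
  · rintro ⟨hB, p, hp, h1, h2⟩
    refine ⟨A.trans B, ⟨FIN_trans hA hB, p, hp, ?_, fun v => ?_⟩, ?_⟩
    · rw [h1, hAf p]
      rfl
    · rw [h2 v, hd p v]
      rfl
    · ext1 z
      show B (A (A.symm z)) = B z
      rw [AffineIsometryEquiv.apply_symm_apply]
  · rintro ⟨B, ⟨hB, p, hp, h1, h2⟩, rfl⟩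
    refine ⟨FIN_trans (FIN_symm hA) hB, p, hp, ?_, fun v => ?_⟩
    · show g p = B (A.symm (f' p))
      rw [h1, hAf p, AffineIsometryEquiv.symm_apply_apply]
    · show _ = B.linearIsometryEquiv (A.linearIsometryEquiv.symm (FRD.dvec f' p v))
      rw [h2 v, hd p v, LinearIsometryEquiv.symm_apply_apply]

/-- invariance of the special sets -/
lemma SP8 {H : Set (E3 ≃ᵃⁱ[ℝ] E3)} (A : E3 ≃ᵃⁱ[ℝ] E3) (hH : Special8 H) :
    Special8 ((fun B => A.symm.trans B) '' H) := by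
  rcases hH with h | h | ⟨e, he, h⟩ | ⟨B', hB', h⟩ | ⟨ε, hf, h⟩
  · left
    exact (encard_image_le _ _).trans h
  · right
    left
    have h1 : (fun B : E3 ≃ᵃⁱ[ℝ] E3 => B.linearIsometryEquiv) '' ((fun B => A.symm.trans B) '' H) =
        (fun R => A.linearIsometryEquiv.symm.trans R) ''
          ((fun B : E3 ≃ᵃⁱ[ℝ] E3 => B.linearIsometryEquiv) '' H) := by
      rw [image_image, image_image]
      rfl
    rw [h1]
    exact (encard_image_le _ _).trans h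
  · right
    right
    left
    refine ⟨A.linearIsometryEquiv e, ?_, ?_⟩
    · intro h0
      exact he ((LinearIsometryEquiv.map_eq_zero_iff _).mp h0)
    · rintro _ ⟨B, hB, rfl⟩ _ ⟨B', hB', rfl⟩
      show (A.symm.trans B).linearIsometryEquiv (A.linearIsometryEquiv e) =
        (A.symm.trans B').linearIsometryEquiv (A.linearIsometryEquiv e)
      rw [SP7_lin, SP7_lin]
      exact h B hB B' hB'
  · right
    right
    right
    left
    refine ⟨A.symm.trans B', ⟨B', hB', rfl⟩, ?_⟩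
    rintro _ ⟨B, hB, rfl⟩
    rcases h B hB with ⟨x, hx⟩ | hl
    · left
      refine ⟨A x, ?_⟩
      show (A.symm.trans B) (A x) = (A.symm.trans B') (A x)
      rw [SP7_pt, SP7_pt]
      exact hx
    · right
      show A.linearIsometryEquiv.symm.trans B.linearIsometryEquiv =
        A.linearIsometryEquiv.symm.trans B'.linearIsometryEquiv
      rw [hl]
  · right
    right
    right
    right
    refine ⟨ε, hf.image _, ?_⟩
    rintro _ ⟨B, hB, rfl⟩ _ ⟨B', hB', rfl⟩ hne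
    show Screw ε ((A.symm.trans B').symm.trans (A.symm.trans B))
    rw [SP7_rel]
    exact h B hB B' hB' (fun h0 => hne (by rw [h0]))

/-- one open connected set -/
lemma CM8 (hCY7 : Stmt_CY7.{w}) (hUQ7 : Stmt_UQ7) (hRB7 : Stmt_RB7) (hRP7 : Stmt_RP7)
    (hNS7 : Stmt_NS7.{w}) (hAL7 : Stmt_AL7) (hST7 : Stmt_ST7.{w}) (hSH7 : Stmt_SH7.{w})
    (hROT : Stmt_ROT) (hGLB : Stmt_GLB.{w}) [CompactSpace S] {f g : S → E3} (hfg : MPair f g)
    {C : Set S} (hC : IsOpen C) (hCc : IsPreconnected C) (hE : ∀ q ∈ C, Ell f g q)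
    (hH : Special8 (Mset f g (frontier C))) : ∀ q ∈ C, LC f g q := by
  have hCar := EX8 hROT hGLB hfg (frontier C)
  obtain ⟨H, hHd⟩ : ∃ H, H = Mset f g (frontier C) := ⟨_, rfl⟩
  rw [← hHd] at hH hCar
  have hpr : ∀ B ∈ H, Proper B := by
    intro B hB
    rw [hHd] at hB
    exact hB.1
  -- the motion at the points of the frontier
  have hcay : ∀ p ∈ frontier C, ∃ B ∈ H, Cay B (Mo f g p) := by
    intro p hp
    obtain ⟨B, hB, h1, h2⟩ := hCar p hp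
    exact ⟨B, hB, hCY7 S f g hfg B (hpr B hB) p h1 h2⟩
  -- a functional which is constant on the motions
  have key : (∃ (a b : V3) (d c : ℝ), ¬ (a = 0 ∧ b = 0 ∧ d = 0) ∧
      ∀ B ∈ H, ∀ P, Cay B P → LP a b d P = c) → ∀ q ∈ C, LC f g q := by
    rintro ⟨a, b, d, c, hne, hL⟩
    refine hST7 S f g hfg C hC hCc hE a b d c hne ?_
    intro p hp
    obtain ⟨B, hB, h1⟩ := hcay p hp
    exact hL B hB _ h1
  rcases hH with h7 | h3 | ⟨e, he, hpar⟩ | ⟨B', hB', hx⟩ | ⟨ε, hfin, hscr⟩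
  · exact key (hRB7 H h7)
  · exact key (RT8 H h3)
  · exact key (hRP7 H e he hpar)
  · have h1 : B' ∈ Mset f g (frontier C) := hHd ▸ hB'
    obtain ⟨hpB, p, hp, h2, h3⟩ := h1
    have h4 := hCY7 S f g hfg B' hpB p h2 h3
    refine key ⟨-(Mo f g p).2, -(Mo f g p).1, 1, -((Mo f g p).1 ⬝ᵥ (Mo f g p).2), ?_, ?_⟩
    · rintro ⟨-, -, h5⟩
      exact one_ne_zero h5
    · intro B hB P hP
      exact RH8 hP h4 (hx B hB)
  · have hQ : (Mo f g '' frontier C).Finite := by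
      refine (hfin.biUnion (t := fun B => {P | Cay B P}) ?_).subset ?_
      · intro B _
        refine Set.Subsingleton.finite ?_
        intro P hP P' hP'
        exact hUQ7 B P P' hP hP'
      · rintro _ ⟨p, hp, rfl⟩
        obtain ⟨B, hB, h1⟩ := hcay p hp
        exact mem_biUnion hB h1
    refine hSH7 S f g hfg C hC hCc hE (Mo f g '' frontier C) ε hQ ?_
      fun p hp => mem_image_of_mem _ hp
    rintro _ ⟨p, hp, rfl⟩ _ ⟨p', hp', rfl⟩ hne
    obtain ⟨B, hB, h1⟩ := hcay p hp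
    obtain ⟨B', hB', h1'⟩ := hcay p' hp'
    have hBB : B ≠ B' := by
      rintro rfl
      exact hne (hUQ7 B _ _ h1 h1')
    refine hAL7 B B' _ _ h1 h1' ?_ ε (hscr B hB B' hB' hBB)
    exact CM7_dot _ _ (hNS7 S f g hfg p) (hNS7 S f g hfg p')

/-- the hypothesis on the family -/
def Hyp8 {S : Type w} [TopologicalSpace S] [ChartedSpace E2 S] (f0 ft : S → E3) : Prop :=
  (∀ q, PosCurv f0 q → ∃ C : Set S, IsOpen C ∧ IsPreconnected C ∧ q ∈ C ∧
    (∀ p ∈ C, PosCurv f0 p) ∧ Special8 (Mset f0 ft (frontier C))) ∧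
  (∀ q ∈ interior {p | ¬ PosCurv f0 p}, ∃ B : E3 ≃ᵃⁱ[ℝ] E3, Proper B ∧
    ∀ᶠ p in 𝓝 q, ft p = B (f0 p))

lemma FI8_step (hCY7 : Stmt_CY7.{w}) (hUQ7 : Stmt_UQ7) (hRB7 : Stmt_RB7) (hRP7 : Stmt_RP7)
    (hNS7 : Stmt_NS7.{w}) (hAL7 : Stmt_AL7) (hST7 : Stmt_ST7.{w}) (hSH7 : Stmt_SH7.{w})
    (hLR7 : Stmt_LR7.{w}) (hDN7 : Stmt_DN7.{w}) (hROT : Stmt_ROT) (hGLB : Stmt_GLB.{w})
    (hELP : Stmt_ELP.{w}) (hSGN : Stmt_SGN.{w}) [CompactSpace S] [ConnectedSpace S]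
    {f : ℝ → S → E3} (hf : Fam2 f) (hb : ∀ t ∈ Icc (0 : ℝ) 1, Hyp8 (f 0) (f t))
    {s t : ℝ} (hs : s ∈ Icc (0 : ℝ) 1) (ht : t ∈ Icc (0 : ℝ) 1) (hM : MPair (f s) (f t))
    (hT : FIN_T f s) : FIN_T f t := by
  obtain ⟨A, hA, hAf⟩ := hT
  have h0 : (0 : ℝ) ∈ Icc (0 : ℝ) 1 := ⟨le_rfl, zero_le_one⟩
  obtain ⟨hb1, hb2⟩ := hb t ht
  -- locally constant at the points of positive curvature
  have h1 : ∀ q, PosCurv (f 0) q → LC (f s) (f t) q := by
    intro q hq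
    obtain ⟨C, hC, hCc, hqC, hCP, hH⟩ := hb1 q hq
    refine CM8 hCY7 hUQ7 hRB7 hRP7 hNS7 hAL7 hST7 hSH7 hROT hGLB hM hC hCc ?_ ?_ q hqC
    · intro p hp
      exact hSGN S f hf p (hELP S (f 0) (hf.smooth 0 h0) (hf.imm 0 h0) p (hCP p hp)) s hs t ht
    · rw [MS8 (hf.smooth 0 h0) hA hAf]
      exact SP8 A hH
  -- locally constant at the interior points of the complement
  have h2 : ∀ q ∈ interior {p | ¬ PosCurv (f 0) p}, LC (f s) (f t) q := by
    intro q hq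
    obtain ⟨B, hB, hev⟩ := hb2 q hq
    refine hLR7 S (f s) (f t) hM (A.symm.trans B) (FIN_trans (FIN_symm hA) hB) q ?_
    filter_upwards [hev] with p hp
    rw [hp, hAf p]
    change _ = B (A.symm (A (f 0 p)))
    rw [AffineIsometryEquiv.symm_apply_apply]
  have h3 : ∀ q, LC (f s) (f t) q := by
    refine hDN7 S (f s) (f t) hM _ (FI7_dense {p | PosCurv (f 0) p}) ?_
    rintro q (hq | hq)
    · exact h1 q hq
    · exact h2 q hq
  obtain ⟨c, hc⟩ := STA_const (P := Mo (f s) (f t)) h3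
  obtain ⟨A', hA', hA'z⟩ := hROT c.1 c.2
  refine ⟨A.trans A', FIN_trans hA hA', fun p => ?_⟩
  have h4 := (hGLB S (f s) (f t) hM).2.2 p
  have h5 : Yg (f s) (f t) p = c.1 := congrArg Prod.fst (hc p)
  have h6 : Wg (f s) (f t) p = c.2 := congrArg Prod.snd (hc p)
  rw [h5, h6] at h4
  have h7 := hA'z (f s p) (f t p) h4
  rw [h7, hAf p]
  rfl

end FI8

theorem blk_FI8 (hCY7 : Stmt_CY7.{w}) (hUQ7 : Stmt_UQ7) (hRB7 : Stmt_RB7) (hRP7 : Stmt_RP7)
    (hNS7 : Stmt_NS7.{w}) (hAL7 : Stmt_AL7) (hST7 : Stmt_ST7.{w}) (hSH7 : Stmt_SH7.{w})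
    (hLR7 : Stmt_LR7.{w}) (hDN7 : Stmt_DN7.{w}) (hROT : Stmt_ROT) (hGLB : Stmt_GLB.{w})
    (hCLO : Stmt_CLO.{w}) (hELP : Stmt_ELP.{w}) (hSGN : Stmt_SGN.{w})
    (S : Type w) [TopologicalSpace S] [ChartedSpace E2 S] [IsManifold (𝓡 2) 2 S]
    [CompactSpace S] [ConnectedSpace S] (f : ℝ → S → E3) (hf : Fam2 f)
    (hb : ∀ t ∈ Icc (0 : ℝ) 1, Hyp8 (f 0) (f t)) :
    ∀ t ∈ Icc (0 : ℝ) 1, ∃ A : E3 ≃ᵃⁱ[ℝ] E3, Proper A ∧ ∀ p, f t p = A (f 0 p) := by
  intro t ht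
  set T : Set (Icc (0 : ℝ) 1) := {s | FIN_T f s} with hT
  have hev : ∀ s : Icc (0 : ℝ) 1, ∀ᶠ r : Icc (0 : ℝ) 1 in 𝓝 s, (FIN_T f r ↔ FIN_T f s) := by
    intro s
    have h1 : Tendsto (Subtype.val : Icc (0 : ℝ) 1 → ℝ) (𝓝 s) (𝓝[Icc (0 : ℝ) 1] (s : ℝ)) :=
      tendsto_nhdsWithin_iff.2 ⟨continuous_subtype_val.tendsto s,
        Eventually.of_forall fun x => x.2⟩
    filter_upwards [h1.eventually (hCLO S f hf s s.2)] with r hr
    exact ⟨fun h => FI8_step hCY7 hUQ7 hRB7 hRP7 hNS7 hAL7 hST7 hSH7 hLR7 hDN7 hROT hGLB hELP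
        hSGN hf hb r.2 s.2 hr.2 h,
      fun h => FI8_step hCY7 hUQ7 hRB7 hRP7 hNS7 hAL7 hST7 hSH7 hLR7 hDN7 hROT hGLB hELP
        hSGN hf hb s.2 r.2 hr.1 h⟩
  have hcl : IsClopen T := by
    constructor
    · rw [← isOpen_compl_iff, isOpen_iff_mem_nhds]
      intro s hs
      filter_upwards [hev s] with r hr h
      exact hs (hr.1 h)
    · rw [isOpen_iff_mem_nhds]
      intro s hs
      filter_upwards [hev s] with r hr
      exact hr.2 hs
  have : ConnectedSpace (Icc (0 : ℝ) 1) :=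
    Subtype.connectedSpace (isConnected_Icc (zero_le_one' ℝ))
  have hu := hcl.eq_univ ⟨⟨0, ⟨le_rfl, zero_le_one⟩⟩, AffineIsometryEquiv.refl ℝ E3, FIN_refl,
    fun p => rfl⟩
  have h5 : (⟨t, ht⟩ : Icc (0 : ℝ) 1) ∈ T := hu ▸ mem_univ _
  exact h5

end Pool.SXB
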