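import Pool.Agent.Work.MP_02e829_s7.Final8
import Pool.Agent.Work.MP_02e829_s7.B_SH9

/-!
# The theorem, with weakly one-handed sets of motions
-/

open Set Filter Manifold Matrix MeasureTheory Metric
open scoped Topology ContDiff Manifold

set_option autoImplicit false

universe w

namespace Pool.SXB

/-- special sets of motions -/
def Special9 (H : Set (E3 ≃ᵃⁱ[ℝ] E3)) : Prop :=
  H.encard ≤ 7 ∨
  ((fun B : E3 ≃ᵃⁱ[ℝ] E3 => B.linearIsometryEquiv) '' H).encard ≤ 3 ∨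
  (∃ e : E3, e ≠ 0 ∧ ∀ B ∈ H, ∀ B' ∈ H, B.linearIsometryEquiv e = B'.linearIsometryEquiv e) ∨
  (∃ B' ∈ H, ∀ B ∈ H, (∃ x, B x = B' x) ∨ B.linearIsometryEquiv = B'.linearIsometryEquiv) ∨
  (∃ ε : ℝ, H.Finite ∧ ∀ B ∈ H, ∀ B' ∈ H, Screw ε (B'.symm.trans B) ∨ (∃ x, B x = B' x) ∨
    B.linearIsometryEquiv = B'.linearIsometryEquiv)

/-- invariance of the special sets -/
lemma SP9 {H : Set (E3 ≃ᵃⁱ[ℝ] E3)} (A : E3 ≃ᵃⁱ[ℝ] E3) (hH : Special9 H) :
    Special9 ((fun B => A.symm.trans B) '' H) := by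
  rcases hH with h | h | h | h | ⟨ε, hf, h⟩
  · rcases SP8 A (Or.inl h) with k | k | k | k | ⟨ε, -, -⟩
    · exact Or.inl k
    · exact Or.inr (Or.inl k)
    · exact Or.inr (Or.inr (Or.inl k))
    · exact Or.inr (Or.inr (Or.inr (Or.inl k)))
    · exact Or.inl ((encard_image_le _ _).trans h)
  · right
    left
    have h1 : (fun B : E3 ≃ᵃⁱ[ℝ] E3 => B.linearIsometryEquiv) '' ((fun B => A.symm.trans B) '' H) =
        (fun R => A.linearIsometryEquiv.symm.trans R) ''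
          ((fun B : E3 ≃ᵃⁱ[ℝ] E3 => B.linearIsometryEquiv) '' H) := by
      rw [image_image, image_image]
      rfl
    rw [h1]
    exact (encard_image_le _ _).trans h
  · obtain ⟨e, he, h⟩ := h
    right
    right
    left
    refine ⟨A.linearIsometryEquiv e, ?_, ?_⟩
    · intro h0
      exact he ((LinearIsometryEquiv.map_eq_zero_iff _).mp h0)
    · rintro _ ⟨B, hB, rfl⟩ _ ⟨B', hB', rfl⟩
      show (A.symm.trans B).linearIsometryEquiv (A.linearIsometryEquiv e) =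
        (A.symm.trans B').linearIsometryEquiv (A.linearIsometryEquiv e)
      rw [SP7_lin, SP7_lin]
      exact h B hB B' hB'
  · obtain ⟨B', hB', h⟩ := h
    right
    right
    right
    left
    refine ⟨A.symm.trans B', ⟨B', hB', rfl⟩, ?_⟩
    rintro _ ⟨B, hB, rfl⟩
    rcases h B hB with ⟨x, hx⟩ | hl
    · left
      refine ⟨A x, ?_⟩
      show (A.symm.trans B) (A x) = (A.symm.trans B') (A x)
      rw [SP7_pt, SP7_pt]
      exact hx
    · right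
      show A.linearIsometryEquiv.symm.trans B.linearIsometryEquiv =
        A.linearIsometryEquiv.symm.trans B'.linearIsometryEquiv
      rw [hl]
  · right
    right
    right
    right
    refine ⟨ε, hf.image _, ?_⟩
    rintro _ ⟨B, hB, rfl⟩ _ ⟨B', hB', rfl⟩
    rcases h B hB B' hB' with h1 | ⟨x, hx⟩ | hl
    · left
      show Screw ε ((A.symm.trans B').symm.trans (A.symm.trans B))
      rw [SP7_rel]
      exact h1
    · right
      left
      refine ⟨A x, ?_⟩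
      show (A.symm.trans B) (A x) = (A.symm.trans B') (A x)
      rw [SP7_pt, SP7_pt]
      exact hx
    · right
      right
      show A.linearIsometryEquiv.symm.trans B.linearIsometryEquiv =
        A.linearIsometryEquiv.symm.trans B'.linearIsometryEquiv
      rw [hl]

/-- the Klein form of the difference of two motions -/
lemma KF9 (hAL7 : Stmt_AL7) {B B' : E3 ≃ᵃⁱ[ℝ] E3} {P P' : V3 × V3} (h : Cay B P)
    (h' : Cay B' P') (hpos : 0 < 1 + P.1 ⬝ᵥ P'.1) {ε : ℝ}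
    (hB : Screw ε (B'.symm.trans B) ∨ (∃ x, B x = B' x) ∨
      B.linearIsometryEquiv = B'.linearIsometryEquiv) :
    (ε ≠ 0 → 0 ≤ ε * ((P.1 - P'.1) ⬝ᵥ (P.2 - P'.2))) ∧
    (ε = 0 → (P.1 - P'.1) ⬝ᵥ (P.2 - P'.2) = 0) := by
  rcases hB with h1 | h1
  · refine ⟨fun _ => (hAL7 B B' P P' h h' hpos ε h1).le, ?_⟩
    rintro rfl
    obtain ⟨Q, -, hQ⟩ := h1
    rw [zero_mul] at hQ
    exact absurd hQ (lt_irrefl _)
  · have h2 := RH8 h h' h1
    rw [LP, neg_dotProduct, neg_dotProduct, one_mul] at h2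
    have h3 : (P.1 - P'.1) ⬝ᵥ (P.2 - P'.2) = 0 := by
      rw [sub_dotProduct, dotProduct_sub, dotProduct_sub]
      have e1 : P'.2 ⬝ᵥ P.1 = P.1 ⬝ᵥ P'.2 := dotProduct_comm _ _
      rw [e1] at h2
      linarith
    refine ⟨fun _ => ?_, fun _ => h3⟩
    rw [h3, mul_zero]

section FI9

variable {S : Type w} [TopologicalSpace S] [ChartedSpace E2 S] [IsManifold (𝓡 2) 2 S]

/-- one open connected set -/
lemma CM9 (hCY7 : Stmt_CY7.{w}) (hUQ7 : Stmt_UQ7) (hRB7 : Stmt_RB7) (hRP7 : Stmt_RP7)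
    (hNS7 : Stmt_NS7.{w}) (hAL7 : Stmt_AL7) (hST7 : Stmt_ST7.{w}) (hSH9 : Stmt_SH9.{w})
    (hROT : Stmt_ROT) (hGLB : Stmt_GLB.{w}) [CompactSpace S] {f g : S → E3} (hfg : MPair f g)
    {C : Set S} (hC : IsOpen C) (hCc : IsPreconnected C) (hE : ∀ q ∈ C, Ell f g q)
    (hH : Special9 (Mset f g (frontier C))) : ∀ q ∈ C, q ∈ closure {q' | LC f g q'} := by
  have hCar := EX8 hROT hGLB hfg (frontier C)
  obtain ⟨H, hHd⟩ : ∃ H, H = Mset f g (frontier C) := ⟨_, rfl⟩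
  rw [← hHd] at hH hCar
  have hpr : ∀ B ∈ H, Proper B := by
    intro B hB
    rw [hHd] at hB
    exact hB.1
  -- the motion at the points of the frontier
  have hcay : ∀ p ∈ frontier C, ∃ B ∈ H, Cay B (Mo f g p) := by
    intro p hp
    obtain ⟨B, hB, h1, h2⟩ := hCar p hp
    exact ⟨B, hB, hCY7 S f g hfg B (hpr B hB) p h1 h2⟩
  -- a functional which is constant on the motions
  have key : (∃ (a b : V3) (d c : ℝ), ¬ (a = 0 ∧ b = 0 ∧ d = 0) ∧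
      ∀ B ∈ H, ∀ P, Cay B P → LP a b d P = c) → ∀ q ∈ C, q ∈ closure {q' | LC f g q'} := by
    rintro ⟨a, b, d, c, hne, hL⟩ q hq
    refine subset_closure (hST7 S f g hfg C hC hCc hE a b d c hne ?_ q hq)
    intro p hp
    obtain ⟨B, hB, h1⟩ := hcay p hp
    exact hL B hB _ h1
  rcases hH with h7 | h3 | ⟨e, he, hpar⟩ | ⟨B', hB', hx⟩ | ⟨ε, hfin, hscr⟩
  · exact key (hRB7 H h7)
  · exact key (RT8 H h3)
  · exact key (hRP7 H e he hpar)
  · have h1 : B' ∈ Mset f g (frontier C) := hHd ▸ hB'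
    obtain ⟨hpB, p, hp, h2, h3⟩ := h1
    have h4 := hCY7 S f g hfg B' hpB p h2 h3
    refine key ⟨-(Mo f g p).2, -(Mo f g p).1, 1, -((Mo f g p).1 ⬝ᵥ (Mo f g p).2), ?_, ?_⟩
    · rintro ⟨-, -, h5⟩
      exact one_ne_zero h5
    · intro B hB P hP
      exact RH8 hP h4 (hx B hB)
  · have hQ : (Mo f g '' frontier C).Finite := by
      refine (hfin.biUnion (t := fun B => {P | Cay B P}) ?_).subset ?_
      · intro B _
        refine Set.Subsingleton.finite ?_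
        intro P hP P' hP'
        exact hUQ7 B P P' hP hP'
      · rintro _ ⟨p, hp, rfl⟩
        obtain ⟨B, hB, h1⟩ := hcay p hp
        exact mem_biUnion hB h1
    have hkf : ∀ P ∈ Mo f g '' frontier C, ∀ P' ∈ Mo f g '' frontier C,
        (ε ≠ 0 → 0 ≤ ε * ((P.1 - P'.1) ⬝ᵥ (P.2 - P'.2))) ∧
        (ε = 0 → (P.1 - P'.1) ⬝ᵥ (P.2 - P'.2) = 0) := by
      rintro _ ⟨p, hp, rfl⟩ _ ⟨p', hp', rfl⟩
      obtain ⟨B, hB, h1⟩ := hcay p hp
      obtain ⟨B', hB', h1'⟩ := hcay p' hp'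
      exact KF9 hAL7 h1 h1' (CM7_dot _ _ (hNS7 S f g hfg p) (hNS7 S f g hfg p'))
        (hscr B hB B' hB')
    by_cases hε : ε = 0
    · refine hSH9 S f g hfg C hC hCc hE (Mo f g '' frontier C) 1 one_ne_zero hQ ?_
        fun p hp => mem_image_of_mem _ hp
      intro P hP P' hP'
      rw [(hkf P hP P' hP').2 hε, mul_zero]
    · exact hSH9 S f g hfg C hC hCc hE (Mo f g '' frontier C) ε hε hQ
        (fun P hP P' hP' => (hkf P hP P' hP').1 hε) fun p hp => mem_image_of_mem _ hp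

/-- the hypothesis on the family -/
def Hyp9 {S : Type w} [TopologicalSpace S] [ChartedSpace E2 S] (f0 ft : S → E3) : Prop :=
  (∀ q, PosCurv f0 q → ∃ C : Set S, IsOpen C ∧ IsPreconnected C ∧ q ∈ C ∧
    (∀ p ∈ C, PosCurv f0 p) ∧ Special9 (Mset f0 ft (frontier C))) ∧
  (∀ q ∈ interior {p | ¬ PosCurv f0 p}, ∃ B : E3 ≃ᵃⁱ[ℝ] E3, Proper B ∧
    ∀ᶠ p in 𝓝 q, ft p = B (f0 p))

lemma FI9_step (hCY7 : Stmt_CY7.{w}) (hUQ7 : Stmt_UQ7) (hRB7 : Stmt_RB7) (hRP7 : Stmt_RP7)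
    (hNS7 : Stmt_NS7.{w}) (hAL7 : Stmt_AL7) (hST7 : Stmt_ST7.{w}) (hSH9 : Stmt_SH9.{w})
    (hLR7 : Stmt_LR7.{w}) (hDN7 : Stmt_DN7.{w}) (hROT : Stmt_ROT) (hGLB : Stmt_GLB.{w})
    (hELP : Stmt_ELP.{w}) (hSGN : Stmt_SGN.{w}) [CompactSpace S] [ConnectedSpace S]
    {f : ℝ → S → E3} (hf : Fam2 f) (hb : ∀ t ∈ Icc (0 : ℝ) 1, Hyp9 (f 0) (f t))
    {s t : ℝ} (hs : s ∈ Icc (0 : ℝ) 1) (ht : t ∈ Icc (0 : ℝ) 1) (hM : MPair (f s) (f t))
    (hT : FIN_T f s) : FIN_T f t := by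
  obtain ⟨A, hA, hAf⟩ := hT
  have h0 : (0 : ℝ) ∈ Icc (0 : ℝ) 1 := ⟨le_rfl, zero_le_one⟩
  obtain ⟨hb1, hb2⟩ := hb t ht
  -- dense among the points of positive curvature
  have h1 : ∀ q, PosCurv (f 0) q → q ∈ closure {q' | LC (f s) (f t) q'} := by
    intro q hq
    obtain ⟨C, hC, hCc, hqC, hCP, hH⟩ := hb1 q hq
    refine CM9 hCY7 hUQ7 hRB7 hRP7 hNS7 hAL7 hST7 hSH9 hROT hGLB hM hC hCc ?_ ?_ q hqC
    · intro p hp
      exact hSGN S f hf p (hELP S (f 0) (hf.smooth 0 h0) (hf.imm 0 h0) p (hCP p hp)) s hs t ht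
    · rw [MS8 (hf.smooth 0 h0) hA hAf]
      exact SP9 A hH
  -- locally constant at the interior points of the complement
  have h2 : ∀ q ∈ interior {p | ¬ PosCurv (f 0) p}, LC (f s) (f t) q := by
    intro q hq
    obtain ⟨B, hB, hev⟩ := hb2 q hq
    refine hLR7 S (f s) (f t) hM (A.symm.trans B) (FIN_trans (FIN_symm hA) hB) q ?_
    filter_upwards [hev] with p hp
    rw [hp, hAf p]
    change _ = B (A.symm (A (f 0 p)))
    rw [AffineIsometryEquiv.symm_apply_apply]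
  have hD : Dense {q' | LC (f s) (f t) q'} := by
    intro q
    have h4 : closure ({p | PosCurv (f 0) p} ∪ interior {p | PosCurv (f 0) p}ᶜ) ⊆
        closure {q' | LC (f s) (f t) q'} := by
      refine closure_minimal ?_ isClosed_closure
      rintro p (hp | hp)
      · exact h1 p hp
      · exact subset_closure (h2 p hp)
    exact h4 (FI7_dense {p | PosCurv (f 0) p} q)
  have h3 : ∀ q, LC (f s) (f t) q := hDN7 S (f s) (f t) hM _ hD fun q hq => hq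
  obtain ⟨c, hc⟩ := STA_const (P := Mo (f s) (f t)) h3
  obtain ⟨A', hA', hA'z⟩ := hROT c.1 c.2
  refine ⟨A.trans A', FIN_trans hA hA', fun p => ?_⟩
  have h4 := (hGLB S (f s) (f t) hM).2.2 p
  have h5 : Yg (f s) (f t) p = c.1 := congrArg Prod.fst (hc p)
  have h6 : Wg (f s) (f t) p = c.2 := congrArg Prod.snd (hc p)
  rw [h5, h6] at h4
  have h7 := hA'z (f s p) (f t p) h4
  rw [h7, hAf p]
  rfl

end FI9

theorem blk_FI9 (hCY7 : Stmt_CY7.{w}) (hUQ7 : Stmt_UQ7) (hRB7 : Stmt_RB7) (hRP7 : Stmt_RP7)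
    (hNS7 : Stmt_NS7.{w}) (hAL7 : Stmt_AL7) (hST7 : Stmt_ST7.{w}) (hSH9 : Stmt_SH9.{w})
    (hLR7 : Stmt_LR7.{w}) (hDN7 : Stmt_DN7.{w}) (hROT : Stmt_ROT) (hGLB : Stmt_GLB.{w})
    (hCLO : Stmt_CLO.{w}) (hELP : Stmt_ELP.{w}) (hSGN : Stmt_SGN.{w})
    (S : Type w) [TopologicalSpace S] [ChartedSpace E2 S] [IsManifold (𝓡 2) 2 S]
    [CompactSpace S] [ConnectedSpace S] (f : ℝ → S → E3) (hf : Fam2 f)
    (hb : ∀ t ∈ Icc (0 : ℝ) 1, Hyp9 (f 0) (f t)) :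
    ∀ t ∈ Icc (0 : ℝ) 1, ∃ A : E3 ≃ᵃⁱ[ℝ] E3, Proper A ∧ ∀ p, f t p = A (f 0 p) := by
  intro t ht
  obtain ⟨T, hT⟩ : ∃ T : Set (Icc (0 : ℝ) 1), T = {s : Icc (0 : ℝ) 1 | FIN_T f s} := ⟨_, rfl⟩
  have hev : ∀ s : Icc (0 : ℝ) 1, ∀ᶠ r : Icc (0 : ℝ) 1 in 𝓝 s, (FIN_T f r ↔ FIN_T f s) := by
    intro s
    have h1 : Tendsto (Subtype.val : Icc (0 : ℝ) 1 → ℝ) (𝓝 s) (𝓝[Icc (0 : ℝ) 1] (s : ℝ)) :=
      tendsto_nhdsWithin_iff.2 ⟨continuous_subtype_val.tendsto s,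
        Eventually.of_forall fun x => x.2⟩
    filter_upwards [h1.eventually (hCLO S f hf s s.2)] with r hr
    exact ⟨fun h => FI9_step hCY7 hUQ7 hRB7 hRP7 hNS7 hAL7 hST7 hSH9 hLR7 hDN7 hROT hGLB hELP
        hSGN hf hb r.2 s.2 hr.2 h,
      fun h => FI9_step hCY7 hUQ7 hRB7 hRP7 hNS7 hAL7 hST7 hSH9 hLR7 hDN7 hROT hGLB hELP
        hSGN hf hb s.2 r.2 hr.1 h⟩
  have hcl : IsClopen T := by
    rw [hT]
    constructor
    · rw [← isOpen_compl_iff, isOpen_iff_mem_nhds]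
      intro s hs
      filter_upwards [hev s] with r hr h
      exact hs (hr.1 h)
    · rw [isOpen_iff_mem_nhds]
      intro s hs
      filter_upwards [hev s] with r hr
      exact hr.2 hs
  have : ConnectedSpace (Icc (0 : ℝ) 1) :=
    Subtype.connectedSpace (isConnected_Icc (zero_le_one' ℝ))
  have hu := hcl.eq_univ ⟨⟨0, ⟨le_rfl, zero_le_one⟩⟩, by
    rw [hT]
    exact ⟨AffineIsometryEquiv.refl ℝ E3, FIN_refl, fun p => rfl⟩⟩
  have h5 : (⟨t, ht⟩ : Icc (0 : ℝ) 1) ∈ T := hu ▸ mem_univ _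
  rw [hT] at h5
  exact h5

end Pool.SXB
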