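import Pool.Agent.Work.MP_02e829_s7.Interface

/-!
# Convex combinations on the Study quadric

`QQ` is the Klein form of a difference of two motions.
-/

open Set Filter Manifold Matrix MeasureTheory Metric
open scoped Topology ContDiff Manifold

set_option autoImplicit false

universe w

namespace Pool.SXB.Hull9

/-- the Klein form of a difference -/
def QQ (p q : V3 × V3) : ℝ := (p.1 - q.1) ⬝ᵥ (p.2 - q.2)

/-- finitely many closed sets which cover a nonempty open set -/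
lemma STG_cover {X : Type w} [TopologicalSpace X] {ι : Type} (s : Finset ι) (E : ι → Set X)
    (hE : ∀ i ∈ s, IsClosed (E i)) : ∀ V : Set X, IsOpen V → V.Nonempty →
    (∀ x ∈ V, ∃ i ∈ s, x ∈ E i) → ∃ i ∈ s, ∃ V' ⊆ V, IsOpen V' ∧ V'.Nonempty ∧ V' ⊆ E i := by
  classical
  induction s using Finset.induction_on with
  | empty =>
    intro V _ hne h
    obtain ⟨x, hx⟩ := hne
    obtain ⟨i, hi, -⟩ := h x hx
    exact absurd hi (Finset.notMem_empty i)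
  | insert i s his ih =>
    intro V hV hne h
    by_cases hsub : V ⊆ E i
    · exact ⟨i, Finset.mem_insert_self i s, V, subset_rfl, hV, hne, hsub⟩
    · obtain ⟨x, hx, hxE⟩ := not_subset.1 hsub
      have hop : IsOpen (V \ E i) := hV.sdiff (hE i (Finset.mem_insert_self i s))
      obtain ⟨j, hj, V', h1, h2, h3, h4⟩ := ih (fun j hj => hE j (Finset.mem_insert_of_mem hj))
        (V \ E i) hop ⟨x, hx, hxE⟩ (fun z hz => by
          obtain ⟨j, hj, hzj⟩ := h z hz.1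
          rcases Finset.mem_insert.1 hj with rfl | hj'
          · exact absurd hzj hz.2
          · exact ⟨j, hj', hzj⟩)
      exact ⟨j, Finset.mem_insert_of_mem hj, V', h1.trans Set.sdiff_subset, h2, h3, h4⟩

/-- separation in `ℝ⁷` -/
lemma STH_sep {N : ℕ} (Φ : Fin N → V3 × V3) (Y W : V3)
    (hno : ¬ ∃ μ : Fin N → ℝ, (∀ i, 0 ≤ μ i) ∧ ∑ i, μ i = 1 ∧ ∑ i, μ i • (Φ i).1 = Y ∧
      ∑ i, μ i • (Φ i).2 = W ∧ ∑ i, μ i * ((Φ i).1 ⬝ᵥ (Φ i).2) = Y ⬝ᵥ W) :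
    ∃ (a b : V3) (c : ℝ), ∀ i, a ⬝ᵥ (Φ i).1 + b ⬝ᵥ (Φ i).2 + c * ((Φ i).1 ⬝ᵥ (Φ i).2) <
      a ⬝ᵥ Y + b ⬝ᵥ W + c * (Y ⬝ᵥ W) := by
  obtain ⟨Ψ, hΨ⟩ : ∃ Ψ : Fin N → V3 × V3 × ℝ,
      Ψ = fun i => ((Φ i).1, (Φ i).2, (Φ i).1 ⬝ᵥ (Φ i).2) := ⟨_, rfl⟩
  obtain ⟨T, hT⟩ : ∃ T : Set (V3 × V3 × ℝ), T = {z | ∃ μ : Fin N → ℝ, (∀ i, 0 ≤ μ i) ∧
      ∑ i, μ i = 1 ∧ ∑ i, μ i • Ψ i = z} := ⟨_, rfl⟩
  have hTc : Convex ℝ T := by
    rw [hT]
    rintro z ⟨μ, h1, h2, h3⟩ z' ⟨μ', h1', h2', h3'⟩ r s hr hs hrs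
    refine ⟨fun i => r * μ i + s * μ' i, fun i => ?_, ?_, ?_⟩
    · have := h1 i
      have := h1' i
      positivity
    · rw [Finset.sum_add_distrib, ← Finset.mul_sum, ← Finset.mul_sum, h2, h2', mul_one, mul_one]
      exact hrs
    · simp only [add_smul, mul_smul]
      rw [Finset.sum_add_distrib, ← Finset.smul_sum, ← Finset.smul_sum, h3, h3']
  have hsub : convexHull ℝ (range Ψ) ⊆ T := by
    refine convexHull_min ?_ hTc
    rintro _ ⟨i, rfl⟩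
    rw [hT]
    refine ⟨Pi.single i 1, fun j => ?_, ?_, ?_⟩
    · by_cases hj : j = i
      · rw [hj, Pi.single_eq_same]
        exact zero_le_one
      · rw [Pi.single_eq_of_ne hj]
    · simp
    · rw [Finset.sum_eq_single i]
      · rw [Pi.single_eq_same, one_smul]
      · intro j _ hj
        rw [Pi.single_eq_of_ne hj, zero_smul]
      · intro hi
        exact absurd (Finset.mem_univ i) hi
  have hx : (Y, W, Y ⬝ᵥ W) ∉ convexHull ℝ (range Ψ) := by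
    intro hmem
    have h1 := hsub hmem
    rw [hT] at h1
    obtain ⟨μ, h2, h3, h4⟩ := h1
    refine hno ⟨μ, h2, h3, ?_, ?_, ?_⟩
    · have := congrArg Prod.fst h4
      rw [Prod.fst_sum] at this
      rw [hΨ] at this
      exact this
    · have := congrArg (fun z => z.2.1) h4
      beta_reduce at this
      rw [Prod.snd_sum, Prod.fst_sum, hΨ] at this
      exact this
    · have := congrArg (fun z => z.2.2) h4
      beta_reduce at this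
      rw [Prod.snd_sum, Prod.snd_sum, hΨ] at this
      exact this
  have hcl : IsClosed (convexHull ℝ (range Ψ)) :=
    ((finite_range Ψ).isCompact_convexHull (𝕜 := ℝ)).isClosed
  obtain ⟨F, u, h1, h2⟩ := geometric_hahn_banach_closed_point (convex_convexHull ℝ (range Ψ)) hcl hx
  -- the coefficients of the functional
  have hF : ∃ (a b : V3) (c : ℝ), ∀ (y z : V3) (r : ℝ), F (y, z, r) = a ⬝ᵥ y + b ⬝ᵥ z + c * r := by
    refine ⟨fun i => F (Pi.single i 1, 0, 0), fun i => F (0, Pi.single i 1, 0), F (0, 0, 1),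
      fun y z r => ?_⟩
    have e1 : ((y, z, r) : V3 × V3 × ℝ) = (∑ i, y i • ((Pi.single i 1, 0, 0) : V3 × V3 × ℝ)) +
        (∑ i, z i • ((0, Pi.single i 1, 0) : V3 × V3 × ℝ)) + r • ((0, 0, 1) : V3 × V3 × ℝ) := by
      refine Prod.ext ?_ (Prod.ext ?_ ?_)
      · simp only [Prod.fst_add, Prod.fst_sum, Prod.smul_fst, smul_zero, Finset.sum_const_zero,
          add_zero]
        ext i
        simp [Finset.sum_apply, Pi.single_apply]
      · simp only [Prod.snd_add, Prod.fst_add, Prod.snd_sum, Prod.fst_sum, Prod.smul_snd,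
          Prod.smul_fst, smul_zero, Finset.sum_const_zero, add_zero, zero_add]
        ext i
        simp [Finset.sum_apply, Pi.single_apply]
      · simp [Prod.snd_sum]
    rw [e1, map_add, map_add, map_sum, map_sum, map_smul, dotProduct, dotProduct]
    simp only [map_smul, smul_eq_mul]
    congr 1
    · congr 1
      · exact Finset.sum_congr rfl fun i _ => mul_comm _ _
      · exact Finset.sum_congr rfl fun i _ => mul_comm _ _
    · exact mul_comm _ _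
  obtain ⟨a, b, c, hab⟩ := hF
  refine ⟨a, b, c, fun i => ?_⟩
  rw [← hab, ← hab]
  refine lt_trans (h1 _ (subset_convexHull ℝ _ ⟨i, ?_⟩)) h2
  rw [hΨ]

/-- the weights of a point of the Study quadric -/
lemma STH_zero {N : ℕ} (Φ : Fin N → V3 × V3) (Y W : V3) (μ : Fin N → ℝ) (h1 : ∑ i, μ i = 1)
    (h2 : ∑ i, μ i • (Φ i).1 = Y) (h3 : ∑ i, μ i • (Φ i).2 = W)
    (h4 : ∑ i, μ i * ((Φ i).1 ⬝ᵥ (Φ i).2) = Y ⬝ᵥ W) :
    ∑ i, ∑ j, μ i * μ j * QQ (Φ i) (Φ j) = 0 := by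
  have e1 : ∀ i j, μ i * μ j * QQ (Φ i) (Φ j) =
      μ j * (μ i * ((Φ i).1 ⬝ᵥ (Φ i).2)) - (μ i • (Φ i).1) ⬝ᵥ (μ j • (Φ j).2) -
      (μ j • (Φ j).1) ⬝ᵥ (μ i • (Φ i).2) + μ i * (μ j * ((Φ j).1 ⬝ᵥ (Φ j).2)) := by
    intro i j
    rw [QQ]
    simp only [sub_dotProduct, dotProduct_sub, smul_dotProduct, dotProduct_smul, smul_eq_mul]
    ring
  simp only [e1, Finset.sum_add_distrib, Finset.sum_sub_distrib]
  have e2 : ∑ i, ∑ j, μ j * (μ i * ((Φ i).1 ⬝ᵥ (Φ i).2)) = Y ⬝ᵥ W := by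
    rw [← h4]
    refine Finset.sum_congr rfl fun i _ => ?_
    rw [← Finset.sum_mul, h1, one_mul]
  have e3 : ∑ i, ∑ j, (μ i • (Φ i).1) ⬝ᵥ (μ j • (Φ j).2) = Y ⬝ᵥ W := by
    rw [← h2, ← h3, sum_dotProduct]
    refine Finset.sum_congr rfl fun i _ => ?_
    rw [dotProduct_sum]
  have e4 : ∑ i, ∑ j, (μ j • (Φ j).1) ⬝ᵥ (μ i • (Φ i).2) = Y ⬝ᵥ W := by
    rw [Finset.sum_comm]
    exact e3
  have e5 : ∑ i, ∑ j, μ i * (μ j * ((Φ j).1 ⬝ᵥ (Φ j).2)) = Y ⬝ᵥ W := by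
    simp only [← Finset.mul_sum]
    rw [← Finset.sum_mul, h1, one_mul, h4]
  rw [e2, e3, e4, e5]
  ring

/-- the value of the functional at a convex combination -/
lemma STH_value {N : ℕ} (Φ : Fin N → V3 × V3) (Y W : V3) (μ : Fin N → ℝ)
    (h0 : ∀ i, 0 ≤ μ i) (h1 : ∑ i, μ i = 1)
    (h2 : ∑ i, μ i • (Φ i).1 = Y) (h3 : ∑ i, μ i • (Φ i).2 = W)
    (h4 : ∑ i, μ i * ((Φ i).1 ⬝ᵥ (Φ i).2) = Y ⬝ᵥ W) (a b : V3) (c d : ℝ)
    (h : ∀ i, 0 < μ i → a ⬝ᵥ (Φ i).1 + b ⬝ᵥ (Φ i).2 + c * ((Φ i).1 ⬝ᵥ (Φ i).2) = d) :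
    a ⬝ᵥ Y + b ⬝ᵥ W + c * (Y ⬝ᵥ W) = d := by
  rw [← h4, ← h2, ← h3, dotProduct_sum, dotProduct_sum, Finset.mul_sum,
    ← Finset.sum_add_distrib, ← Finset.sum_add_distrib]
  have e1 : ∀ i, a ⬝ᵥ (μ i • (Φ i).1) + b ⬝ᵥ (μ i • (Φ i).2) +
      c * (μ i * ((Φ i).1 ⬝ᵥ (Φ i).2)) = μ i * d := by
    intro i
    rcases (h0 i).eq_or_lt with h5 | h5
    · rw [← h5]
      simp
    · rw [← h i h5]
      simp only [dotProduct_smul, smul_eq_mul]
      ring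
  rw [Finset.sum_congr rfl fun i _ => e1 i, ← Finset.sum_mul, h1, one_mul]

lemma TWI_clique {N : ℕ} (Φ : Fin N → V3 × V3) (μ : Fin N → ℝ)
    (h : ∀ i j, 0 < μ i → 0 < μ j → QQ (Φ i) (Φ j) = 0) : ∃ (a b : V3) (c d : ℝ),
      ¬ (a = 0 ∧ b = 0 ∧ c = 0) ∧
      ∀ i, 0 < μ i → a ⬝ᵥ (Φ i).1 + b ⬝ᵥ (Φ i).2 + c * ((Φ i).1 ⬝ᵥ (Φ i).2) = d := by
  by_cases hex : ∃ i0 i1, 0 < μ i0 ∧ 0 < μ i1 ∧ Φ i1 ≠ Φ i0
  · obtain ⟨i0, i1, h0, h1, hne⟩ := hex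
    refine ⟨(Φ i1).2 - (Φ i0).2, (Φ i1).1 - (Φ i0).1, 0,
      ((Φ i1).2 - (Φ i0).2) ⬝ᵥ (Φ i0).1 + ((Φ i1).1 - (Φ i0).1) ⬝ᵥ (Φ i0).2, ?_, ?_⟩
    · rintro ⟨h2, h3, -⟩
      exact hne (Prod.ext (sub_eq_zero.1 h3) (sub_eq_zero.1 h2))
    · intro i hi
      have e1 := h i i0 hi h0
      have e2 := h i1 i0 h1 h0
      have e3 := h i i1 hi h1
      simp only [QQ, sub_dotProduct, dotProduct_sub] at e1 e2 e3 ⊢
      have c1 := dotProduct_comm (Φ i1).2 (Φ i).1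
      have c2 := dotProduct_comm (Φ i0).2 (Φ i).1
      have c3 := dotProduct_comm (Φ i1).2 (Φ i0).1
      have c4 := dotProduct_comm (Φ i0).2 (Φ i0).1
      rw [c1, c2, c3, c4]
      linarith
  · push Not at hex
    by_cases hany : ∃ i0, 0 < μ i0
    · obtain ⟨i0, h0⟩ := hany
      refine ⟨Pi.single 0 1, 0, 0, (Pi.single 0 1 : V3) ⬝ᵥ (Φ i0).1, ?_, fun i hi => ?_⟩
      · rintro ⟨h5, -⟩
        have := congrFun h5 0
        simp at this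
      · rw [hex i0 i h0 hi]
        simp
    · push Not at hany
      refine ⟨Pi.single 0 1, 0, 0, 0, ?_, fun i hi => absurd hi (not_lt.2 (hany i))⟩
      rintro ⟨h5, -⟩
      have := congrFun h5 0
      simp at this


end Pool.SXB.Hull9
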