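import Pool.Agent.Work.MP_02e829_sb.Interface

/-!
# Rigid bodies adjacent to the elliptic part: interface of the general theorem

Continues `Pool.Agent.Work.MP_02e829_sb.Interface` (same notation: `m = mm`, `v = vv`, `n = nn`,
`y = yy`, `w = ww`, `k = kk`, `s = ss`).  New: the functional `l7` has the additional term
`d (y ⬝ w)` (the coordinates `1, y, w, y ⬝ w` are the coordinates of the Study quadric in `P⁷`),
its field is `A7 = a + b × m + d v`, with `∂ᵢ A7 = (b + d y) × ∂ᵢ m`.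
-/

open Set Filter Manifold Matrix MeasureTheory Metric
open scoped Topology ContDiff Manifold

set_option autoImplicit false

universe w

namespace Pool.SXB

open Pool.FR (pd ee)

/-! ### Local part -/

/-- a functional of the motion, linear in the coordinates of the Study quadric -/
noncomputable def l7 (F G : E2 → V3) (a b : V3) (d : ℝ) (x : E2) : ℝ :=
  a ⬝ᵥ yy F G x + b ⬝ᵥ ww F G x + d * (yy F G x ⬝ᵥ ww F G x)

/-- its field along the mean surface -/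
noncomputable def A7 (F G : E2 → V3) (a b : V3) (d : ℝ) (x : E2) : V3 :=
  a + b ⨯₃ mm F G x + d • vv F G x

/-- DL7 (100 lines; uses YC1, DIF). `y ⬝ ∂w + ∂y ⬝ w = y ⬝ (m × ∂y) + ∂y ⬝ w = (w + y × m) ⬝ ∂y = v ⬝ ∂y`
(definition of `ww`), `∂v = y × ∂m` (YC1); the last line is algebra from `vv = ww + yy × mm`. -/
def Stmt_DL7 : Prop :=
  ∀ (U : Set E2) (F G : E2 → V3), Pair U F G → ∀ (a b : V3) (d : ℝ),
    ContDiffOn ℝ 1 (l7 F G a b d) U ∧ ContDiffOn ℝ 2 (A7 F G a b d) U ∧ ∀ x ∈ U,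
      (∀ i, pd i (l7 F G a b d) x = A7 F G a b d x ⬝ᵥ pd i (yy F G) x) ∧
      (∀ i, pd i (A7 F G a b d) x = (b + d • yy F G x) ⨯₃ pd i (mm F G) x) ∧
      A7 F G a b d x ⬝ᵥ (b + d • yy F G x) = a ⬝ᵥ b + d * l7 F G a b d x

/-- GD7 (150 lines; uses YC1, DIF, MIX, BND, SMP, DL7). Edit of `B_GOD.lean`: `ll, AA` become
`l7, A7`, the derivative of `l7` is DL7. -/
def Stmt_GD7 : Prop :=
  ∀ (U : Set E2) (F G : E2 → V3), Pair U F G → ∀ (a b : V3) (d : ℝ), ∀ x0 ∈ U, PosAt F G x0 →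
    A7 F G a b d x0 ⨯₃ nn F G x0 ≠ 0 → (∀ᶠ x in 𝓝 x0, l7 F G a b d x ≤ l7 F G a b d x0) →
    Rig F G x0

/-- SD7 (150 lines; uses YC1, DIF, MIX, DL7). Edit of `B_SAD.lean`: in the derivative of
`A7 ⬝ ∂ᵢ m` at `x0` the vector `b` becomes `b + d y(x0)`, so `B = (b + d y(x0)) ⬝ n`. -/
def Stmt_SD7 : Prop :=
  ∀ (U : Set E2) (F G : E2 → V3), Pair U F G → ∀ (a b : V3) (d : ℝ), ∀ x0 ∈ U, PosAt F G x0 →
    ∀ L : ℝ, L ≠ 0 → A7 F G a b d x0 = L • nn F G x0 →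
    (∀ᶠ x in 𝓝 x0, l7 F G a b d x ≤ l7 F G a b d x0) → ∀ i, pd i (yy F G) x0 = 0

/-- IN7 (150 lines; uses YC1, DIF, DL7). Edit of `B_INJ.lean`. -/
def Stmt_IN7 : Prop :=
  ∀ (U : Set E2) (F G : E2 → V3), Pair U F G → ∀ (a b : V3) (d : ℝ), ∀ x0 ∈ U, PosAt F G x0 →
    ∀ L : ℝ, L ≠ 0 → A7 F G a b d x0 = L • nn F G x0 → ∃ r ρ : ℝ, 0 < r ∧ 0 < ρ ∧
      ball x0 r ⊆ U ∧ ∀ a' : V3, ‖a' - a‖ < ρ → ∀ x ∈ ball x0 r, ∀ x' ∈ ball x0 r,
        A7 F G a' b d x ⨯₃ nn F G x = 0 → A7 F G a' b d x' ⨯₃ nn F G x' = 0 → x = x'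

/-- BD7 (170 lines; uses YC1, GD7, SD7, IN7, TOP, DL7). Edit of `B_BAD.lean`. -/
def Stmt_BD7 : Prop :=
  ∀ (U : Set E2) (F G : E2 → V3), Pair U F G → ∀ (a b : V3) (d : ℝ), ∀ x0 ∈ U, PosAt F G x0 →
    ∀ L : ℝ, L ≠ 0 → A7 F G a b d x0 = L • nn F G x0 →
    (∀ᶠ x in 𝓝 x0, l7 F G a b d x ≤ l7 F G a b d x0) → Rig F G x0

/-- LP7 (40 lines; uses GD7, BD7, DL7). Edit of `B_LPR.lean`; `A7 x0 ≠ 0` by the last line of
DL7. -/
def Stmt_LP7 : Prop :=
  ∀ (U : Set E2) (F G : E2 → V3), Pair U F G → ∀ (a b : V3) (d : ℝ), ∀ x0 ∈ U,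
    a ⬝ᵥ b + d * l7 F G a b d x0 ≠ 0 → PosAt F G x0 →
    (∀ᶠ x in 𝓝 x0, l7 F G a b d x ≤ l7 F G a b d x0) → Rig F G x0

/-- KL7 (150 lines; uses YC1, DIF, MIX, DL7). Edit of `B_KIL.lean`: if `k ≠ 0` somewhere near `x0`
one gets `A7 = 0` near that point and `(b + d y) × ∂ᵢ m = 0`, so `b + d y = 0` near it; if `d ≠ 0`
then `y` is constant there, `k = 0`; if `d = 0` then `b = 0`, `a = 0`. -/
def Stmt_KL7 : Prop :=
  ∀ (U : Set E2) (F G : E2 → V3), Pair U F G → ∀ (a b : V3) (d c : ℝ),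
    ¬ (a = 0 ∧ b = 0 ∧ d = 0) → ∀ x0 ∈ U, PosAt F G x0 →
    (∀ᶠ x in 𝓝 x0, l7 F G a b d x = c) → Rig F G x0

/-! ### Algebra and perturbation -/

/-- the functional of a pair -/
noncomputable def LP (a b : V3) (d : ℝ) (P : V3 × V3) : ℝ :=
  a ⬝ᵥ P.1 + b ⬝ᵥ P.2 + d * (P.1 ⬝ᵥ P.2)

/-- HY7 (60 lines; uses nothing). Edit of `B_HYP.lean`: 8 unknowns `a, b, d, c`, 7 equations; if
`a = b = 0`, `d = 0` then `c = 0`. -/
def Stmt_HY7 : Prop :=
  ∀ Φ : Fin 7 → V3 × V3, ∃ (a b : V3) (d c : ℝ), ¬ (a = 0 ∧ b = 0 ∧ d = 0) ∧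
    ∀ i, LP a b d (Φ i) = c

/-- PT7 (100 lines; uses nothing). Put `s = 1` if `0 ≤ d`, `s = -1` otherwise, `u = δ e₀` with
`0 < δ < ε`; candidates `(a, b)`, `(a + s u, b + u)`, `(a - s u, b - u)`.  If all three fail there
are maximum points `q₀, q₁, q₂` with values `M₀, M₁, M₂` and `aᵢ ⬝ bᵢ + d Mᵢ = 0`.  As
`M₁ ≥ L₁(q₀)`, `M₂ ≥ L₂(q₀)`, `L₁(q₀) + L₂(q₀) = 2 M₀`: `M₁ + M₂ - 2 M₀ ≥ 0`; but
`0 = s (2 s u ⬝ u + d (M₁ + M₂ - 2 M₀)) ≥ 2 u ⬝ u > 0`.  (No compactness needed.) -/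
def Stmt_PT7 : Prop :=
  ∀ (X : Type w) (K : Set X) (P : X → V3 × V3) (a b : V3) (d ε : ℝ), 0 < ε →
    ∃ a' b' : V3, ‖a' - a‖ < ε ∧ ‖b' - b‖ < ε ∧ ∀ q ∈ K,
      (∀ q' ∈ K, LP a' b' d (P q') ≤ LP a' b' d (P q)) → a' ⬝ᵥ b' + d * LP a' b' d (P q) ≠ 0

/-! ### Surfaces -/

section surface

variable {S : Type w} [TopologicalSpace S] [ChartedSpace E2 S]

/-- the motion as a pair -/
noncomputable def Mo (f g : S → E3) (q : S) : V3 × V3 := (Yg f g q, Wg f g q)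

/-- the motion is locally constant at `q` -/
def LC (f g : S → E3) (q : S) : Prop := ∀ᶠ q' in 𝓝 q, Mo f g q' = Mo f g q

end surface

/-- MX7 (150 lines; uses SIG, LP7, PT7, LOC, GLB, CTY, LCN): maximum principle on an open connected
set `C` of elliptic points.  `L_{a,b}(q₀) > L_{a,b}` on the compact set `frontier C`; this remains
true for `(a', b')` near `(a, b)` (`Mo` is bounded on the compact `closure C`), and by PT7 with
`K = closure C` we may suppose `a' ⬝ b' + d L'(q) ≠ 0` at every maximum point `q` of `L'` on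
`closure C`.  Let `M` be the maximum over `closure C`; `u = {q ∈ C | L' q = M}` is nonempty (the
maximum is not on the frontier), open (LP7, LCN: `STA_open` in `B_STA.lean`), and
`closure u ∩ C ⊆ u`; `IsPreconnected.subset_of_closure_inter_subset` gives `C ⊆ u`, and at every
point of `u` the motion is locally constant. -/
def Stmt_MX7 : Prop :=
  ∀ (S : Type w) [TopologicalSpace S] [ChartedSpace E2 S] [IsManifold (𝓡 2) 2 S]
    [CompactSpace S] (f g : S → E3), MPair f g → ∀ C : Set S, IsOpen C → IsPreconnected C →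
    (∀ q ∈ C, Ell f g q) → ∀ (a b : V3) (d : ℝ), ∀ q0 ∈ C,
    (∀ p ∈ frontier C, LP a b d (Mo f g p) < LP a b d (Mo f g q0)) → ∀ q ∈ C, LC f g q

/-- ST7 (80 lines; uses MX7, SIG, KL7, LOC, GLB, LCN): if `L = c` on `C`: KL7 (`STA_kil`).
Otherwise MX7 for `(a, b, d)` or `(-a, -b, -d)`. -/
def Stmt_ST7 : Prop :=
  ∀ (S : Type w) [TopologicalSpace S] [ChartedSpace E2 S] [IsManifold (𝓡 2) 2 S]
    [CompactSpace S] (f g : S → E3), MPair f g → ∀ C : Set S, IsOpen C → IsPreconnected C →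
    (∀ q ∈ C, Ell f g q) → ∀ (a b : V3) (d c : ℝ), ¬ (a = 0 ∧ b = 0 ∧ d = 0) →
    (∀ p ∈ frontier C, LP a b d (Mo f g p) = c) → ∀ q ∈ C, LC f g q

/-- DN7 (110 lines; uses YC1, LOC, GLB, LCN): in the chart at `q` the functions `pd i yy` are
continuous on the open target, and zero at the points whose image is in `D` (there `yy` is locally
constant: first formula of GLB, continuity of the inverse chart); these points are dense in the
target, so `pd i yy = 0` on the target, `Rig` at the centre, LCN. -/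
def Stmt_DN7 : Prop :=
  ∀ (S : Type w) [TopologicalSpace S] [ChartedSpace E2 S] [IsManifold (𝓡 2) 2 S] (f g : S → E3),
    MPair f g → ∀ D : Set S, Dense D → (∀ q ∈ D, LC f g q) → ∀ q, LC f g q

/-! ### Motions -/

/-- Cayley data of a motion: `B z - z = y × (B z + z) + 2 w` -/
def Cay (B : E3 ≃ᵃⁱ[ℝ] E3) (P : V3 × V3) : Prop :=
  ∀ z : E3, L3 (B z) - L3 z = P.1 ⨯₃ (L3 (B z) + L3 z) + (2 : ℝ) • P.2

/-- a screw motion of angle in `(0, π)`, right handed for `ε > 0`, left handed for `ε < 0`: the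
translation has a positive (negative) product with the axial vector of the rotation -/
def Screw (ε : ℝ) (B : E3 ≃ᵃⁱ[ℝ] E3) : Prop := ∃ P : V3 × V3, Cay B P ∧ 0 < ε * (P.1 ⬝ᵥ P.2)

/-- CY7 (60 lines; uses GLB; import `B_VAL` for `VAL_all`, `VAL_W`). -/
def Stmt_CY7 : Prop :=
  ∀ (S : Type w) [TopologicalSpace S] [ChartedSpace E2 S] [IsManifold (𝓡 2) 2 S] (f g : S → E3),
    MPair f g → ∀ B : E3 ≃ᵃⁱ[ℝ] E3, Proper B → ∀ q : S, g q = B (f q) →
    (∀ v, FRD.dvec g q v = B.linearIsometryEquiv (FRD.dvec f q v)) → Cay B (Mo f g q)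

/-- UQ7 (60 lines; uses nothing): put `u = R e + e` (`R` linear part); differences of the two
equations at `z = e`, `0` give `R e - e = y × u`, `R e - e = y' × u`, so `e = (u - y × u) / 2` and
`(y - y') × u = 0`; the map `e ↦ u` is injective, so surjective; `y = y'`, then `w = w'`. -/
def Stmt_UQ7 : Prop :=
  ∀ (B : E3 ≃ᵃⁱ[ℝ] E3) (P P' : V3 × V3), Cay B P → Cay B P' → P = P'

/-- RB7 (80 lines; uses HY7, UQ7): at most seven motions: choose `Φ : Fin 7 → V3 × V3` containing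
the Cayley data of all members of `H` that have some. -/
def Stmt_RB7 : Prop :=
  ∀ (H : Set (E3 ≃ᵃⁱ[ℝ] E3)), H.encard ≤ 7 → ∃ (a b : V3) (d c : ℝ),
    ¬ (a = 0 ∧ b = 0 ∧ d = 0) ∧ ∀ B ∈ H, ∀ P, Cay B P → LP a b d P = c

/-- RP7 (70 lines; uses nothing): all rotation parts carry `e` to the same vector `e''`.  For
`B ∈ H`: `e'' - e = y × (e'' + e)`.  If `e'' + e = 0` then `e = 0` for the members with Cayley data,
so there is none (any `a, b, d`).  Otherwise take `δ` with `a = (e'' + e) × δ ≠ 0`, `b = 0`,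
`d = 0`, `c = δ ⬝ (e'' - e)`. -/
def Stmt_RP7 : Prop :=
  ∀ (H : Set (E3 ≃ᵃⁱ[ℝ] E3)) (e : E3), e ≠ 0 →
    (∀ B ∈ H, ∀ B' ∈ H, B.linearIsometryEquiv e = B'.linearIsometryEquiv e) →
    ∃ (a b : V3) (d c : ℝ), ¬ (a = 0 ∧ b = 0 ∧ d = 0) ∧ ∀ B ∈ H, ∀ P, Cay B P → LP a b d P = c

/-- RQ7 (60 lines; uses nothing): all motions carry `x` to the same point `x''`:
`a = (x'' + x) × δ`, `b = 2 δ`, `d = 0`, `c = δ ⬝ (x'' - x)`, `δ = e₀`. -/
def Stmt_RQ7 : Prop :=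
  ∀ (H : Set (E3 ≃ᵃⁱ[ℝ] E3)) (x : E3), (∀ B ∈ H, ∀ B' ∈ H, B x = B' x) →
    ∃ (a b : V3) (d c : ℝ), ¬ (a = 0 ∧ b = 0 ∧ d = 0) ∧ ∀ B ∈ H, ∀ P, Cay B P → LP a b d P = c

/-- NS7 (80 lines; uses GLB): choose `v ≠ 0` tangent with `u = dg v + df v` orthogonal to
`y = Yg f g q` (two dimensional space of `v`, `‖u‖ ≥ 2 ‖df v‖ - ‖dg v - df v‖ > 0`);
`‖y‖ ‖u‖ = ‖y × u‖ = ‖dg v - df v‖ ≤ ‖df v‖ / 2 ≤ ‖u‖ / 3`. -/
def Stmt_NS7 : Prop :=
  ∀ (S : Type w) [TopologicalSpace S] [ChartedSpace E2 S] [IsManifold (𝓡 2) 2 S] (f g : S → E3),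
    MPair f g → ∀ q : S, Yg f g q ⬝ᵥ Yg f g q < 1

/-- AL7 (130 lines; uses nothing): `G = B ∘ B'⁻¹` has Cayley data `(y'', w'')`.  Put
`δ = y - y'`, `ω = w - w'`, `D = δ - y × y'`.  (1) subtract the equations of `B` and `B'` at `z`:
`B z - B' z = ½ (y + y') × (B z - B' z) + ½ δ × (B z + B' z + 2 z) + 2 ω`, so
`2 δ ⬝ ω = D ⬝ (B z - B' z)` for all `z`.  (2) with `R, R'` the linear parts:
`(1 + y ⬝ y') (R e - R' e) = D × (R e + R' e)` (insert
`(1 + y ⬝ y) R e = (1 - y ⬝ y) e + 2 (y ⬝ e) y + 2 y × e`), and `R e - R' e = y'' × (R e + R' e)`,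
`e ↦ R e + R' e` is onto (as in UQ7 for `G`): `D = (1 + y ⬝ y') y''`.  (3)
`y'' ⬝ (B z - B' z) = 2 y'' ⬝ w''`.  So `2 δ ⬝ ω = (1 + y ⬝ y') 2 y'' ⬝ w''`. -/
def Stmt_AL7 : Prop :=
  ∀ (B B' : E3 ≃ᵃⁱ[ℝ] E3) (P P' : V3 × V3), Cay B P → Cay B' P' → 0 < 1 + P.1 ⬝ᵥ P'.1 →
    ∀ ε : ℝ, Screw ε (B'.symm.trans B) → 0 < ε * ((P.1 - P'.1) ⬝ᵥ (P.2 - P'.2))

/-- CV7 (110 lines; uses nothing): a point `X` of the hull of a finite set `Q` with respect to all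
functionals `LP` is in `Q`.  `Ψ P = (P.1, P.2, P.1 ⬝ P.2)` in the finite dimensional space
`V3 × V3 × ℝ`; `Ψ X` is in the convex hull of `Ψ '' Q` (finite, closed; Hahn-Banach
`geometric_hahn_banach_closed_point`, every continuous functional of `V3 × V3 × ℝ` is
`(p, q, r) ↦ a ⬝ p + b ⬝ q + d r`).  `Ψ X = Σ t_i Ψ P_i`, `Σ t_i = 1`: then
`Σ_{i,j} t_i t_j (y_i - y_j) ⬝ (w_i - w_j) = 2 (Σ t_i y_i ⬝ w_i - (Σ t_i y_i) ⬝ (Σ t_i w_i)) = 0`,
all terms have the same sign, so `t_i t_j = 0` for `P_i ≠ P_j`, one `t_i = 1`. -/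
def Stmt_CV7 : Prop :=
  ∀ (Q : Set (V3 × V3)) (ε : ℝ), Q.Finite → (∀ P ∈ Q, ∀ P' ∈ Q, P ≠ P' →
    0 < ε * ((P.1 - P'.1) ⬝ᵥ (P.2 - P'.2))) → ∀ X : V3 × V3,
    (∀ (a b : V3) (d : ℝ), ∃ P ∈ Q, LP a b d X ≤ LP a b d P) → X ∈ Q

/-- SH7 (90 lines; uses MX7, CV7, CTY): if the conclusion fails then MX7 gives for every `q ∈ C`
and all `(a, b, d)` a point `p` of `frontier C` with `L q ≤ L p`; by CV7 `Mo q ∈ Q`; the continuous
map `Mo` has on the preconnected set `C` finitely many values: it is constant on `C`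
(`IsPreconnected.subset_of_closure_inter_subset` or the subspace topology), so locally constant. -/
def Stmt_SH7 : Prop :=
  ∀ (S : Type w) [TopologicalSpace S] [ChartedSpace E2 S] [IsManifold (𝓡 2) 2 S]
    [CompactSpace S] (f g : S → E3), MPair f g → ∀ C : Set S, IsOpen C → IsPreconnected C →
    (∀ q ∈ C, Ell f g q) → ∀ (Q : Set (V3 × V3)) (ε : ℝ), Q.Finite →
    (∀ P ∈ Q, ∀ P' ∈ Q, P ≠ P' → 0 < ε * ((P.1 - P'.1) ⬝ᵥ (P.2 - P'.2))) →
    (∀ p ∈ frontier C, Mo f g p ∈ Q) → ∀ q ∈ C, LC f g q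

/-! ### The theorem -/

section final

variable {S : Type w} [TopologicalSpace S] [ChartedSpace E2 S]

/-- the motions of `H` carry the points of `P` and their tangent planes from `f` to `g` -/
def Carry (f g : S → E3) (H : Set (E3 ≃ᵃⁱ[ℝ] E3)) (P : Set S) : Prop :=
  ∀ p ∈ P, ∃ B ∈ H, g p = B (f p) ∧
    ∀ v, FRD.dvec g p v = B.linearIsometryEquiv (FRD.dvec f p v)

end final

/-- a special set of proper motions: at most seven; or all carry one nonzero vector to the same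
vector; or all carry one point to the same point; or finitely many, any two of which differ by a
screw motion of the same hand -/
def Special (H : Set (E3 ≃ᵃⁱ[ℝ] E3)) : Prop :=
  (∀ B ∈ H, Proper B) ∧
  (H.encard ≤ 7 ∨
   (∃ e : E3, e ≠ 0 ∧ ∀ B ∈ H, ∀ B' ∈ H, B.linearIsometryEquiv e = B'.linearIsometryEquiv e) ∨
   (∃ x : E3, ∀ B ∈ H, ∀ B' ∈ H, B x = B' x) ∨
   (∃ ε : ℝ, H.Finite ∧ ∀ B ∈ H, ∀ B' ∈ H, B ≠ B' → Screw ε (B'.symm.trans B)))

/-- SP7 (60 lines; uses nothing): invariance of `Special` under `B ↦ A⁻¹ then B`: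
`(A.symm.trans B')⁻¹` then `A.symm.trans B` is `B'⁻¹` then `B`; the vector is `A e`, the point
`A x`.  `FIN_trans`, `FIN_symm` in `B_FIN.lean`. -/
def Stmt_SP7 : Prop :=
  ∀ (H : Set (E3 ≃ᵃⁱ[ℝ] E3)) (A : E3 ≃ᵃⁱ[ℝ] E3), Proper A → Special H →
    Special ((fun B => A.symm.trans B) '' H)

/-- CM7 (100 lines; uses CY7, UQ7, RB7, RP7, RQ7, NS7, AL7, ST7, SH7): one open connected set.  In
the last case `Q` is the set of the values `Mo f g p`, `p ∈ frontier C` (finite by CY7, UQ7);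
two different values belong to different motions, AL7 with NS7
(`|y ⬝ y'| ≤ 1` by Cauchy-Schwarz, strict). -/
def Stmt_CM7 : Prop :=
  ∀ (S : Type w) [TopologicalSpace S] [ChartedSpace E2 S] [IsManifold (𝓡 2) 2 S]
    [CompactSpace S] (f g : S → E3), MPair f g → ∀ C : Set S, IsOpen C → IsPreconnected C →
    (∀ q ∈ C, Ell f g q) → ∀ H : Set (E3 ≃ᵃⁱ[ℝ] E3), Special H → Carry f g H (frontier C) →
    ∀ q ∈ C, LC f g q

/-- LR7 (80 lines; uses VAL): if `g = B ∘ f` near `q` with a proper motion `B` the motion is locally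
constant at `q` (first order by differentiating, see `FIN_dvec` in `B_FIN.lean`). -/
def Stmt_LR7 : Prop :=
  ∀ (S : Type w) [TopologicalSpace S] [ChartedSpace E2 S] [IsManifold (𝓡 2) 2 S] (f g : S → E3),
    MPair f g → ∀ B : E3 ≃ᵃⁱ[ℝ] E3, Proper B → ∀ q : S, (∀ᶠ p in 𝓝 q, g p = B (f p)) → LC f g q

/-- the hypothesis on the family: every point with `K > 0` lies in an open connected set `C` of
points with `K > 0` whose frontier is carried by a special set of motions; every interior point of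
the set where `K > 0` fails has a neighbourhood moved by one proper motion -/
def Hyp7 {S : Type w} [TopologicalSpace S] [ChartedSpace E2 S] (f0 ft : S → E3) : Prop :=
  (∀ q, PosCurv f0 q → ∃ C : Set S, IsOpen C ∧ IsPreconnected C ∧ q ∈ C ∧ (∀ p ∈ C, PosCurv f0 p) ∧
    ∃ H : Set (E3 ≃ᵃⁱ[ℝ] E3), Special H ∧ Carry f0 ft H (frontier C)) ∧
  (∀ q ∈ interior {p | ¬ PosCurv f0 p}, ∃ B : E3 ≃ᵃⁱ[ℝ] E3, Proper B ∧
    ∀ᶠ p in 𝓝 q, ft p = B (f0 p))

/-- FI7 (170 lines; uses CM7, LR7, DN7, SP7, ROT, GLB, CLO, ELP, SGN).  Edit of `B_FIN.lean`: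
`s ∈ T`, `f s = A f 0`, `t` near `s`: `Mo (f s) (f t)` is locally constant at the points with
`PosCurv (f 0)` (CM7 with `SP7`) and at the interior points of the complement (LR7); these points
are dense, DN7: locally constant everywhere, constant (`STA_const`), ROT. -/
def Stmt_FI7 : Prop :=
  ∀ (S : Type w) [TopologicalSpace S] [ChartedSpace E2 S] [IsManifold (𝓡 2) 2 S]
    [CompactSpace S] [ConnectedSpace S] (f : ℝ → S → E3), Fam2 f →
    (∀ t ∈ Icc (0 : ℝ) 1, Hyp7 (f 0) (f t)) →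
    ∀ t ∈ Icc (0 : ℝ) 1, ∃ A : E3 ≃ᵃⁱ[ℝ] E3, Proper A ∧ ∀ p, f t p = A (f 0 p)

end Pool.SXB
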