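import Pool.Agent.Work.MP_02e829_s7.B_AL7
import Pool.Agent.Work.MP_02e829_sb.B_STB

/-!
# Linear relations between Cayley data

`UL8`: the Rodrigues vector depends on the linear part.  `RT8`: at most three linear parts.
`RH8`: motions which differ from a fixed motion by a rotation or by a translation.
-/

open Set Filter Manifold Matrix MeasureTheory Metric
open scoped Topology ContDiff Manifold

set_option autoImplicit false

universe w

namespace Pool.SXB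

open Pool.FR (pd ee)

lemma UL8_surj (z : V3) : ∃ u : E3, L3 u = z :=
  ⟨(EuclideanSpace.equiv (Fin 3) ℝ).symm z,
    (EuclideanSpace.equiv (Fin 3) ℝ).apply_symm_apply z⟩

/-- the equation of the linear part -/
lemma UL8_lin {B : E3 ≃ᵃⁱ[ℝ] E3} {P : V3 × V3} (h : Cay B P) (e : E3) :
    L3 (B.linearIsometryEquiv e) - L3 e = P.1 ⨯₃ (L3 (B.linearIsometryEquiv e) + L3 e) := by
  have h1 := AL7_sub (X := fun z => L3 (B z)) (Y := fun z => L3 z) h e
  have h2 : L3 (B e) - L3 (B 0) = L3 (B.linearIsometryEquiv e) := by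
    have h4 := B.map_vadd (0 : E3) e
    simp only [vadd_eq_add, add_zero] at h4
    rw [h4, map_add]
    abel
  simp only [h2, map_zero, sub_zero] at h1
  exact h1

lemma UL8_cross {d : V3} (h : ∀ u : V3, d ⨯₃ u = 0) : d = 0 := by
  have h0 := h ![1, 0, 0]
  have h1 := h ![0, 1, 0]
  have a1 := congrFun h0 1
  have a2 := congrFun h0 2
  have b2 := congrFun h1 2
  rw [AL7_c1] at a1
  rw [AL7_c2] at a2
  rw [AL7_c2] at b2
  simp at a1 a2 b2
  ext i
  fin_cases i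
  · exact b2
  · exact a2
  · exact a1

theorem UL8 {B B' : E3 ≃ᵃⁱ[ℝ] E3} {P P' : V3 × V3} (h : Cay B P) (h' : Cay B' P')
    (hl : B.linearIsometryEquiv = B'.linearIsometryEquiv) : P.1 = P'.1 := by
  refine sub_eq_zero.1 (UL8_cross fun u => ?_)
  obtain ⟨e, he⟩ := UL8_surj ((1 / 2 : ℝ) • (u - P.1 ⨯₃ u))
  have h1 := UL8_lin h e
  have h2 := UL8_lin h' e
  rw [← hl] at h2
  have h3 : L3 (B.linearIsometryEquiv e) + L3 e = u := by
    refine AL7_onto P.1 (L3 e) (L3 (B.linearIsometryEquiv e)) u ?_ h1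
    rw [he, smul_smul]
    norm_num
  rw [h3] at h1 h2
  rw [map_sub, LinearMap.sub_apply, ← h1, ← h2, sub_self]

/-- at most three linear parts -/
theorem RT8 (H : Set (E3 ≃ᵃⁱ[ℝ] E3))
    (hH : ((fun B : E3 ≃ᵃⁱ[ℝ] E3 => B.linearIsometryEquiv) '' H).encard ≤ 3) :
    ∃ (a b : V3) (d c : ℝ), ¬ (a = 0 ∧ b = 0 ∧ d = 0) ∧ ∀ B ∈ H, ∀ P, Cay B P →
      LP a b d P = c := by
  set K := (fun B : E3 ≃ᵃⁱ[ℝ] E3 => B.linearIsometryEquiv) '' H with hK
  have h1 : K.encard ≤ ((3 : ℕ) : ℕ∞) := hH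
  obtain ⟨hfin, hcard⟩ := Set.encard_le_coe_iff_finite_ncard_le.1 h1
  have hfin' : Finite K := hfin
  have hft : Fintype K := Fintype.ofFinite K
  have hc : Fintype.card K ≤ Fintype.card (Fin 3) := by
    rw [Fintype.card_fin, ← Nat.card_eq_fintype_card]
    exact hcard
  obtain ⟨e⟩ := Function.Embedding.nonempty_of_card_le hc
  classical
  obtain ⟨Φ, hΦ⟩ : ∃ Φ : Fin 3 → V3, ∀ i, ∀ (B : E3 ≃ᵃⁱ[ℝ] E3) (P : V3 × V3) (hB : B ∈ H),
      e ⟨B.linearIsometryEquiv, B, hB, rfl⟩ = i → Cay B P → Φ i = P.1 := by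
    refine ⟨fun i => if h : ∃ (P : V3 × V3) (B : E3 ≃ᵃⁱ[ℝ] E3) (hB : B ∈ H),
      e ⟨B.linearIsometryEquiv, B, hB, rfl⟩ = i ∧ Cay B P then h.choose.1 else 0, ?_⟩
    intro i B P hB hi hP
    have h : ∃ (P : V3 × V3) (B : E3 ≃ᵃⁱ[ℝ] E3) (hB : B ∈ H),
      e ⟨B.linearIsometryEquiv, B, hB, rfl⟩ = i ∧ Cay B P := ⟨P, B, hB, hi, hP⟩
    simp only
    rw [dif_pos h]
    obtain ⟨B', hB', hi', hP'⟩ := h.choose_spec
    have h2 := e.injective (hi'.trans hi.symm)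
    exact UL8 hP' hP (congrArg Subtype.val h2)
  obtain ⟨a, c, ha, hac⟩ := STB_plane Φ
  refine ⟨a, 0, 0, c, fun h => ha h.1, fun B hB P hP => ?_⟩
  rw [LP, zero_dotProduct, zero_mul, add_zero, add_zero, ← hΦ _ B P hB rfl hP]
  exact hac _

/-- the scalar identity -/
lemma RH8_alg (y y' w w' X X' z : V3) (hX : X - z = y ⨯₃ (X + z) + (2 : ℝ) • w)
    (hX' : X' - z = y' ⨯₃ (X' + z) + (2 : ℝ) • w') :
    2 * ((y - y') ⬝ᵥ (w - w')) = (y - y' - y ⨯₃ y') ⬝ᵥ (X - X') := by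
  have a0 := congrFun hX 0
  have a1 := congrFun hX 1
  have a2 := congrFun hX 2
  have b0 := congrFun hX' 0
  have b1 := congrFun hX' 1
  have b2 := congrFun hX' 2
  simp only [Pi.add_apply, Pi.sub_apply, Pi.smul_apply, smul_eq_mul, AL7_c0, AL7_c1, AL7_c2] at *
  rw [AL7_d, AL7_d]
  simp only [Pi.sub_apply, AL7_c0, AL7_c1, AL7_c2]
  linear_combination (-1 : ℝ) * ((y 0 - y' 0) * (a0 - b0) + (y 1 - y' 1) * (a1 - b1) +
    (y 2 - y' 2) * (a2 - b2))

/-- motions which differ from `h` by a rotation or by a translation -/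
theorem RH8 {B B' : E3 ≃ᵃⁱ[ℝ] E3} {P P' : V3 × V3} (h : Cay B P) (h' : Cay B' P')
    (hx : (∃ x, B x = B' x) ∨ B.linearIsometryEquiv = B'.linearIsometryEquiv) :
    LP (-P'.2) (-P'.1) 1 P = -(P'.1 ⬝ᵥ P'.2) := by
  have key : (P.1 - P'.1) ⬝ᵥ (P.2 - P'.2) = 0 := by
    rcases hx with ⟨x, hx⟩ | hl
    · have h1 := RH8_alg P.1 P'.1 P.2 P'.2 _ _ _ (h x) (h' x)
      rw [hx, sub_self, dotProduct_zero] at h1
      linarith
    · rw [UL8 h h' hl, sub_self, zero_dotProduct]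
  rw [sub_dotProduct, dotProduct_sub, dotProduct_sub] at key
  rw [LP, neg_dotProduct, neg_dotProduct, one_mul]
  have e1 : P'.2 ⬝ᵥ P.1 = P.1 ⬝ᵥ P'.2 := dotProduct_comm _ _
  rw [e1]
  linarith

end Pool.SXB
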